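import Pool.Agent.V7H5.TI.Gal

/-!
# Extension of the coefficients of a cohomology theory with a Galois action
-/

open CategoryTheory AlgebraicGeometry TensorProduct

universe u v w

namespace Pool.Agent.V7H5.TI

open Module
open Pool.Agent.H914 Pool.Agent.H914.VarClass Pool.Agent.H914.VarClass.Obj
  Pool.Agent.H914.WeilCohomology Pool.Agent.H281R3.HT Pool.Agent.TH125.Gal
open Pool.Agent.Y129 (pw TG PowerAction tateClasses tateDim)

section Alg

variable {K : Type*} [Field K] {A : Type*} [Ring A] [Algebra K A] {B : Type*} [Ring B]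
  [Algebra K B] (L : Type*) [Field L] [Algebra K L] {Γ : Type*} [Group Γ]

/-- The action on the extension of an algebra. -/
noncomputable def actBase (R : Γ →* (A ≃ₐ[K] A)) : Γ →* ((L ⊗[K] A) ≃ₐ[L] (L ⊗[K] A)) where
  toFun g := Algebra.TensorProduct.congr AlgEquiv.refl (R g)
  map_one' := by
    apply AlgEquiv.ext
    intro x
    refine tmul_induction (P := fun x => (Algebra.TensorProduct.congr
      (AlgEquiv.refl : L ≃ₐ[L] L) (R 1)) x = x) ?_ ?_ ?_ x
    · rw [map_zero]
    · intro x y hx hy; rw [map_add, hx, hy]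
    · intro l a
      rw [map_one]
      rfl
  map_mul' g h := by
    apply AlgEquiv.ext
    intro x
    refine tmul_induction (P := fun x => (Algebra.TensorProduct.congr
      (AlgEquiv.refl : L ≃ₐ[L] L) (R (g * h))) x = (Algebra.TensorProduct.congr
      (AlgEquiv.refl : L ≃ₐ[L] L) (R g) * Algebra.TensorProduct.congr
      (AlgEquiv.refl : L ≃ₐ[L] L) (R h)) x) ?_ ?_ ?_ x
    · rw [map_zero, map_zero]
    · intro x y hx hy; rw [map_add, hx, hy, map_add]
    · intro l a
      rw [map_mul]
      rfl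

variable {L}

lemma actBase_tmul (R : Γ →* (A ≃ₐ[K] A)) (g : Γ) (l : L) (a : A) :
    actBase L R g (l ⊗ₜ[K] a) = l ⊗ₜ[K] (R g a) := rfl

open scoped Classical in
/-- Coordinates with respect to a basis of the extension. -/
noncomputable def co (L : Type*) [Field L] [Algebra K L] :
    L ⊗[K] A ≃ₗ[K] (Basis.ofVectorSpaceIndex K L →₀ A) :=
  TensorProduct.equivFinsuppOfBasisLeft (Basis.ofVectorSpace K L)

open scoped Classical in
lemma co_tmul (l : L) (a : A) (i : Basis.ofVectorSpaceIndex K L) :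
    co L (l ⊗ₜ[K] a) i = (Basis.ofVectorSpace K L).repr l i • a :=
  TensorProduct.equivFinsuppOfBasisLeft_apply_tmul_apply _ _ _ _

open scoped Classical in
lemma mem_baseChange_of_co {P : Submodule K A} {c : L ⊗[K] A} (h : ∀ i, co L c i ∈ P) :
    c ∈ P.baseChange L := by
  rw [← (co (A := A) L).symm_apply_apply c]
  rw [co, TensorProduct.equivFinsuppOfBasisLeft_symm_apply]
  refine Submodule.sum_mem _ fun i _ => ?_
  exact Submodule.tmul_mem_baseChange_of_mem _ (h i)

lemma co_mem {P : Submodule K A} {c : L ⊗[K] A} (hc : c ∈ P.baseChange L)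
    (i : Basis.ofVectorSpaceIndex K L) : co L c i ∈ P := by
  refine base_induction (P := fun c => co L c i ∈ P) ?_ ?_ ?_ hc
  · rw [map_zero]; exact Submodule.zero_mem _
  · intro x y hx hy
    rw [map_add]; exact Submodule.add_mem _ hx hy
  · intro l a ha
    rw [co_tmul]
    exact Submodule.smul_mem _ _ ha

lemma co_act (R : Γ →* (A ≃ₐ[K] A)) (g : Γ) (c : L ⊗[K] A)
    (i : Basis.ofVectorSpaceIndex K L) : co L (actBase L R g c) i = R g (co L c i) := by
  refine tmul_induction (P := fun c => co L (actBase L R g c) i = R g (co L c i)) ?_ ?_ ?_ c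
  · rw [map_zero, map_zero]
    exact (map_zero (R g)).symm
  · intro x y hx hy
    rw [map_add, map_add, map_add, Finsupp.add_apply, Finsupp.add_apply, hx, hy, map_add]
  · intro l a
    rw [actBase_tmul, co_tmul, co_tmul, map_smul]

/-- The character of the extension. -/
noncomputable def chiBase (L : Type*) [Field L] [Algebra K L] (χ : Γ →* Kˣ) : Γ →* Lˣ :=
  (Units.map (algebraMap K L : K →* L)).comp χ

lemma chiBase_apply (χ : Γ →* Kˣ) (g : Γ) :
    ((chiBase L χ g : Lˣ) : L) = algebraMap K L (χ g) := rfl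

lemma chiBase_smul (χ : Γ →* Kˣ) (g : Γ) (j : ℕ) (c : L ⊗[K] A) :
    ((chiBase L χ g : Lˣ) : L) ^ j • c = ((χ g : K) ^ j) • c := by
  rw [chiBase_apply, ← map_pow, algebraMap_smul]

lemma one_tmul_smul (r : K) (a : A) : (1 : L) ⊗ₜ[K] (r • a) = r • ((1 : L) ⊗ₜ[K] a) :=
  TensorProduct.tmul_smul r (1 : L) a

/-- The Tate classes of the extension. -/
lemma tateClasses_base (χ : Γ →* Kˣ) (gr : ℕ → Submodule K A) (R : Γ →* (A ≃ₐ[K] A)) (j : ℕ) :
    tateClasses (chiBase L χ) (fun i => (gr i).baseChange L) (actBase L R) j =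
      (tateClasses χ gr R j).baseChange L := by
  apply le_antisymm
  · rintro c ⟨hc, Δ, hΔ, h⟩
    apply mem_baseChange_of_co
    intro i
    refine ⟨co_mem hc i, Δ, hΔ, fun g hg => ?_⟩
    have h1 : co L (actBase L R g c) i = co L (((chiBase L χ g : Lˣ) : L) ^ j • c) i :=
      congrArg (fun c => co L c i) (h g hg)
    rw [co_act, chiBase_smul, map_smul, Finsupp.smul_apply] at h1
    exact h1
  · intro c hc
    refine base_induction (P := fun c => c ∈ tateClasses (chiBase L χ)
      (fun i => (gr i).baseChange L) (actBase L R) j) ?_ ?_ ?_ hc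
    · exact Submodule.zero_mem _
    · intro x y hx hy
      exact Submodule.add_mem _ hx hy
    · rintro l a ⟨ha, Δ, hΔ, h⟩
      refine ⟨Submodule.tmul_mem_baseChange_of_mem _ ha, Δ, hΔ, fun g hg => ?_⟩
      rw [actBase_tmul, h g hg, chiBase_smul, TensorProduct.tmul_smul]

end Alg

variable {k : Type u} [Field k] {𝒱 : VarClass k} {ops : CycleOps 𝒱}
  {W : WeilCohomology.{u, v} ops} {X : 𝒱.Obj} {Γ : Type w} [Group Γ]
  {χ : Γ →* W.Kˣ} {ρ : ∀ n, Γ →* (W.H (pw X n) ≃ₐ[W.K] W.H (pw X n))}
  (L : Type v) [Field L] [Algebra W.K L]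

/-- The action on the cohomology with extended coefficients. -/
noncomputable def rhoBase (ρ : ∀ n, Γ →* (W.H (pw X n) ≃ₐ[W.K] W.H (pw X n))) (n : ℕ) :
    Γ →* ((baseW W L).H (pw X n) ≃ₐ[(baseW W L).K] (baseW W L).H (pw X n)) :=
  actBase L (ρ n)

/-- The character with values in the extended coefficient field. -/
noncomputable def chiB (χ : Γ →* W.Kˣ) : Γ →* (baseW W L).Kˣ := chiBase L χ

/-- The action after the extension of the coefficients. -/
theorem powerAction_base (h : PowerAction W X χ ρ) :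
    PowerAction (baseW W L) X (chiB L χ) (rhoBase L ρ) where
  galois n := by
    refine ⟨?_, ?_, ?_, ?_⟩
    · intro g i a ha
      have ha' : a ∈ (W.gr (pw X n) i).baseChange L := ha
      refine base_induction (P := fun a : L ⊗[W.K] W.H (pw X n) =>
        actBase L (ρ n) g a ∈ (W.gr (pw X n) i).baseChange L) ?_ ?_ ?_ ha'
      · rw [map_zero]; exact Submodule.zero_mem _
      · intro x y hx hy
        rw [map_add]; exact Submodule.add_mem _ hx hy
      · intro l a ha
        rw [actBase_tmul]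
        exact Submodule.tmul_mem_baseChange_of_mem _ ((h.galois n).gr_mem g i a ha)
    · intro g a
      refine tmul_induction (P := fun a : L ⊗[W.K] W.H (pw X n) =>
        formBase L (W.tr (pw X n)) (actBase L (ρ n) g a) =
          ((chiBase L χ g : Lˣ) : L) ^ (pw X n).dim * formBase L (W.tr (pw X n)) a) ?_ ?_ ?_ a
      · rw [map_zero, map_zero, mul_zero]
      · intro x y hx hy
        rw [map_add, map_add, map_add, hx, hy, mul_add]
      · intro l a
        rw [actBase_tmul, formBase_tmul, formBase_tmul, (h.galois n).tr_act, map_mul, map_pow,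
          chiBase_apply]
        ring
    · rintro g j _ ⟨z, hz, rfl⟩
      obtain ⟨c', ⟨z', hz', rfl⟩, h1⟩ := (h.galois n).cl_act g j (W.cl _ z) ⟨z, hz, rfl⟩
      refine ⟨(baseW W L).cl _ z', ⟨z', hz', rfl⟩, ?_⟩
      have h2 : actBase L (ρ n) g ((1 : L) ⊗ₜ[W.K] (W.cl (pw X n) z)) =
          ((chiBase L χ g : Lˣ) : L) ^ j • ((1 : L) ⊗ₜ[W.K] (W.cl (pw X n) z')) := by
        rw [actBase_tmul, h1, chiBase_smul, TensorProduct.tmul_smul]
      exact h2
    · rintro j _ ⟨z, hz, rfl⟩
      obtain ⟨Δ, hΔ, h1⟩ := (h.galois n).cl_fix j (W.cl _ z) ⟨z, hz, rfl⟩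
      refine ⟨Δ, hΔ, fun g hg => ?_⟩
      have h2 : actBase L (ρ n) g ((1 : L) ⊗ₜ[W.K] (W.cl (pw X n) z)) =
          ((chiBase L χ g : Lˣ) : L) ^ j • ((1 : L) ⊗ₜ[W.K] (W.cl (pw X n) z)) := by
        rw [actBase_tmul, h1 g hg, chiBase_smul, TensorProduct.tmul_smul]
      exact h2
  proj n i := by
    intro g a
    refine tmul_induction (P := fun a : L ⊗[W.K] W.H X =>
      actBase L (ρ n) g (mapBase L (W.map (Pool.Agent.Y129.pj X n i)) a) =
        mapBase L (W.map (Pool.Agent.Y129.pj X n i)) (actBase L (ρ 0) g a)) ?_ ?_ ?_ a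
    · have h1 : actBase L (ρ 0) g (0 : L ⊗[W.K] W.H X) = 0 := map_zero _
      have h2 : mapBase L (W.map (Pool.Agent.Y129.pj X n i)) (0 : L ⊗[W.K] W.H X) = 0 :=
        map_zero _
      rw [h2, map_zero]
      exact ((congrArg _ h1).trans h2).symm
    · intro x y hx hy
      have h1 : actBase L (ρ 0) g (x + y : L ⊗[W.K] W.H X) =
        actBase L (ρ 0) g x + actBase L (ρ 0) g y := map_add _ _ _
      rw [map_add, map_add, hx, hy]
      exact ((congrArg _ h1).trans (map_add _ _ _)).symm
    · intro l a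
      have h1 : mapBase L (W.map (Pool.Agent.Y129.pj X n i)) (l ⊗ₜ[W.K] a) =
        l ⊗ₜ[W.K] (W.map (Pool.Agent.Y129.pj X n i) a) := Algebra.TensorProduct.map_tmul _ _ _ _
      have h2 : actBase L (ρ 0) g (l ⊗ₜ[W.K] a) = l ⊗ₜ[W.K] (ρ 0 g a) := actBase_tmul _ _ _ _
      have h3 : mapBase L (W.map (Pool.Agent.Y129.pj X n i)) (l ⊗ₜ[W.K] (ρ 0 g a)) =
        l ⊗ₜ[W.K] (W.map (Pool.Agent.Y129.pj X n i) (ρ 0 g a)) :=
        Algebra.TensorProduct.map_tmul _ _ _ _
      rw [h1, actBase_tmul, h.proj n i g a]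
      exact ((congrArg _ h2).trans h3).symm

/-- The dimension of the space of Tate classes does not change. -/
theorem tateDim_base (n : ℕ) :
    tateDim (baseW W L) X (chiB L χ) (rhoBase L ρ) n = tateDim W X χ ρ n := by
  rw [tateDim, tateDim]
  refine Finset.sum_congr rfl fun j _ => ?_
  have h1 : Module.finrank L (tateClasses (chiBase L χ)
      (fun i => (W.gr (pw X n) i).baseChange L) (actBase L (ρ n)) j) =
      Module.finrank W.K (tateClasses χ (W.gr (pw X n)) (ρ n) j) := by
    rw [tateClasses_base, Pool.Agent.Y129.finrank_baseChange]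
  exact h1

end Pool.Agent.V7H5.TI
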