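import Pool.Agent.R936.UniDefs

/-!
# The algebras of Tate classes on the powers of a variety: definitions
-/

open CategoryTheory AlgebraicGeometry TensorProduct Filter Topology

open scoped ENNReal

universe u v w

namespace Pool.Agent.V7H5.TI

section Alg

variable {K : Type*} [Field K] {A : Type*} [Ring A] [Algebra K A] {Γ : Type*} [Group Γ]

/-- The element `c` is a Tate class of codimension `j`: it is in `gr (2 * j)`, and `ρ g c = χ g ^ j • c`
for all `g` in a subgroup of finite index. -/
def IsTate (χ : Γ →* Kˣ) (gr : ℕ → Submodule K A) (ρ : Γ →* (A ≃ₐ[K] A)) (j : ℕ) (c : A) : Prop :=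
  c ∈ gr (2 * j) ∧ ∃ Δ : Subgroup Γ, Δ.FiniteIndex ∧ ∀ g ∈ Δ, ρ g c = (χ g : K) ^ j • c

/-- The extension of the linear map `f` to coefficients in `L`. -/
noncomputable def baseMap (L : Type*) [Field L] [Algebra K L] {M N : Type*} [AddCommGroup M]
    [Module K M] [AddCommGroup N] [Module K N] (f : M →ₗ[K] N) (x : L ⊗[K] M) : L ⊗[K] N :=
  f.baseChange L x

end Alg

open Pool.Agent.H914 Pool.Agent.H914.VarClass Pool.Agent.H914.VarClass.Obj
  Pool.Agent.H914.WeilCohomology Pool.Agent.TH125.Gal Pool.Agent.Y129 Pool.Agent.R936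

variable {k : Type u} [Field k] {𝒱 : VarClass k} {ops : CycleOps 𝒱}
  {W W₁ W₂ : WeilCohomology.{u, v} ops} {X : 𝒱.Obj}

/-- The Tate classes of codimension `j` on the product of `n + 1` copies of `X`. -/
def TateClass (G : GaloisPowers.{u, v, w} W X) (n j : ℕ) (c : W.H (pw X n)) : Prop :=
  IsTate G.χ (W.gr (pw X n)) (G.ρ n) j c

/-- The dimension of the space of all Tate classes (of all codimensions) on the product of `n + 1`
copies of `X`, divided by the rank of the group of all algebraic cycles modulo numerical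
equivalence. -/
noncomputable def tateRatio (G : GaloisPowers.{u, v, w} W X) (n : ℕ) : ℝ≥0∞ :=
  (Set.finrank W.K {c | ∃ j, TateClass G n j c} : ℝ≥0∞) / cycRank ops (pw X n)

/-- The algebraic classes have density zero among the Tate classes on the powers of `X`: the
quotient `tateRatio` tends to infinity. -/
def DensityZero (G : GaloisPowers.{u, v, w} W X) : Prop := Tendsto (tateRatio G) atTop (𝓝 ⊤)

/-- The Tate conjecture holds in all codimensions for all powers of `X`, and homological and
numerical equivalence agree on all powers of `X`. -/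
def StrongTate (G : GaloisPowers.{u, v, w} W X) : Prop :=
  ∀ n, (∀ j c, TateClass G n j c → c ∈ Submodule.span W.K (algClasses W (pw X n) j)) ∧
    HomEqNum W (pw X n)

section Iso

variable (L : Type v) [Field L]

/-- The cohomology of `Y` with coefficients extended to the field `L`. -/
def HL (W : WeilCohomology.{u, v} ops) [Algebra W.K L] (Y : 𝒱.Obj) : Type v := L ⊗[W.K] W.H Y

/-- The ring structure. -/
noncomputable def hlRing (W : WeilCohomology.{u, v} ops) [Algebra W.K L] (Y : 𝒱.Obj) :
    Ring (HL L W Y) := (Algebra.TensorProduct.instRing : Ring (L ⊗[W.K] W.H Y))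

noncomputable instance (W : WeilCohomology.{u, v} ops) [Algebra W.K L] (Y : 𝒱.Obj) :
    Ring (HL L W Y) := hlRing L W Y

/-- The structure of an algebra over `L`. -/
noncomputable def hlAlgebra (W : WeilCohomology.{u, v} ops) [Algebra W.K L] (Y : 𝒱.Obj) :
    Algebra L (HL L W Y) := (Algebra.TensorProduct.leftAlgebra : Algebra L (L ⊗[W.K] W.H Y))

noncomputable instance (W : WeilCohomology.{u, v} ops) [Algebra W.K L] (Y : 𝒱.Obj) :
    Algebra L (HL L W Y) := hlAlgebra L W Y

variable (W) [Algebra W.K L] {Y Z : 𝒱.Obj}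

/-- The class `c` as a class with coefficients in `L`. -/
noncomputable def toL (c : W.H Y) : HL L W Y := ((1 : L) ⊗ₜ[W.K] c : L ⊗[W.K] W.H Y)

/-- The pull-back, with coefficients extended to `L`. -/
noncomputable def pullL (f : Y ⟶ Z) (x : HL L W Z) : HL L W Y :=
  baseMap L (W.map f).toLinearMap x

/-- The push-forward, with coefficients extended to `L`. -/
noncomputable def pushL (f : Y ⟶ Z) (x : HL L W Y) : HL L W Z :=
  baseMap L (W.push f) x

variable {W}

/-- The set of the `L`-linear combinations of the Tate classes of codimension `j` on the product of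
`n + 1` copies of `X`, in the cohomology with coefficients in `L`. -/
def tateL (G : GaloisPowers.{u, v, w} W X) (n j : ℕ) : Set (HL L W (pw X n)) :=
  Submodule.span L {x | ∃ c, TateClass G n j c ∧ toL W L c = x}

/-- The `L`-linear maps `φ n` give isomorphisms between the spaces of the Tate classes of two
theories on the powers of `X`, with coefficients in `L`: they respect the codimension, the classes of
algebraic cycles, products, pull-backs and push-forwards. -/
structure IsTateIso [Algebra W₁.K L] [Algebra W₂.K L] (G₁ : GaloisPowers.{u, v, w} W₁ X)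
    (G₂ : GaloisPowers.{u, v, w} W₂ X) (φ : ∀ n, HL L W₁ (pw X n) → HL L W₂ (pw X n)) :
    Prop where
  linear : ∀ n, IsLinearMap L (φ n)
  bij : ∀ n j, Set.BijOn (φ n) (tateL L G₁ n j) (tateL L G₂ n j)
  cycle : ∀ n j z, (pw X n).IsCyc j z → φ n (toL W₁ L (W₁.cl _ z)) = toL W₂ L (W₂.cl _ z)
  mul : ∀ n i j, ∀ x ∈ tateL L G₁ n i, ∀ y ∈ tateL L G₁ n j, φ n (x * y) = φ n x * φ n y
  pull : ∀ m n (f : pw X m ⟶ pw X n) j, ∀ x ∈ tateL L G₁ n j,
    φ m (pullL W₁ L f x) = pullL W₂ L f (φ n x)
  push : ∀ m n (f : pw X m ⟶ pw X n) j, ∀ x ∈ tateL L G₁ m j,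
    φ n (pushL W₁ L f x) = pushL W₂ L f (φ m x)

end Iso

end Pool.Agent.V7H5.TI
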