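import Pool.Agent.V7H5.TI.Dim

/-!
# The transport of universal classes preserves the degrees
-/

open CategoryTheory AlgebraicGeometry

universe u v

namespace Pool.Agent.V7H5.TI

open Module
open Pool.Agent.H914 Pool.Agent.H914.VarClass Pool.Agent.H914.VarClass.Obj
  Pool.Agent.H914.WeilCohomology Pool.Agent.H281R3.HT
open Pool.Agent.Y133.Half hiding pw
open Pool.Agent.Y129 (pw)

variable {k : Type u} [Field k] {𝒱 : VarClass k} {ops : CycleOps 𝒱}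
  {W W₁ W₂ : WeilCohomology.{u, v} ops} {X Y Z Q : 𝒱.Obj}

/-- The operator which is multiplication by `z ^ j` in degree `2 * j`. -/
noncomputable def Dz (Z : 𝒱.Obj) (z : W.K) : W.H Z →ₗ[W.K] W.H Z :=
  scal (W.isInternal Z) (fun i => z ^ (i / 2))

lemma Dz_gr (z : W.K) {i : ℕ} {a : W.H Z} (ha : a ∈ W.gr Z i) : Dz Z z a = z ^ (i / 2) • a :=
  scal_apply (W.isInternal Z) _ ha

lemma Dz_even (z : W.K) {a : W.H Z} (ha : a ∈ PH W Z 0) : Dz Z z a ∈ PH W Z 0 := by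
  refine PH.ind (p := fun a => Dz Z z a ∈ PH W Z 0) ?_ ?_ ?_ ha
  · intro i hi x hx
    rw [Dz_gr z hx]
    exact Submodule.smul_mem _ _ (PH.of' hi hx)
  · rw [map_zero]; exact Submodule.zero_mem _
  · intro x y hx hy
    rw [map_add]; exact Submodule.add_mem _ hx hy

lemma Dz_Dz (z w : W.K) (a : W.H Z) : Dz Z z (Dz Z w a) = Dz Z (z * w) a := by
  refine gr_induction (W.isInternal Z) (p := fun a => Dz Z z (Dz Z w a) = Dz Z (z * w) a)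
    ?_ ?_ a
  · intro i a ha
    rw [Dz_gr w ha, map_smul, Dz_gr z ha, Dz_gr _ ha, smul_smul, mul_pow, mul_comm]
  · intro a b ha hb
    rw [map_add, map_add, map_add, ha, hb]

lemma Dz_one (a : W.H Z) : Dz Z (1 : W.K) a = a := by
  refine gr_induction (W.isInternal Z) (p := fun a => Dz Z (1 : W.K) a = a) ?_ ?_ a
  · intro i a ha
    rw [Dz_gr _ ha, one_pow, one_smul]
  · intro a b ha hb
    rw [map_add, ha, hb]

lemma Dz_mul (z : W.K) {a b : W.H Z} (ha : a ∈ PH W Z 0) (hb : b ∈ PH W Z 0) :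
    Dz Z z (a * b) = Dz Z z a * Dz Z z b := by
  refine PH.ind (p := fun a => Dz Z z (a * b) = Dz Z z a * Dz Z z b) ?_ ?_ ?_ ha
  · intro i hi x hx
    refine PH.ind (p := fun b => Dz Z z (x * b) = Dz Z z x * Dz Z z b) ?_ ?_ ?_ hb
    · intro j hj y hy
      rw [Dz_gr z (W.mul_mem hx hy), Dz_gr z hx, Dz_gr z hy, smul_mul_smul_comm, ← pow_add]
      congr 2
      omega
    · rw [mul_zero, map_zero, mul_zero]
    · intro y z hy hz
      rw [mul_add, map_add, map_add, mul_add, hy, hz]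
  · rw [zero_mul, map_zero, zero_mul]
  · intro y z hy hz
    rw [add_mul, map_add, map_add, add_mul, hy, hz]

lemma Dz_map (f : Y ⟶ Z) (z : W.K) (a : W.H Z) : Dz Y z (W.map f a) = W.map f (Dz Z z a) := by
  refine gr_induction (W.isInternal Z) (p := fun a => Dz Y z (W.map f a) = W.map f (Dz Z z a))
    ?_ ?_ a
  · intro i a ha
    rw [Dz_gr z (W.map_mem f ha), Dz_gr z ha, map_smul]
  · intro a b ha hb
    rw [map_add, map_add, map_add, map_add, ha, hb]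

lemma Dz_push (f : Y ⟶ Z) (z : W.K) {a : W.H Y} (ha : a ∈ PH W Y 0) :
    z ^ Y.dim • Dz Z z (W.push f a) = z ^ Z.dim • W.push f (Dz Y z a) := by
  refine PH.ind (p := fun a => z ^ Y.dim • Dz Z z (W.push f a) =
    z ^ Z.dim • W.push f (Dz Y z a)) ?_ ?_ ?_ ha
  · intro i hi a ha
    obtain ⟨j, rfl⟩ : ∃ j, i = 2 * j := ⟨i / 2, by omega⟩
    have h2 := W.push_mem f ha
    rw [Dz_gr z ha, map_smul, Nat.mul_div_cancel_left _ (by norm_num : 0 < 2)]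
    by_cases hd : Y.dim ≤ j + Z.dim
    · have e1 : ((2 * j : ℕ) : ℤ) + 2 * ((Z.dim : ℤ) - Y.dim) =
          ((2 * (j + Z.dim - Y.dim) : ℕ) : ℤ) := by
        push_cast [Nat.cast_sub hd]
        ring
      rw [e1, grZ_natCast] at h2
      rw [Dz_gr z h2, Nat.mul_div_cancel_left _ (by norm_num : 0 < 2), smul_smul, smul_smul,
        ← pow_add, ← pow_add]
      congr 2
      omega
    · rw [grZ_of_neg (by push_cast; omega), Submodule.mem_bot] at h2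
      rw [h2, map_zero, smul_zero, smul_zero, smul_zero]
  · rw [map_zero, map_zero, map_zero, map_zero, smul_zero, smul_zero]
  · intro x y hx hy
    rw [map_add, map_add, map_add, map_add, smul_add, smul_add, hx, hy]

lemma Dz_corr {c : W.H (Y.prod Z)} (hc : c ∈ PH W (Y.prod Z) 0) {z : W.K} (hz : z ≠ 0)
    {a : W.H Y} (ha : a ∈ PH W Y 0) :
    z ^ Y.dim • Dz Z z (W.corr c a) = W.corr (Dz (Y.prod Z) z c) (Dz Y z a) := by
  have hm : c * W.map (fst Y Z) a ∈ PH W (Y.prod Z) 0 := by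
    have := PH.mul hc (PH.map (fst Y Z) ha)
    rwa [zero_add] at this
  have h1 := Dz_push (snd Y Z) z hm
  rw [Dz_mul z hc (PH.map _ ha), Dz_map, dim_prod, pow_add, mul_comm, mul_smul] at h1
  have h2 : z ^ Z.dim ≠ 0 := pow_ne_zero _ hz
  rw [corr_apply, corr_apply]
  exact smul_right_injective _ h2 h1

lemma Dz_xp (z : W.K) {a : W.H Y} (ha : a ∈ PH W Y 0) {b : W.H Z} (hb : b ∈ PH W Z 0) :
    Dz (Y.prod Z) z (xp W a b) = xp W (Dz Y z a) (Dz Z z b) := by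
  rw [xp_def, xp_def, Dz_mul z (PH.map _ ha) (PH.map _ hb), Dz_map, Dz_map]

lemma Dz_inj {z : W.K} (hz : z ≠ 0) {a b : W.H Z} (h : Dz Z z a = Dz Z z b) : a = b := by
  have h1 := congrArg (Dz Z z⁻¹) h
  rwa [Dz_Dz, Dz_Dz, inv_mul_cancel₀ hz, Dz_one, Dz_one] at h1

lemma Dz_inv_left {z : W.K} (hz : z ≠ 0) (a : W.H Z) : Dz Z z⁻¹ (Dz Z z a) = a := by
  rw [Dz_Dz, inv_mul_cancel₀ hz, Dz_one]

lemma Dz_inv_right {z : W.K} (hz : z ≠ 0) (a : W.H Z) : Dz Z z (Dz Z z⁻¹ a) = a := by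
  rw [Dz_Dz, mul_inv_cancel₀ hz, Dz_one]

/-- Eigenvectors are homogeneous. -/
lemma mem_gr_of_Dz {a : W.H Z} (ha : a ∈ PH W Z 0) {m l : ℕ} (hm : m ≠ 0)
    (h : Dz Z ((2 : W.K) ^ m) a = (((2 : W.K) ^ m) ^ l) • a) : a ∈ W.gr Z (2 * l) := by
  have hN : ∀ i, 2 * Z.dim + 1 ≤ i → W.gr Z i = ⊥ := fun i hi => W.gr_eq_bot Z i (by omega)
  have h1 := LinearMap.congr_fun (sum_proj (W.isInternal Z) hN) a
  rw [LinearMap.sum_apply, Module.End.one_apply] at h1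
  rw [← h1]
  refine Submodule.sum_mem _ fun i _ => ?_
  by_cases hi : i = 2 * l
  · have := proj_mem (W.isInternal Z) i a
    rwa [hi] at this ⊢
  · have h2 : proj (W.isInternal Z) i a = 0 := by
      rcases Nat.even_or_odd i with ⟨j, hj⟩ | ⟨j, hj⟩
      · have h3 : IsHom (W.gr Z) 0 (Dz Z ((2 : W.K) ^ m) : Module.End W.K (W.H Z)) :=
          isHom_scal _ _
        have h4 := LinearMap.congr_fun (h3.proj_comm (W.isInternal Z) i) a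
        rw [Module.End.mul_apply, Module.End.mul_apply, h, map_smul,
          Dz_gr _ (proj_mem (W.isInternal Z) i a)] at h4
        have h5 : ((((2 : W.K) ^ m) ^ l) - ((2 : W.K) ^ m) ^ (i / 2)) •
            proj (W.isInternal Z) i a = 0 := by
          rw [sub_smul, h4, sub_self]
        refine (smul_eq_zero.1 h5).resolve_left fun h6 => ?_
        rw [sub_eq_zero, ← pow_mul, ← pow_mul] at h6
        have h7 : (2 : ℕ) ^ (m * l) = 2 ^ (m * (i / 2)) := by exact_mod_cast h6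
        have h8 := Nat.pow_right_injective (le_refl 2) h7
        have h9 := Nat.eq_of_mul_eq_mul_left (Nat.pos_of_ne_zero hm) h8
        omega
      · refine PH.ind (p := fun a => proj (W.isInternal Z) i a = 0) ?_ ?_ ?_ ha
        · intro l hl x hx
          exact proj_ne _ hx (by omega)
        · rw [map_zero]
        · intro x y hx hy
          rw [map_add, hx, hy, add_zero]
    rw [h2]
    exact Submodule.zero_mem _

/-! ### Relations -/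

variable {σ : W₁.K ≃+* W₂.K}

lemma Rel.dz {c : W₁.H Z} {c' : W₂.H Z} (h : Rel σ Z c c') (z : W₁.K) :
    Rel σ Z (Dz Z z c) (Dz Z (σ z) c') := by
  induction h with
  | zero => rw [map_zero, map_zero]; exact Rel.zero
  | add _ _ h1 h2 => rw [map_add, map_add]; exact Rel.add h1 h2
  | @cyc r j w hw =>
    rw [map_smul, map_smul, Dz_gr z (W₁.cl_mem hw), Dz_gr (σ z) (W₂.cl_mem hw), ← map_pow,
      smul_smul, smul_smul, ← map_mul]
    exact Rel.cyc _ hw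

/-- The product of an operator with itself. -/
noncomputable def dup (W : WeilCohomology.{u, v} ops) (Y : 𝒱.Obj) (c : W.H (Y.prod Y)) :
    W.H (Y.prod Y) →ₗ[W.K] W.H (Y.prod Y) :=
  compL W Y c ∘ₗ (W.map (swap Y Y)).toLinearMap ∘ₗ compL W Y c

lemma dup_xp {c : W.H (Y.prod Y)} (hc : c ∈ PH W (Y.prod Y) 0) {a : W.H Y}
    (ha : a ∈ PH W Y 0) : dup W Y c (xp W a a) = xp W (W.corr c a) (W.corr c a) := by
  change compL W Y c (W.map (swap Y Y) (compL W Y c (xp W a a))) = _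
  rw [compL_xp hc a ha, map_swap_xp ha, compL_xp hc _ ha]

lemma RelOp.dup {c : W₁.H (Y.prod Y)} {c' : W₂.H (Y.prod Y)} (h : Rel σ _ c c') :
    RelOp σ _ _ (dup W₁ Y c) (dup W₂ Y c') :=
  (RelOp.compL h).comp ((RelOp.map _).comp (RelOp.compL h))

variable {τ : W₁.H Y} {b : W₂.H Y}

/-- The corresponding images of `τ` and `b`. -/
def Img (σ : W₁.K ≃+* W₂.K) (Y Z : 𝒱.Obj) (τ : W₁.H Y) (b : W₂.H Y) (t : W₁.H Z)
    (t' : W₂.H Z) : Prop :=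
  ∃ x x', RelOp σ Y Z x x' ∧ x τ = t ∧ x' b = t'

lemma Img.op {t : W₁.H Z} {t' : W₂.H Z} (h : Img σ Y Z τ b t t') {Q : 𝒱.Obj}
    {f : W₁.H Z →ₗ[W₁.K] W₁.H Q} {f' : W₂.H Z →ₗ[W₂.K] W₂.H Q} (hf : RelOp σ Z Q f f') :
    Img σ Y Q τ b (f t) (f' t') := by
  obtain ⟨x, x', hx, rfl, rfl⟩ := h
  exact ⟨f ∘ₗ x, f' ∘ₗ x', hf.comp hx, rfl, rfl⟩

lemma Img.smul {t : W₁.H Z} {t' : W₂.H Z} (h : Img σ Y Z τ b t t') (r : W₁.K) :
    Img σ Y Z τ b (r • t) (σ r • t') := by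
  obtain ⟨x, x', hx, rfl, rfl⟩ := h
  exact ⟨r • x, σ r • x', hx.smul r, rfl, rfl⟩

lemma Img.self : Img σ Y Y τ b τ b := ⟨LinearMap.id, LinearMap.id, RelOp.id, rfl, rfl⟩

lemma IsTrans.unique (hb : IsTrans σ X Y τ b) (hZ : IsPw X Z) {t : W₁.H Z} {t' t'' : W₂.H Z}
    (h : Img σ Y Z τ b t t') (h' : Img σ Y Z τ b t t'') : t' = t'' := by
  obtain ⟨x, x', hx, rfl, rfl⟩ := h
  obtain ⟨y, y', hy, hyx, rfl⟩ := h'
  have h1 := hb.zero Z hZ _ _ (hx.sub hy) (by rw [LinearMap.sub_apply, hyx, sub_self])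
  rw [LinearMap.sub_apply] at h1
  exact sub_eq_zero.1 h1

lemma Img.even (hb : b ∈ PH W₂ Y 0) {t : W₁.H Z} {t' : W₂.H Z} (h : Img σ Y Z τ b t t') :
    t' ∈ PH W₂ Z 0 := by
  obtain ⟨x, x', hx, rfl, rfl⟩ := h
  exact Sys.Op.ev hx.mem_right _ _ hb

/-- The system `T` is stable under the operators `Dz` on the powers of `X`. -/
def Grd (T : Sys W) (X : 𝒱.Obj) : Prop :=
  ∀ Z, IsPw X Z → ∀ z : W.K, z ≠ 0 → ∀ t ∈ T.C Z, Dz Z z t ∈ T.C Z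

/-- The conjugate of the correspondence. -/
lemma Img.twist (hτ : τ ∈ PH W₁ Y 0) (hb : b ∈ PH W₂ Y 0) {z : W₁.K} (hz : z ≠ 0) {u : W₂.H Y}
    (hu : Img σ Y Y τ b (Dz Y z⁻¹ τ) u) {f : W₁.H Y →ₗ[W₁.K] W₁.H Z}
    {f' : W₂.H Y →ₗ[W₂.K] W₂.H Z} (hf : RelOp σ Y Z f f') :
    Img σ Y Z τ b (Dz Z z⁻¹ (f τ)) (Dz Z (σ z)⁻¹ (f' (Dz Y (σ z) u))) := by
  obtain ⟨c, c', hc, rfl, rfl⟩ := hf
  have hw : z⁻¹ ≠ 0 := inv_ne_zero hz
  have hσz : σ z ≠ 0 := (map_ne_zero σ).2 hz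
  have hσw : (σ z)⁻¹ ≠ 0 := inv_ne_zero hσz
  have hce : c ∈ PH W₁ _ 0 := (algSys W₁).even hc.mem_left
  have hce' : c' ∈ PH W₂ _ 0 := (algSys W₂).even hc.mem_right
  have hue : u ∈ PH W₂ Y 0 := hu.even hb
  have h1 := Dz_corr hce hw hτ
  have h2 := Dz_corr hce' hσw (Dz_even (σ z) hue)
  rw [Dz_inv_left hσz] at h2
  have h3 : Img σ Y Z τ b (W₁.corr (Dz (Y.prod Z) z⁻¹ c) (Dz Y z⁻¹ τ))
      (W₂.corr (Dz (Y.prod Z) (σ z)⁻¹ c') u) := by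
    refine hu.op ⟨_, _, ?_, rfl, rfl⟩
    have := hc.dz z⁻¹
    rwa [map_inv₀] at this
  rw [← h1, ← h2] at h3
  have h4 := h3.smul (z ^ Y.dim)
  rw [smul_smul, smul_smul, map_pow, ← mul_pow, ← mul_pow, mul_inv_cancel₀ hz,
    mul_inv_cancel₀ hσz, one_pow, one_pow, one_smul, one_smul] at h4
  exact h4

/-- **The transport preserves the degrees.** -/
theorem IsTrans.deg (hb : IsTrans σ X Y τ b) {T : Sys W₁} {e : Module.End W₁.K (W₁.H Y)}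
    (hT : ∀ Z, algSpan W₁ Z ≤ T.C Z) (hg : Grd T X) (hu : IsUniv T X Y e τ) (hZ : IsPw X Z)
    {t : W₁.H Z} {t' : W₂.H Z} (h : Img σ Y Z τ b t t') {l : ℕ} (ht : t ∈ W₁.gr Z (2 * l)) :
    t' ∈ W₂.gr Z (2 * l) := by
  have hY := hu.pw
  have hτ : τ ∈ PH W₁ Y 0 := T.even hu.mem
  obtain ⟨Δ, Δ', hΔ, hΔτ, hΔb⟩ := hb.comult
  -- the twisted classes
  have hex : ∀ i : ℕ, ∃ u : W₂.H Y, Img σ Y Y τ b (Dz Y ((2 : W₁.K) ^ i)⁻¹ τ) u := by
    intro i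
    obtain ⟨x, hx, hxτ⟩ := hu.surj Y hY _ (hg Y hY ((2 : W₁.K) ^ i)⁻¹
      (inv_ne_zero (pow_ne_zero _ two_ne_zero)) τ hu.mem)
    obtain ⟨x', hx'⟩ := RelOp.exists_right σ hx
    exact ⟨x' b, x, x', hx', hxτ, rfl⟩
  choose u hu' using hex
  have hz : ∀ i : ℕ, (2 : W₁.K) ^ i ≠ 0 := fun i => pow_ne_zero _ two_ne_zero
  have hσz : ∀ i : ℕ, σ ((2 : W₁.K) ^ i) ≠ 0 := fun i => (map_ne_zero σ).2 (hz i)
  have hue : ∀ i, u i ∈ PH W₂ Y 0 := fun i => (hu' i).even hb.even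
  set B : ℕ → W₂.H Y := fun i => Dz Y (σ ((2 : W₁.K) ^ i)) (u i) with hB
  have htw : ∀ (i : ℕ) {Q : 𝒱.Obj} {f : W₁.H Y →ₗ[W₁.K] W₁.H Q}
      {f' : W₂.H Y →ₗ[W₂.K] W₂.H Q}, RelOp σ Y Q f f' →
      Img σ Y Q τ b (Dz Q ((2 : W₁.K) ^ i)⁻¹ (f τ)) (Dz Q (σ ((2 : W₁.K) ^ i))⁻¹ (f' (B i))) :=
    fun i {Q f f'} hf => Img.twist hτ hb.even (hz i) (hu' i) hf
  have hBmem : ∀ i, B i ∈ {b : W₂.H Y | b ∈ PH W₂ Y 0 ∧ b ≠ 0 ∧ Δ' b = xp W₂ b b} := by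
    intro i
    refine ⟨Dz_even _ (hue i), fun h0 => hb.ne ?_, ?_⟩
    · obtain ⟨f, hf, hfτ⟩ := hu.surj Y hY _ (hg Y hY ((2 : W₁.K) ^ i) (hz i) τ hu.mem)
      obtain ⟨f', hf'⟩ := RelOp.exists_right σ hf
      have h1 := htw i hf'
      rw [hfτ, Dz_inv_left (hz i), h0, map_zero, map_zero] at h1
      exact hb.unique hY Img.self h1
    · have h1 := htw i hΔ
      obtain ⟨x, x', ⟨d, d', hd, rfl, rfl⟩, hxτ, hxb⟩ := hu' i
      have hde : d ∈ PH W₁ _ 0 := (algSys W₁).even hd.mem_left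
      have hde' : d' ∈ PH W₂ _ 0 := (algSys W₂).even hd.mem_right
      have h2 : Img σ Y (Y.prod Y) τ b (xp W₁ (W₁.corr d τ) (W₁.corr d τ))
          (xp W₂ (W₂.corr d' b) (W₂.corr d' b)) := by
        rw [← dup_xp hde hτ, ← dup_xp hde' hb.even, ← hΔτ, ← hΔb]
        exact Img.op ⟨Δ, Δ', hΔ, rfl, rfl⟩ (RelOp.dup hd)
      rw [hΔτ, Dz_xp _ hτ hτ, ← hxτ] at h1
      have h3 := hb.unique (hY.prod hY) h1 h2
      rw [hxb] at h3
      have h4 := congrArg (Dz (Y.prod Y) (σ ((2 : W₁.K) ^ i))) h3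
      rw [Dz_inv_right (hσz i), Dz_xp _ (hue i) (hue i)] at h4
      exact h4
  -- two of them agree
  obtain ⟨i, j, hij, hBij⟩ : ∃ i j, i < j ∧ B i = B j := by
    have hfin : Finite {b : W₂.H Y | b ∈ PH W₂ Y 0 ∧ b ≠ 0 ∧ Δ' b = xp W₂ b b} :=
      (grouplike_finite Δ').to_subtype
    obtain ⟨i, j, hne, h1⟩ := Finite.exists_ne_map_eq_of_infinite
      (fun i : ℕ => (⟨B i, hBmem i⟩ : {b : W₂.H Y | b ∈ PH W₂ Y 0 ∧ b ≠ 0 ∧ Δ' b = xp W₂ b b}))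
    have h2 : B i = B j := congrArg Subtype.val h1
    rcases Nat.lt_or_gt_of_ne hne with h3 | h3
    · exact ⟨i, j, h3, h2⟩
    · exact ⟨j, i, h3, h2.symm⟩
  -- the class `t`
  have htC : t ∈ T.C Z := by
    obtain ⟨x, x', hx, rfl, -⟩ := h
    exact Sys.Op.apply hT hx.mem_left hu.mem
  obtain ⟨f, hf, hfτ⟩ := hu.surj Z hZ _ (hg Z hZ ((2 : W₁.K) ^ i) (hz i) t htC)
  obtain ⟨f', hf'⟩ := RelOp.exists_right σ hf
  have h1 := htw i hf'
  have h2 := htw j hf'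
  rw [hfτ, Dz_inv_left (hz i)] at h1
  obtain ⟨m, hm0, hm⟩ : ∃ m, m ≠ 0 ∧ j = i + m := ⟨j - i, by omega, by omega⟩
  have e1 : Dz Z ((2 : W₁.K) ^ j)⁻¹ (f τ) = (((2 : W₁.K) ^ m)⁻¹) ^ l • t := by
    have e2 : ((2 : W₁.K) ^ j)⁻¹ = ((2 : W₁.K) ^ m)⁻¹ * ((2 : W₁.K) ^ i)⁻¹ := by
      rw [hm, pow_add, mul_inv, mul_comm]
    rw [hfτ, e2, ← Dz_Dz, Dz_inv_left (hz i), Dz_gr _ ht,
      Nat.mul_div_cancel_left _ (by norm_num : 0 < 2)]
  have e3 : Dz Z (σ ((2 : W₁.K) ^ j))⁻¹ (f' (B j)) =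
      Dz Z (σ ((2 : W₁.K) ^ m))⁻¹ (Dz Z (σ ((2 : W₁.K) ^ i))⁻¹ (f' (B i))) := by
    have e2 : (σ ((2 : W₁.K) ^ j))⁻¹ =
        (σ ((2 : W₁.K) ^ m))⁻¹ * (σ ((2 : W₁.K) ^ i))⁻¹ := by
      rw [hm, pow_add, map_mul, mul_inv, mul_comm]
    rw [e2, ← Dz_Dz, hBij]
  have h3 : t' = Dz Z (σ ((2 : W₁.K) ^ i))⁻¹ (f' (B i)) := hb.unique hZ h h1
  rw [e1, e3, ← h3] at h2
  have h4 := hb.unique hZ (h.smul ((((2 : W₁.K) ^ m)⁻¹) ^ l)) h2
  have h5 := congrArg (Dz Z (σ ((2 : W₁.K) ^ m))) h4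
  rw [Dz_inv_right (hσz m), map_smul] at h5
  have h6 : σ ((2 : W₁.K) ^ m) = (2 : W₂.K) ^ m := by rw [map_pow, map_ofNat]
  rw [map_pow, map_inv₀, h6] at h5
  apply mem_gr_of_Dz (h.even hb.even) hm0
  have h7 := congrArg (fun x => (((2 : W₂.K) ^ m) ^ l) • x) h5
  simp only [smul_smul] at h7
  rw [← mul_pow, mul_inv_cancel₀ (pow_ne_zero _ two_ne_zero), one_pow, one_smul] at h7
  exact h7

end Pool.Agent.V7H5.TI
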