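import Pool.Agent.V7H5.TI.Tra

/-!
# The comparison of dimensions
-/

open CategoryTheory AlgebraicGeometry

universe u v

namespace Pool.Agent.V7H5.TI

open Module
open Pool.Agent.H914 Pool.Agent.H914.VarClass Pool.Agent.H914.VarClass.Obj
  Pool.Agent.H914.WeilCohomology Pool.Agent.H281R3.HT
open Pool.Agent.Y133.Half hiding pw
open Pool.Agent.Y129 (pw)

variable {k : Type u} [Field k] {𝒱 : VarClass k} {ops : CycleOps 𝒱}
  {W W₁ W₂ : WeilCohomology.{u, v} ops} {X Y Z Q : 𝒱.Obj}

/-- All group-like classes on the powers of `X`, for algebraic comultiplications, belong to the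
system `T`. -/
def Conn (T : Sys W) (X : 𝒱.Obj) : Prop :=
  ∀ Y, IsPw X Y → ∀ Δ ∈ (algSys W).Op Y (Y.prod Y), ∀ b ∈ PH W Y 0, b ≠ 0 →
    Δ b = xp W b b → b ∈ T.C Y

/-- The intersection form is nondegenerate on the classes of the system `T` on powers of `X`. -/
def NonD (T : Sys W) (X : 𝒱.Obj) : Prop :=
  ∀ Z, IsPw X Z → ∀ t ∈ T.C Z, (∀ s ∈ T.C Z, W.tr Z (s * t) = 0) → t = 0

lemma IsTrans.mem {σ : W₁.K ≃+* W₂.K} {τ : W₁.H Y} {b : W₂.H Y} (hb : IsTrans σ X Y τ b)
    {T₂ : Sys W₂} (hconn : Conn T₂ X) (hY : IsPw X Y) : b ∈ T₂.C Y := by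
  obtain ⟨Δ, Δ', hΔ, _, h⟩ := hb.comult
  exact hconn Y hY Δ' hΔ.mem_right b hb.even hb.ne h

/-- The comparison of dimensions. -/
theorem finrank_le_aux {σ : W₁.K ≃+* W₂.K} {τ : W₁.H Y} {b : W₂.H Y} (hb : IsTrans σ X Y τ b)
    {T₁ : Sys W₁} (hT₁ : NonD T₁ X) {e : Module.End W₁.K (W₁.H Y)} (hu : IsUniv T₁ X Y e τ)
    (hZ : IsPw X Z) {P : Submodule W₁.K (W₁.H Z)} (hP : P ≤ T₁.C Z)
    {Q : Submodule W₂.K (W₂.H Z)}
    (hQ : ∀ x x', RelOp σ Y Z x x' → x τ ∈ P → x' b ∈ Q) : finrank W₁.K P ≤ finrank W₂.K Q := by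
  set B := Module.finBasis W₁.K P with hB
  choose x hx hxτ using fun i => hu.surj Z hZ (B i : W₁.H Z) (hP (B i).2)
  choose x' hx' using fun i => RelOp.exists_right σ (hx i)
  have hmem : ∀ i, x' i b ∈ Q := fun i => hQ _ _ (hx' i) (by rw [hxτ]; exact (B i).2)
  have hli : LinearIndependent W₂.K (fun i => (⟨x' i b, hmem i⟩ : Q)) := by
    rw [Fintype.linearIndependent_iff]
    intro κ hκ i
    have hκ' : ∑ i, κ i • x' i b = 0 := by
      have h3 := congrArg Subtype.val hκ
      rw [Submodule.coe_zero, AddSubmonoidClass.coe_finsetSum] at h3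
      exact h3
    -- the operator in the first theory
    have hsum : ∀ s : Finset (Fin (finrank W₁.K P)),
        RelOp σ Y Z (∑ i ∈ s, σ.symm (κ i) • x i) (∑ i ∈ s, κ i • x' i) := by
      intro s
      induction s using Finset.induction_on with
      | empty => rw [Finset.sum_empty, Finset.sum_empty]; exact RelOp.zero
      | insert a s ha ih =>
        rw [Finset.sum_insert ha, Finset.sum_insert ha]
        have h3 := (hx' a).smul (σ.symm (κ a))
        rw [RingEquiv.apply_symm_apply] at h3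
        exact h3.add ih
    set f := ∑ i, σ.symm (κ i) • x i with hf
    set f' := ∑ i, κ i • x' i with hf'
    have hff : RelOp σ Y Z f f' := hsum Finset.univ
    have hf'b : f' b = 0 := by
      rw [hf', LinearMap.sum_apply]
      exact hκ'
    have hfτ : f τ = 0 := by
      apply hT₁ Z hZ (f τ)
      · rw [hf, LinearMap.sum_apply]
        refine Submodule.sum_mem _ fun i _ => ?_
        rw [LinearMap.smul_apply, hxτ]
        exact Submodule.smul_mem _ _ (hP (B i).2)
      · intro s hs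
        obtain ⟨y, hy, rfl⟩ := hu.surj Z hZ s hs
        obtain ⟨y', hy'⟩ := RelOp.exists_right σ hy
        obtain ⟨g, g', hgg, hadj, hadj'⟩ := hy'.exists_adj
        have h3 := hb.iso _ _ (hgg.comp hff)
        rw [LinearMap.comp_apply, LinearMap.comp_apply, ← hadj, ← hadj', hf'b, mul_zero,
          map_zero] at h3
        have h4 : σ (W₁.tr Z (y τ * f τ)) = σ 0 := by rw [← h3, map_zero]
        exact σ.injective h4
    have h5 : ∑ i, σ.symm (κ i) • B i = 0 := by
      apply Subtype.ext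
      rw [Submodule.coe_zero, AddSubmonoidClass.coe_finsetSum, ← hfτ, hf, LinearMap.sum_apply]
      refine Finset.sum_congr rfl fun i _ => ?_
      rw [LinearMap.smul_apply, hxτ]
      rfl
    have h6 := Fintype.linearIndependent_iff.1 B.linearIndependent _ h5 i
    have h7 := congrArg σ h6
    rwa [RingEquiv.apply_symm_apply, map_zero] at h7
  have h3 := hli.fintype_card_le_finrank
  rwa [Fintype.card_fin] at h3

end Pool.Agent.V7H5.TI
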