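import Pool.Agent.V7H5.TI.Gen

/-!
# Systems of classes on the powers of a variety
-/

open CategoryTheory AlgebraicGeometry Filter Topology

open scoped ENNReal

universe u v

namespace Pool.Agent.V7H5.TI

open Module
open Pool.Agent.H914 Pool.Agent.H914.VarClass Pool.Agent.H914.VarClass.Obj
  Pool.Agent.H914.WeilCohomology Pool.Agent.H281R3.HT
open Pool.Agent.Y133.Half hiding pw
open Pool.Agent.Y129 (pw CC StableSystem)

variable {k : Type u} [Field k] {𝒱 : VarClass k} {ops : CycleOps 𝒱}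
  {W : WeilCohomology.{u, v} ops} {X Y Z Q A B : 𝒱.Obj}

lemma corr_CC {c : W.H (Y.prod Z)} (hc : c ∈ algSpan W (Y.prod Z)) : W.corr c ∈ CC W Y Z := by
  induction hc using Submodule.span_induction with
  | mem x hx =>
    obtain ⟨j, z, hz, rfl⟩ := Set.mem_iUnion.1 hx
    exact Pool.Agent.Y129.KOp.le_CC ((j : ℤ) - Y.dim) (KOp.gen (by omega) hz)
  | zero => rw [W.corr_zero]; exact Submodule.zero_mem _
  | add x y _ _ h1 h2 =>
    rw [W.corr_add]
    exact Submodule.add_mem _ h1 h2
  | smul r x _ h1 =>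
    rw [W.corr_smul]
    exact Submodule.smul_mem _ _ h1

lemma op_le_CC {f : W.H Y →ₗ[W.K] W.H Z} (hf : f ∈ (algSys W).Op Y Z) : f ∈ CC W Y Z := by
  obtain ⟨c, hc, rfl⟩ := Sys.mem_Op.1 hf
  exact corr_CC hc

/-- The properties of the systems of classes on the powers of `X`. -/
structure PowSys (W : WeilCohomology.{u, v} ops) (X : 𝒱.Obj)
    (G : ∀ n, Submodule W.K (W.H (pw X n))) : Prop where
  stable : StableSystem W X G
  alg : ∀ n, algSpan W (pw X n) ≤ G n
  even : ∀ n, G n ≤ PH W (pw X n) 0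
  mul : ∀ n, ∀ a ∈ G n, ∀ b ∈ G n, a * b ∈ G n

variable {G : ∀ n, Submodule W.K (W.H (pw X n))}

/-- The images of the classes of the system under algebraic operators. -/
def genSet (G : ∀ n, Submodule W.K (W.H (pw X n))) (Z : 𝒱.Obj) : Set (W.H Z) :=
  {x | ∃ n, ∃ f ∈ (algSys W).Op (pw X n) Z, ∃ a ∈ G n, f a = x}

lemma genSet.op {f : W.H Y →ₗ[W.K] W.H Z} (hf : f ∈ (algSys W).Op Y Z) {x : W.H Y}
    (hx : x ∈ genSet G Y) : f x ∈ genSet G Z := by
  obtain ⟨n, g, hg, a, ha, rfl⟩ := hx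
  exact ⟨n, f ∘ₗ g, Sys.Op.comp hf hg, a, ha, rfl⟩

/-- The product of two operators. -/
lemma mul_eq {c : W.H (A.prod Z)} (hc : c ∈ algSpan W _) {d : W.H (B.prod Z)}
    (hd : d ∈ algSpan W _) : ∃ F ∈ (algSys W).Op (A.prod B) Z, ∀ a ∈ PH W A 0, ∀ b ∈ PH W B 0,
      F (xp W a b) = W.corr c a * W.corr d b := by
  have hce := (algSys W).even hc
  have hde := (algSys W).even hd
  refine ⟨(W.map (diag Z)).toLinearMap ∘ₗ compL W Z c ∘ₗ (W.map (swap Z A)).toLinearMap ∘ₗ
    compL W A d, Sys.Op.comp (op_map _) (Sys.Op.comp (op_compL hc) (Sys.Op.comp (op_map _)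
      (op_compL hd))), fun a ha b hb => ?_⟩
  change W.map (diag Z) (compL W Z c (W.map (swap Z A) (compL W A d (xp W a b)))) = _
  rw [compL_xp hde a hb, map_swap_xp ha, compL_xp hce _ ha, map_diag_xp,
    PH.even_comm (Ev.corr hde _ _ hb)]

lemma xp_mem_pow (hG : PowSys W X G) {m n : ℕ} {a : W.H (pw X m)} (ha : a ∈ G m)
    {b : W.H (pw X n)} (hb : b ∈ G n) (θ : (pw X m).prod (pw X n) ≅ pw X (m + n + 1)) :
    W.map θ.inv (xp W a b) ∈ G (m + n + 1) := by
  rw [xp_def, map_mul, ← W.map_comp, ← W.map_comp]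
  exact hG.mul _ _ (hG.stable _ _ _ (Pool.Agent.Y129.map_CC _) _ ha) _
    (hG.stable _ _ _ (Pool.Agent.Y129.map_CC _) _ hb)

lemma genSet.mul (hG : PowSys W X G) {x y : W.H Z} (hx : x ∈ genSet G Z)
    (hy : y ∈ genSet G Z) : x * y ∈ genSet G Z := by
  obtain ⟨m, f, hf, a, ha, rfl⟩ := hx
  obtain ⟨n, g, hg, b, hb, rfl⟩ := hy
  obtain ⟨c, hc, rfl⟩ := Sys.mem_Op.1 hf
  obtain ⟨d, hd, rfl⟩ := Sys.mem_Op.1 hg
  obtain ⟨F, hF, h⟩ := mul_eq hc hd
  obtain ⟨θ⟩ := Pool.Agent.Y129.pw_iso X m n (m + n + 1) rfl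
  refine ⟨m + n + 1, F ∘ₗ (W.map θ.hom).toLinearMap, Sys.Op.comp hF (op_map _),
    W.map θ.inv (xp W a b), xp_mem_pow hG ha hb θ, ?_⟩
  change F (W.map θ.hom (W.map θ.inv (xp W a b))) = _
  rw [← W.map_comp, θ.hom_inv_id, W.map_id]
  exact h a (hG.even _ ha) b (hG.even _ hb)

lemma genSet.even (hG : PowSys W X G) {x : W.H Z} (hx : x ∈ genSet G Z) : x ∈ PH W Z 0 := by
  obtain ⟨m, f, hf, a, ha, rfl⟩ := hx
  exact Sys.Op.ev hf _ _ (hG.even _ ha)

/-- The extension of a system on the powers of `X` to all varieties. -/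
noncomputable def extSys (hG : PowSys W X G) : Sys W where
  C Z := algSpan W Z ⊔ Submodule.span W.K (genSet G Z)
  even {Z c} hc := by
    refine (show algSpan W Z ⊔ Submodule.span W.K (genSet G Z) ≤ PH W Z 0 from
      sup_le (fun c hc => (algSys W).even hc) (Submodule.span_le.2 fun c hc => ?_)) hc
    exact genSet.even hG hc
  one Z := Submodule.mem_sup_left ((algSys W).one Z)
  mul {Z c d} hc hd := by
    -- products of generators
    have h1 : ∀ x ∈ algSpan W Z, ∀ y ∈ Submodule.span W.K (genSet G Z),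
        x * y ∈ Submodule.span W.K (genSet G Z) := by
      intro x hx y hy
      induction hy using Submodule.span_induction with
      | mem y hy => exact Submodule.subset_span (genSet.op (op_mulL hx) hy)
      | zero => rw [mul_zero]; exact Submodule.zero_mem _
      | add y z _ _ h1 h2 => rw [mul_add]; exact Submodule.add_mem _ h1 h2
      | smul r y _ h1 => rw [mul_smul_comm]; exact Submodule.smul_mem _ _ h1
    have h2 : ∀ x ∈ Submodule.span W.K (genSet G Z), ∀ y ∈ Submodule.span W.K (genSet G Z),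
        x * y ∈ Submodule.span W.K (genSet G Z) := by
      intro x hx y hy
      induction hx using Submodule.span_induction with
      | mem x hx =>
        induction hy using Submodule.span_induction with
        | mem y hy => exact Submodule.subset_span (genSet.mul hG hx hy)
        | zero => rw [mul_zero]; exact Submodule.zero_mem _
        | add y z _ _ h1 h2 => rw [mul_add]; exact Submodule.add_mem _ h1 h2
        | smul r y _ h1 => rw [mul_smul_comm]; exact Submodule.smul_mem _ _ h1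
      | zero => rw [zero_mul]; exact Submodule.zero_mem _
      | add y z _ _ h1 h2 => rw [add_mul]; exact Submodule.add_mem _ h1 h2
      | smul r y _ h1 => rw [smul_mul_assoc]; exact Submodule.smul_mem _ _ h1
    obtain ⟨c₁, hc₁, c₂, hc₂, rfl⟩ := Submodule.mem_sup.1 hc
    obtain ⟨d₁, hd₁, d₂, hd₂, rfl⟩ := Submodule.mem_sup.1 hd
    have e1 : (c₁ + c₂) * (d₁ + d₂) = c₁ * d₁ + (c₁ * d₂ + d₁ * c₂ + c₂ * d₂) := by
      rw [add_mul, mul_add, mul_add, PH.even_comm ((algSys W).even hd₁) c₂]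
      abel
    rw [e1]
    exact Submodule.add_mem _ (Submodule.mem_sup_left ((algSys W).mul hc₁ hd₁))
      (Submodule.mem_sup_right (Submodule.add_mem _ (Submodule.add_mem _ (h1 _ hc₁ _ hd₂)
        (h1 _ hd₁ _ hc₂)) (h2 _ hc₂ _ hd₂)))
  map {Y Z} f c hc := by
    obtain ⟨c₁, hc₁, c₂, hc₂, rfl⟩ := Submodule.mem_sup.1 hc
    rw [map_add]
    refine Submodule.add_mem _ (Submodule.mem_sup_left ((algSys W).map f hc₁))
      (Submodule.mem_sup_right ?_)
    induction hc₂ using Submodule.span_induction with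
    | mem y hy => exact Submodule.subset_span (genSet.op (op_map f) hy)
    | zero => rw [map_zero]; exact Submodule.zero_mem _
    | add y z _ _ h1 h2 =>
      rw [map_add]
      exact Submodule.add_mem _ (h1 (Submodule.add_mem _ (Submodule.mem_sup_left hc₁)
        (Submodule.mem_sup_right ‹_›))) (h2 (Submodule.add_mem _ (Submodule.mem_sup_left hc₁)
        (Submodule.mem_sup_right ‹_›)))
    | smul r y _ h1 =>
      rw [map_smul]
      exact Submodule.smul_mem _ _ (h1 (Submodule.add_mem _ (Submodule.mem_sup_left hc₁)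
        (Submodule.mem_sup_right ‹_›)))
  push {Y Z} f c hc := by
    obtain ⟨c₁, hc₁, c₂, hc₂, rfl⟩ := Submodule.mem_sup.1 hc
    rw [map_add]
    refine Submodule.add_mem _ (Submodule.mem_sup_left ((algSys W).push f hc₁))
      (Submodule.mem_sup_right ?_)
    clear hc
    induction hc₂ using Submodule.span_induction with
    | mem y hy => exact Submodule.subset_span (genSet.op (op_push f) hy)
    | zero => rw [map_zero]; exact Submodule.zero_mem _
    | add y z _ _ h1 h2 =>
      rw [map_add]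
      exact Submodule.add_mem _ h1 h2
    | smul r y _ h1 =>
      rw [map_smul]
      exact Submodule.smul_mem _ _ h1

lemma extSys_alg (hG : PowSys W X G) (Z : 𝒱.Obj) : algSpan W Z ≤ (extSys hG).C Z :=
  le_sup_left

lemma extSys_pw (hG : PowSys W X G) (n : ℕ) : (extSys hG).C (pw X n) = G n := by
  apply le_antisymm
  · refine sup_le (hG.alg n) (Submodule.span_le.2 ?_)
    rintro _ ⟨m, f, hf, a, ha, rfl⟩
    exact hG.stable _ _ _ (op_le_CC hf) _ ha
  · intro a ha
    exact Submodule.mem_sup_right (Submodule.subset_span ⟨n, LinearMap.id, Sys.Op.id, a, ha, rfl⟩)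

/-- Systems of finite index are nondegenerate. -/
theorem nonD_of_index {T : Sys W} (hT : ∀ Z, algSpan W Z ≤ T.C Z) [Nontrivial (W.H X)]
    (hW : ∀ n, HomEqNum W (pw X n)) {N : ℕ}
    (hN : Tendsto (fun n => (finrank W.K (T.C (pw X n)) : ℝ≥0∞) / cycRank ops (pw X n)) atTop
      (𝓝 (N : ℝ≥0∞))) : NonD T X := by
  have hW' : ∀ n, HomEqNum W (Pool.Agent.Y133.Half.pw X n) := fun n =>
    (homEqNum_iso (pwIso129 X n)).1 (hW n)
  have e1 : ∀ n, finrank W.K (T.C (pw X n)) =
      finrank W.K (T.C (Pool.Agent.Y133.Half.pw X n)) := fun n => T.finrank_C_iso (pwIso129 X n)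
  have e2 : ∀ n, cycRank ops (pw X n) = cycRank ops (Pool.Agent.Y133.Half.pw X n) := fun n =>
    cycRank_iso W (pwIso129 X n)
  have hpos : ∀ n, 0 < cycRank ops (Pool.Agent.Y133.Half.pw X n) := by
    intro n
    have h3 : Nontrivial (W.H (Pool.Agent.Y133.Half.pw X n)) := by
      apply Module.nontrivial_of_finrank_pos (R := W.K)
      rw [finrank_pw]
      exact pow_pos Module.finrank_pos _
    rw [(homEqNum_iff' (W := W) _).1 (hW' n), Module.finrank_pos_iff]
    exact ⟨⟨⟨1, (algSys W).one _⟩, 0, fun h => one_ne_zero (congrArg Subtype.val h)⟩⟩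
  -- the rank of the form
  have ha : ∀ n, cycRank ops (Pool.Agent.Y133.Half.pw X n) ≤
      T.a (Pool.Agent.Y133.Half.pw X n) := by
    intro n
    have h1 := T.a_add_num (Pool.Agent.Y133.Half.pw X n)
    have h2 : Disjoint (algSpan W (Pool.Agent.Y133.Half.pw X n))
        (T.Num (Pool.Agent.Y133.Half.pw X n)) := by
      rw [disjoint_iff, eq_bot_iff]
      rintro x ⟨hx1, hx2⟩
      rw [Submodule.mem_bot]
      refine eq_zero_of_orth (hW' n) hx1 fun d hd => ?_
      rw [← PH.even_comm (T.even hx2.1)]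
      exact hx2.2 d (hT _ hd)
    have h3 := Submodule.finrank_add_le_finrank_add_finrank (algSpan W
      (Pool.Agent.Y133.Half.pw X n)) (T.Num (Pool.Agent.Y133.Half.pw X n))
    have h4 := Submodule.finrank_sup_add_finrank_inf_eq (algSpan W
      (Pool.Agent.Y133.Half.pw X n)) (T.Num (Pool.Agent.Y133.Half.pw X n))
    rw [h2.eq_bot, finrank_bot, add_zero] at h4
    have h5 : finrank W.K (algSpan W (Pool.Agent.Y133.Half.pw X n) ⊔
        T.Num (Pool.Agent.Y133.Half.pw X n) : Submodule W.K _) ≤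
        finrank W.K (T.C (Pool.Agent.Y133.Half.pw X n)) :=
      Submodule.finrank_mono (sup_le (hT _) (fun x hx => hx.1))
    rw [(homEqNum_iff' (W := W) _).1 (hW' n)]
    omega
  rcases T.num_or T (fun _ => le_rfl) X with h | h
  · rintro Z ⟨n, ⟨θ⟩⟩ t ht hs
    let θ' : Z ≅ Pool.Agent.Y133.Half.pw X n := θ ≪≫ pwIso129 X n
    have h1 : t ∈ T.Num Z := ⟨ht, fun d hd => by
      rw [PH.even_comm (T.even ht)]; exact hs d hd⟩
    have h2 : W.map θ'.inv t ∈ T.Num (Pool.Agent.Y133.Half.pw X n) := Sys.Num.map _ h1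
    rw [h n, Submodule.mem_bot] at h2
    rw [← W.map_id Z t, ← θ'.hom_inv_id, W.map_comp, h2, map_zero]
  · exfalso
    obtain ⟨n₀, hn₀⟩ := h (N + 1)
    have h1 : ((N + 1 : ℕ) : ℝ≥0∞) ≤ (N : ℝ≥0∞) := by
      refine ge_of_tendsto hN (Filter.eventually_atTop.2 ⟨n₀, fun n hn => ?_⟩)
      rw [e1, e2, ENNReal.le_div_iff_mul_le (Or.inl (by exact_mod_cast (hpos n).ne'))
        (Or.inl (ENNReal.natCast_ne_top _))]
      have h2 := hn₀ n hn
      have h3 : (N + 1) * cycRank ops (Pool.Agent.Y133.Half.pw X n) ≤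
          finrank W.K (T.C (Pool.Agent.Y133.Half.pw X n)) :=
        (Nat.mul_le_mul_left _ (ha n)).trans h2
      exact_mod_cast h3
    have h2 : N + 1 ≤ N := by exact_mod_cast h1
    omega

end Pool.Agent.V7H5.TI
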