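import Pool.Agent.V7H5.TI.Deg
import Pool.Agent.V7H5.TI.Base

/-!
# The independence of the index and of the dimensions
-/

open CategoryTheory AlgebraicGeometry TensorProduct Filter Topology

open scoped ENNReal

universe u v w

namespace Pool.Agent.V7H5.TI

open Module
open Pool.Agent.H914 Pool.Agent.H914.VarClass Pool.Agent.H914.VarClass.Obj
  Pool.Agent.H914.WeilCohomology Pool.Agent.H281R3.HT Pool.Agent.TH125.Gal
open Pool.Agent.Y133.Half hiding pw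
open Pool.Agent.Y129 (pw TG PowerAction tateClasses tateDim)

/-- Two fields of characteristic zero have a common algebraically closed extension. -/
lemma exists_common_field (K₁ K₂ : Type v) [Field K₁] [Field K₂] [CharZero K₁] [CharZero K₂] :
    ∃ (L : Type v) (_ : Field L) (_ : IsAlgClosed L), Nonempty (Algebra K₁ L) ∧
      Nonempty (Algebra K₂ L) := by
  have h1 : Nontrivial (K₁ ⊗[ℚ] K₂) :=
    Algebra.TensorProduct.nontrivial_of_algebraMap_injective_of_flat_left ℚ K₁ K₂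
      (algebraMap ℚ K₂).injective
  obtain ⟨M, hM⟩ := Ideal.exists_maximal (K₁ ⊗[ℚ] K₂)
  let F : Field ((K₁ ⊗[ℚ] K₂) ⧸ M) := Ideal.Quotient.field M
  let f₁ : K₁ →+* AlgebraicClosure ((K₁ ⊗[ℚ] K₂) ⧸ M) :=
    (algebraMap ((K₁ ⊗[ℚ] K₂) ⧸ M) _).comp ((Ideal.Quotient.mk M).comp
      (Algebra.TensorProduct.includeLeft (R := ℚ) (S := ℚ) (A := K₁) (B := K₂)).toRingHom)
  let f₂ : K₂ →+* AlgebraicClosure ((K₁ ⊗[ℚ] K₂) ⧸ M) :=
    (algebraMap ((K₁ ⊗[ℚ] K₂) ⧸ M) _).comp ((Ideal.Quotient.mk M).comp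
      (Algebra.TensorProduct.includeRight (R := ℚ) (A := K₁) (B := K₂)).toRingHom)
  exact ⟨AlgebraicClosure ((K₁ ⊗[ℚ] K₂) ⧸ M), inferInstance, inferInstance, ⟨f₁.toAlgebra⟩,
    ⟨f₂.toAlgebra⟩⟩

variable {k : Type u} [Field k] {𝒱 : VarClass k} {ops : CycleOps 𝒱}
  {W W₁ W₂ : WeilCohomology.{u, v} ops} {X Y Z : 𝒱.Obj}

/-- One inequality between the dimensions, over a common coefficient field. -/
theorem finrank_le_of_index (σ : W₁.K ≃+* W₂.K) [IsAlgClosed W₂.K] [Nontrivial (W₁.H X)]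
    {T₁ : Sys W₁} {T₂ : Sys W₂} (hT₁ : ∀ Z, algSpan W₁ Z ≤ T₁.C Z)
    (hT₂ : ∀ Z, algSpan W₂ Z ≤ T₂.C Z) (hg : Grd T₁ X) (hconn : Conn T₂ X)
    (h2 : ∀ n, HomEqNum W₂ (pw X n)) {N : ℕ}
    (hN : Tendsto (fun n => (finrank W₁.K (T₁.C (pw X n)) : ℝ≥0∞) / cycRank ops (pw X n)) atTop
      (𝓝 (N : ℝ≥0∞))) (hZ : IsPw X Z) (l : ℕ) :
    finrank W₁.K (T₁.C Z ⊓ W₁.gr Z (2 * l) : Submodule W₁.K _) ≤
      finrank W₂.K (T₂.C Z ⊓ W₂.gr Z (2 * l) : Submodule W₂.K _) := by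
  obtain ⟨N', -, h3, -, -, h5⟩ := T₁.full_index hT₁ X
  have h4 : ((N' : ℕ∞) : ℝ≥0∞) = (N : ℝ≥0∞) := tendsto_nhds_unique h3 hN
  have h6 : N' ≠ ⊤ := by
    rintro rfl
    rw [ENat.toENNReal_top] at h4
    exact ENNReal.natCast_ne_top _ h4.symm
  obtain ⟨h1, h7⟩ := h5 h6
  obtain ⟨r, c, -, hc, hgen⟩ := h7 (fun n => (T₁.C (pw X n) : Set (W₁.H (pw X n))))
    (fun n => (Submodule.span_eq _).symm)
  obtain ⟨Y, hY, τ, hτ, hs⟩ := exists_cyclic hT₁ h1 r c hc hgen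
  obtain ⟨e, hu⟩ := exists_univ h1 hY hτ hs
  have hnd : NonD T₁ X := nonD_of_index hT₁ h1 hN
  obtain ⟨z, hz, -, hz1⟩ := exists_point (W := W₁) (Z := X) (h1 0)
  obtain ⟨b, hb⟩ := exists_transport σ h1 h2 hu hz hz1
  have hbT : b ∈ T₂.C Y := hb.mem hconn hY
  refine finrank_le_aux hb hnd hu hZ inf_le_left fun x x' hx hxP => ⟨?_, ?_⟩
  · exact Sys.Op.apply hT₂ hx.mem_right hbT
  · exact hb.deg hT₁ hg hu hZ ⟨x, x', hx, rfl, rfl⟩ hxP.2

section Act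

variable {Γ : Type w} [Group Γ] {χ : Γ →* W.Kˣ}
  {ρ : ∀ n, Γ →* (W.H (pw X n) ≃ₐ[W.K] W.H (pw X n))}

/-- The spaces of Tate classes are graded. -/
lemma grd_TG (h : PowerAction W X χ ρ) : Grd (extSys (powSys_TG h)) X := by
  rintro Z ⟨n, ⟨θ⟩⟩ z hz t ht
  have h1 : W.map θ.inv t ∈ (extSys (powSys_TG h)).C (pw X n) :=
    (extSys (powSys_TG h)).map θ.inv ht
  rw [extSys_pw] at h1
  have h2 : Dz (pw X n) z (W.map θ.inv t) ∈ TG W X χ ρ n := by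
    refine Submodule.iSup_induction (fun j => tateClasses χ (W.gr (pw X n)) (ρ n) j)
      (motive := fun a => Dz (pw X n) z a ∈ TG W X χ ρ n) h1 ?_ ?_ ?_
    · intro j a ha
      rw [Dz_gr z ha.1]
      exact Submodule.smul_mem _ _ (Submodule.mem_iSup_of_mem j ha)
    · rw [map_zero]; exact Submodule.zero_mem _
    · intro x y hx hy
      rw [map_add]; exact Submodule.add_mem _ hx hy
  rw [← extSys_pw (powSys_TG h) n, Dz_map] at h2
  have h3 := (extSys (powSys_TG h)).map θ.hom h2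
  rwa [← W.map_comp, θ.hom_inv_id, W.map_id] at h3

lemma TG_inf (n j : ℕ) : TG W X χ ρ n ⊓ W.gr (pw X n) (2 * j) =
    tateClasses χ (W.gr (pw X n)) (ρ n) j := by
  apply le_antisymm
  · rintro c ⟨h1, h2⟩
    exact Pool.Agent.Y129.mem_of_mem_iSup (Pool.Agent.Y129.indep_even W (pw X n))
      (Pool.Agent.Y129.tateClasses_le n) h2 h1
  · intro c hc
    exact ⟨Submodule.mem_iSup_of_mem j hc, hc.1⟩

end Act

lemma nontrivial_base [Nontrivial (W.H X)] (L : Type v) [Field L] [Algebra W.K L] :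
    Nontrivial ((baseW W L).H X) := by
  obtain ⟨a, ha⟩ := exists_ne (0 : W.H X)
  have h1 : (1 : L) ⊗ₜ[W.K] a ≠ 0 := fun h => ha (tmul_injective a h)
  exact ⟨⟨(1 : L) ⊗ₜ[W.K] a, 0, h1⟩⟩

section Two

variable {Γ₁ : Type w} [Group Γ₁] {χ₁ : Γ₁ →* W₁.Kˣ}
  {ρ₁ : ∀ n, Γ₁ →* (W₁.H (pw X n) ≃ₐ[W₁.K] W₁.H (pw X n))}
  {Γ₂ : Type w} [Group Γ₂] {χ₂ : Γ₂ →* W₂.Kˣ}
  {ρ₂ : ∀ n, Γ₂ →* (W₂.H (pw X n) ≃ₐ[W₂.K] W₂.H (pw X n))}

/-- One inequality between the dimensions of the spaces of Tate classes. -/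
theorem tate_le [Nontrivial (W₁.H X)] [Nontrivial (W₂.H X)] (hΓ₁ : PowerAction W₁ X χ₁ ρ₁)
    (hΓ₂ : PowerAction W₂ X χ₂ ρ₂) {N₁ : ℕ}
    (hN₁ : Tendsto (fun n => (tateDim W₁ X χ₁ ρ₁ n : ℝ≥0∞) /
      Pool.Agent.Y129.cycRank ops (pw X n)) atTop (𝓝 (N₁ : ℝ≥0∞)))
    (h2 : ∀ n, HomEqNum W₂ (pw X n)) (n j : ℕ) :
    finrank W₁.K (tateClasses χ₁ (W₁.gr (pw X n)) (ρ₁ n) j) ≤
      finrank W₂.K (tateClasses χ₂ (W₂.gr (pw X n)) (ρ₂ n) j) := by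
  obtain ⟨L, hL, hLc, ⟨hL₁⟩, ⟨hL₂⟩⟩ := exists_common_field W₁.K W₂.K
  have hnt₁ : Nontrivial ((baseW W₁ L).H X) := nontrivial_base L
  have hc : IsAlgClosed (baseW W₂ L).K := hLc
  let σ : (baseW W₁ L).K ≃+* (baseW W₂ L).K := RingEquiv.refl L
  have hB₁ := powerAction_base L hΓ₁
  have hB₂ := powerAction_base L hΓ₂
  have key := finrank_le_of_index (X := X) (Z := pw X n) σ
    (extSys_alg (powSys_TG hB₁)) (extSys_alg (powSys_TG hB₂)) (grd_TG hB₁) (conn_TG hB₂)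
    (fun n => Pool.Agent.Y129.homEqNum_base' L (h2 n)) (N := N₁) ?_ (IsPw.of X n) j
  · rw [extSys_pw, extSys_pw, TG_inf, TG_inf] at key
    have e1 : finrank L (tateClasses (chiBase L χ₁)
        (fun i => (W₁.gr (pw X n) i).baseChange L) (actBase L (ρ₁ n)) j) =
        finrank W₁.K (tateClasses χ₁ (W₁.gr (pw X n)) (ρ₁ n) j) := by
      rw [tateClasses_base, Pool.Agent.Y129.finrank_baseChange]
    have e2 : finrank L (tateClasses (chiBase L χ₂)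
        (fun i => (W₂.gr (pw X n) i).baseChange L) (actBase L (ρ₂ n)) j) =
        finrank W₂.K (tateClasses χ₂ (W₂.gr (pw X n)) (ρ₂ n) j) := by
      rw [tateClasses_base, Pool.Agent.Y129.finrank_baseChange]
    rw [← e1, ← e2]
    exact key
  · have e1 : ∀ n, finrank (baseW W₁ L).K ((extSys (powSys_TG hB₁)).C (pw X n)) =
        tateDim W₁ X χ₁ ρ₁ n := by
      intro n
      rw [extSys_pw, Pool.Agent.Y129.finrank_TG, tateDim_base]
    simp only [e1]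
    exact hN₁

end Two

end Pool.Agent.V7H5.TI
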