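import Pool.Agent.V7H5.TI.Ext

/-!
# The twisted action on even classes, and group-like classes
-/

open CategoryTheory AlgebraicGeometry

universe u v w

namespace Pool.Agent.V7H5.TI

open Module
open Pool.Agent.H914 Pool.Agent.H914.VarClass Pool.Agent.H914.VarClass.Obj
  Pool.Agent.H914.WeilCohomology Pool.Agent.H281R3.HT Pool.Agent.TH125.Gal
open Pool.Agent.Y133.Half hiding pw
open Pool.Agent.Y129 (pw TG PowerAction tateClasses)

variable {k : Type u} [Field k] {𝒱 : VarClass k} {ops : CycleOps 𝒱}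
  {W : WeilCohomology.{u, v} ops} {X Y Z : 𝒱.Obj} {Γ : Type w} [Group Γ] {χ : Γ →* W.Kˣ}

/-- The twisted action, which is `χ g ^ (-j) • R g` in degree `2 * j`. -/
noncomputable def tw (χ : Γ →* W.Kˣ) (R : Γ →* (W.H Z ≃ₐ[W.K] W.H Z)) (g : Γ) :
    W.H Z →ₗ[W.K] W.H Z :=
  scal (W.isInternal Z) (fun i => ((χ g : W.K)⁻¹) ^ (i / 2)) ∘ₗ
    ((R g : W.H Z ≃ₐ[W.K] W.H Z) : W.H Z →ₐ[W.K] W.H Z).toLinearMap

section tw

variable {R : Γ →* (W.H Z ≃ₐ[W.K] W.H Z)} (hR : ∀ g i, ∀ a ∈ W.gr Z i, R g a ∈ W.gr Z i)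

include hR

lemma tw_gr (g : Γ) {i : ℕ} {a : W.H Z} (ha : a ∈ W.gr Z i) :
    tw χ R g a = ((χ g : W.K)⁻¹) ^ (i / 2) • R g a :=
  scal_apply (W.isInternal Z) _ (hR g i a ha)

lemma tw_mem (g : Γ) {i : ℕ} {a : W.H Z} (ha : a ∈ W.gr Z i) : tw χ R g a ∈ W.gr Z i := by
  rw [tw_gr hR g ha]
  exact Submodule.smul_mem _ _ (hR g i a ha)

lemma tw_even (g : Γ) {a : W.H Z} (ha : a ∈ PH W Z 0) : tw χ R g a ∈ PH W Z 0 := by
  refine PH.ind (p := fun a => tw χ R g a ∈ PH W Z 0) ?_ ?_ ?_ ha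
  · intro i hi x hx
    exact PH.of' hi (tw_mem hR g hx)
  · rw [map_zero]; exact Submodule.zero_mem _
  · intro x y hx hy
    rw [map_add]; exact Submodule.add_mem _ hx hy

lemma tw_mul_act (g h : Γ) (a : W.H Z) : tw χ R (g * h) a = tw χ R g (tw χ R h a) := by
  refine gr_induction (W.isInternal Z) (p := fun a => tw χ R (g * h) a =
    tw χ R g (tw χ R h a)) ?_ ?_ a
  · intro i a ha
    rw [tw_gr hR _ ha, tw_gr hR h ha, map_smul, tw_gr hR g (hR h i a ha), smul_smul, map_mul,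
      map_mul, Units.val_mul, mul_inv, mul_pow, mul_comm]
    rfl
  · intro a b ha hb
    rw [map_add, ha, hb, map_add, map_add]

lemma tw_one_act (a : W.H Z) : tw χ R 1 a = a := by
  refine gr_induction (W.isInternal Z) (p := fun a => tw χ R 1 a = a) ?_ ?_ a
  · intro i a ha
    rw [tw_gr hR _ ha, map_one, map_one, Units.val_one, inv_one, one_pow, one_smul]
    rfl
  · intro a b ha hb
    rw [map_add, ha, hb]

lemma tw_mul (g : Γ) {a b : W.H Z} (ha : a ∈ PH W Z 0) (hb : b ∈ PH W Z 0) :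
    tw χ R g (a * b) = tw χ R g a * tw χ R g b := by
  refine PH.ind (p := fun a => tw χ R g (a * b) = tw χ R g a * tw χ R g b) ?_ ?_ ?_ ha
  · intro i hi x hx
    refine PH.ind (p := fun b => tw χ R g (x * b) = tw χ R g x * tw χ R g b) ?_ ?_ ?_ hb
    · intro j hj y hy
      rw [tw_gr hR g (W.mul_mem hx hy), tw_gr hR g hx, tw_gr hR g hy, map_mul,
        smul_mul_smul_comm, ← pow_add]
      congr 2
      omega
    · rw [mul_zero, map_zero, mul_zero]
    · intro y z hy hz
      rw [mul_add, map_add, map_add, mul_add, hy, hz]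
  · rw [zero_mul, map_zero, zero_mul]
  · intro y z hy hz
    rw [add_mul, map_add, map_add, add_mul, hy, hz]

/-- Classes fixed by the twisted action of a subgroup of finite index. -/
lemma mem_of_fixed {c : W.H Z} (hc : c ∈ PH W Z 0) {Δ : Subgroup Γ} (hΔ : Δ.FiniteIndex)
    (h : ∀ g ∈ Δ, tw χ R g c = c) : c ∈ ⨆ j, tateClasses χ (W.gr Z) R j := by
  have hN : ∀ i, 2 * Z.dim + 1 ≤ i → W.gr Z i = ⊥ := fun i hi => W.gr_eq_bot Z i (by omega)
  have h1 := LinearMap.congr_fun (sum_proj (W.isInternal Z) hN) c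
  rw [LinearMap.sum_apply, Module.End.one_apply] at h1
  rw [← h1]
  refine Submodule.sum_mem _ fun i _ => ?_
  rcases Nat.even_or_odd i with ⟨j, hj⟩ | ⟨j, hj⟩
  · refine Submodule.mem_iSup_of_mem j ⟨?_, Δ, hΔ, fun g hg => ?_⟩
    · have := proj_mem (W.isInternal Z) i c
      rwa [show i = 2 * j by omega] at this ⊢
    · have h2 : IsHom (W.gr Z) 0 (tw χ R g : Module.End W.K (W.H Z)) := by
        intro i a ha
        rw [add_zero]
        by_cases hi : 0 ≤ i
        · lift i to ℕ using hi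
          rw [grZ_natCast] at ha ⊢
          exact tw_mem hR g ha
        · rw [grZ_of_neg (by omega)] at ha ⊢
          rw [Submodule.mem_bot] at ha ⊢
          rw [ha, map_zero]
      have h3 := LinearMap.congr_fun (h2.proj_comm (W.isInternal Z) i) c
      rw [Module.End.mul_apply, Module.End.mul_apply, h g hg,
        tw_gr hR g (proj_mem (W.isInternal Z) i c), show i / 2 = j by omega] at h3
      have h4 : ((χ g : W.K)) ^ j ≠ 0 := pow_ne_zero _ (Units.ne_zero _)
      have h5 := congrArg (fun x => ((χ g : W.K) ^ j) • x) h3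
      simp only [smul_smul] at h5
      rw [inv_pow, mul_inv_cancel₀ h4, one_smul] at h5
      exact h5.symm
  · have h2 : proj (W.isInternal Z) i c = 0 := by
      refine PH.ind (p := fun c => proj (W.isInternal Z) i c = 0) ?_ ?_ ?_ hc
      · intro l hl x hx
        exact proj_ne _ hx (by omega)
      · rw [map_zero]
      · intro x y hx hy
        rw [map_add, hx, hy, add_zero]
    rw [h2]
    exact Submodule.zero_mem _

omit hR in
/-- The classes with a finite-index stabilizer form a subspace. -/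
lemma fixed_of_span {S : Set (W.H Z)} (hS : ∀ c ∈ S, ∃ Δ : Subgroup Γ, Δ.FiniteIndex ∧
    ∀ g ∈ Δ, tw χ R g c = c) {c : W.H Z} (hc : c ∈ Submodule.span W.K S) :
    ∃ Δ : Subgroup Γ, Δ.FiniteIndex ∧ ∀ g ∈ Δ, tw χ R g c = c := by
  induction hc using Submodule.span_induction with
  | mem x hx => exact hS x hx
  | zero => exact ⟨⊤, inferInstance, fun g _ => map_zero _⟩
  | add x y _ _ hx hy =>
    obtain ⟨Δ, hΔ, h1⟩ := hx
    obtain ⟨Δ', hΔ', h2⟩ := hy
    refine ⟨Δ ⊓ Δ', inferInstance, fun g hg => ?_⟩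
    rw [map_add, h1 g hg.1, h2 g hg.2]
  | smul r x _ hx =>
    obtain ⟨Δ, hΔ, h1⟩ := hx
    refine ⟨Δ, hΔ, fun g hg => ?_⟩
    rw [map_smul, h1 g hg]

end tw

variable {ρ : ∀ n, Γ →* (W.H (pw X n) ≃ₐ[W.K] W.H (pw X n))}

lemma tw_map (h : PowerAction W X χ ρ) {m n : ℕ} {p : pw X n ⟶ pw X m}
    (hp : Intertwines (W.map p) (ρ m) (ρ n)) (g : Γ) (a : W.H (pw X m)) :
    tw χ (ρ n) g (W.map p a) = W.map p (tw χ (ρ m) g a) := by
  refine gr_induction (W.isInternal (pw X m)) (p := fun a => tw χ (ρ n) g (W.map p a) =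
    W.map p (tw χ (ρ m) g a)) ?_ ?_ a
  · intro i a ha
    rw [tw_gr (h.galois n).gr_mem g (W.map_mem p ha), tw_gr (h.galois m).gr_mem g ha, map_smul,
      hp]
  · intro a b ha hb
    rw [map_add, map_add, map_add, map_add, ha, hb]

lemma tw_push (h : PowerAction W X χ ρ) {m n : ℕ} {p : pw X n ⟶ pw X m}
    (hp : Intertwines (W.map p) (ρ m) (ρ n)) (g : Γ) {a : W.H (pw X n)}
    (ha : a ∈ PH W (pw X n) 0) :
    tw χ (ρ m) g (W.push p a) = W.push p (tw χ (ρ n) g a) := by
  refine PH.ind (p := fun a => tw χ (ρ m) g (W.push p a) = W.push p (tw χ (ρ n) g a)) ?_ ?_ ?_ ha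
  · intro i hi a ha
    obtain ⟨j, rfl⟩ : ∃ j, i = 2 * j := ⟨i / 2, by omega⟩
    have hχ : (χ g : W.K) ≠ 0 := Units.ne_zero _
    have h2 := W.push_mem p ha
    have h3 := W.push_mem p ((h.galois n).gr_mem g _ a ha)
    have h4 := Pool.Agent.Y129.push_act (h.galois n) (h.galois m) hp g a
    by_cases hd : (pw X n).dim ≤ j + (pw X m).dim
    · have e1 : ((2 * j : ℕ) : ℤ) + 2 * (((pw X m).dim : ℤ) - (pw X n).dim) =
          ((2 * (j + (pw X m).dim - (pw X n).dim) : ℕ) : ℤ) := by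
        push_cast [Nat.cast_sub hd]
        ring
      rw [e1, grZ_natCast] at h2
      rw [tw_gr (h.galois m).gr_mem g h2, tw_gr (h.galois n).gr_mem g ha, map_smul,
        Nat.mul_div_cancel_left _ (by norm_num : 0 < 2),
        Nat.mul_div_cancel_left _ (by norm_num : 0 < 2)]
      have h5 := congrArg (fun x => (((χ g : W.K)⁻¹) ^ (j + (pw X m).dim)) • x) h4
      simp only [smul_smul] at h5
      have e2 : ((χ g : W.K)⁻¹) ^ (j + (pw X m).dim) * (χ g : W.K) ^ (pw X n).dim =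
          ((χ g : W.K)⁻¹) ^ (j + (pw X m).dim - (pw X n).dim) := by
        have e3 : j + (pw X m).dim = (j + (pw X m).dim - (pw X n).dim) + (pw X n).dim := by omega
        conv_lhs => rw [e3, pow_add]
        rw [mul_assoc, ← mul_pow, inv_mul_cancel₀ hχ, one_pow, mul_one]
      have e4 : ((χ g : W.K)⁻¹) ^ (j + (pw X m).dim) * (χ g : W.K) ^ (pw X m).dim =
          ((χ g : W.K)⁻¹) ^ j := by
        rw [pow_add, mul_assoc, ← mul_pow, inv_mul_cancel₀ hχ, one_pow, mul_one]
      rw [e2, e4] at h5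
      exact h5
    · rw [grZ_of_neg (by push_cast; omega), Submodule.mem_bot] at h2 h3
      rw [h2, map_zero, tw_gr (h.galois n).gr_mem g ha, map_smul, h3, smul_zero]
  · rw [map_zero, map_zero, map_zero, map_zero]
  · intro x y hx hy
    rw [map_add, map_add, map_add, map_add, hx, hy]

/-- Algebraic classes are fixed by a subgroup of finite index. -/
lemma tw_alg (h : PowerAction W X χ ρ) {n : ℕ} {c : W.H (pw X n)}
    (hc : c ∈ algSpan W (pw X n)) :
    ∃ Δ : Subgroup Γ, Δ.FiniteIndex ∧ ∀ g ∈ Δ, tw χ (ρ n) g c = c := by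
  refine fixed_of_span (fun c hc => ?_) hc
  obtain ⟨j, hj⟩ := Set.mem_iUnion.1 hc
  obtain ⟨Δ, hΔ, h1⟩ := (h.galois n).cl_fix j c hj
  refine ⟨Δ, hΔ, fun g hg => ?_⟩
  obtain ⟨z, hz, rfl⟩ := hj
  rw [tw_gr (h.galois n).gr_mem g (W.cl_mem hz), h1 g hg, smul_smul,
    Nat.mul_div_cancel_left _ (by norm_num : 0 < 2), ← mul_pow,
    inv_mul_cancel₀ (Units.ne_zero _), one_pow, one_smul]

/-- Algebraic operators commute with a subgroup of finite index. -/
lemma tw_op (h : PowerAction W X χ ρ) {m n : ℕ} {f : W.H (pw X m) →ₗ[W.K] W.H (pw X n)}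
    (hf : f ∈ (algSys W).Op (pw X m) (pw X n)) :
    ∃ Δ : Subgroup Γ, Δ.FiniteIndex ∧ ∀ g ∈ Δ, ∀ a ∈ PH W (pw X m) 0,
      tw χ (ρ n) g (f a) = f (tw χ (ρ m) g a) := by
  obtain ⟨c, hc, rfl⟩ := Sys.mem_Op.1 hf
  obtain ⟨e, p, q, ⟨s, hs⟩, ⟨t, ht⟩, hp, hq⟩ := Pool.Agent.Y129.exists_glue X m n
  have hpe := h.equiv p s hs
  have hqe := h.equiv q t ht
  have key : ∀ a, W.corr c a = W.push q (W.push e c * W.map p a) := by
    intro a
    rw [corr_apply, ← hp, ← hq, W.map_comp, W.push_comp, W.push_mul]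
  have hce : W.push e c ∈ algSpan W _ := (algSys W).push e hc
  have hc0 : W.push e c ∈ PH W (pw X (m + n + 1)) 0 := (algSys W).even hce
  obtain ⟨Δ, hΔ, hfix⟩ := tw_alg h hce
  refine ⟨Δ, hΔ, fun g hg a ha => ?_⟩
  have ha' : W.map p a ∈ PH W (pw X (m + n + 1)) 0 := PH.map p ha
  have hm : W.push e c * W.map p a ∈ PH W (pw X (m + n + 1)) 0 := by
    have := PH.mul hc0 ha'
    rwa [zero_add] at this
  have h1 := tw_push h hqe g hm
  have h2 := tw_mul (χ := χ) (h.galois (m + n + 1)).gr_mem g hc0 ha'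
  have h3 := tw_map h hpe g a
  have h4 := hfix g hg
  have h5 := key a
  have h6 := key (tw χ (ρ m) g a)
  calc tw χ (ρ n) g (W.corr c a) = tw χ (ρ n) g (W.push q (W.push e c * W.map p a)) := by
        rw [h5]
    _ = W.push q (tw χ (ρ (m + n + 1)) g (W.push e c * W.map p a)) := h1
    _ = W.push q (W.push e c * W.map p (tw χ (ρ m) g a)) := by rw [h2, h4, h3]
    _ = W.corr c (tw χ (ρ m) g a) := h6.symm

/-- A point of a set with an action whose orbit under a subgroup of finite index is finite. -/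
lemma finiteIndex_of_orbit {M : Type*} (a : Γ → M → M) (h1 : ∀ x, a 1 x = x)
    (hm : ∀ g h x, a (g * h) x = a g (a h x)) {Δ : Subgroup Γ} (hΔ : Δ.FiniteIndex) {x : M}
    {S : Set M} (hS : S.Finite) (hx : ∀ g ∈ Δ, a g x ∈ S) :
    ∃ Δ' : Subgroup Γ, Δ'.FiniteIndex ∧ ∀ g ∈ Δ', a g x = x := by
  let act : MulAction Δ M :=
    { smul := fun g x => a g x
      one_smul := h1
      mul_smul := fun g h x => hm g h x }
  have h2 : (MulAction.orbit Δ x).Finite := by
    refine hS.subset ?_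
    rintro _ ⟨g, rfl⟩
    exact hx g g.2
  have h3 : (MulAction.stabilizer Δ x).index ≠ 0 := by
    rw [MulAction.index_stabilizer]
    have h4 : (MulAction.orbit Δ x).Nonempty := MulAction.nonempty_orbit x
    exact ((Set.ncard_pos h2).2 h4).ne'
  refine ⟨(MulAction.stabilizer Δ x).map Δ.subtype, ⟨?_⟩, ?_⟩
  · rw [Subgroup.index_map_subtype]
    exact mul_ne_zero h3 hΔ.index_ne_zero
  · rintro _ ⟨g, hg, rfl⟩
    exact hg

/-- **Group-like classes on the powers are Tate classes.** -/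
theorem grouplike_TG (h : PowerAction W X χ ρ) {m : ℕ}
    {Δ : W.H (pw X m) →ₗ[W.K] W.H ((pw X m).prod (pw X m))}
    (hΔ : Δ ∈ (algSys W).Op (pw X m) ((pw X m).prod (pw X m))) {b : W.H (pw X m)}
    (hb : b ∈ PH W (pw X m) 0) (hb0 : b ≠ 0) (hΔb : Δ b = xp W b b) : b ∈ TG W X χ ρ m := by
  obtain ⟨e, p, q, ⟨s, hs⟩, ⟨t, ht⟩, hp, hq⟩ := Pool.Agent.Y129.exists_glue X m m
  have hpe := h.equiv p s hs
  have hqe := h.equiv q t ht
  have hel : e ≫ lift p q = 𝟙 _ := by
    apply prod_hom_ext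
    · rw [Category.assoc, lift_fst, hp, Category.id_comp]
    · rw [Category.assoc, lift_snd, hq, Category.id_comp]
  have hl : ∀ x y : W.H (pw X m), W.map (lift p q) (xp W x y) = W.map p x * W.map q y := by
    intro x y
    rw [xp_def, map_mul, ← W.map_comp, ← W.map_comp, lift_fst, lift_snd]
  have hf : (W.map (lift p q)).toLinearMap ∘ₗ Δ ∈ (algSys W).Op (pw X m) (pw X (m + m + 1)) :=
    Sys.Op.comp (op_map _) hΔ
  obtain ⟨Γ₀, hΓ₀, hcomm⟩ := tw_op h hf
  obtain ⟨Γ₁, hΓ₁, hfix⟩ := finiteIndex_of_orbit (fun g x => tw χ (ρ m) g x)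
    (tw_one_act (h.galois m).gr_mem) (fun g g' x => tw_mul_act (h.galois m).gr_mem g g' x) hΓ₀
    (x := b) (grouplike_finite Δ) (fun g hg => by
      refine ⟨tw_even (h.galois m).gr_mem g hb, fun h0 => hb0 ?_, ?_⟩
      · have h1 := congrArg (tw χ (ρ m) g⁻¹) h0
        rw [← tw_mul_act (h.galois m).gr_mem, inv_mul_cancel, tw_one_act (h.galois m).gr_mem,
          map_zero] at h1
        exact h1
      · have h1 := hcomm g hg b hb
        change tw χ (ρ (m + m + 1)) g (W.map (lift p q) (Δ b)) =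
          W.map (lift p q) (Δ (tw χ (ρ m) g b)) at h1
        rw [hΔb, hl, tw_mul (h.galois _).gr_mem g (PH.map _ hb) (PH.map _ hb),
          tw_map h hpe, tw_map h hqe, ← hl] at h1
        have h2 := congrArg (W.map e) h1
        rw [← W.map_comp, ← W.map_comp, hel, W.map_id, W.map_id] at h2
        exact h2.symm)
  exact mem_of_fixed (h.galois m).gr_mem hb hΓ₁ hfix

/-- The Tate classes form a system. -/
theorem powSys_TG (h : PowerAction W X χ ρ) : PowSys W X (TG W X χ ρ) where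
  stable := h.stable
  alg := h.algSpan_le
  even n := by
    refine iSup_le fun j => (Pool.Agent.Y129.tateClasses_le n j).trans ?_
    intro x hx
    exact PH.of' (by omega) hx
  mul n a ha b hb := by
    refine Submodule.iSup_induction (fun j => tateClasses χ (W.gr (pw X n)) (ρ n) j)
      (motive := fun a => a * b ∈ TG W X χ ρ n) ha ?_ ?_ ?_
    · intro i a ha
      refine Submodule.iSup_induction (fun j => tateClasses χ (W.gr (pw X n)) (ρ n) j)
        (motive := fun b => a * b ∈ TG W X χ ρ n) hb ?_ ?_ ?_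
      · intro j b hb
        exact Submodule.mem_iSup_of_mem (i + j) (Pool.Agent.Y129.tate_mul ha hb)
      · rw [mul_zero]; exact Submodule.zero_mem _
      · intro x y hx hy
        rw [mul_add]; exact Submodule.add_mem _ hx hy
    · rw [zero_mul]; exact Submodule.zero_mem _
    · intro x y hx hy
      rw [add_mul]; exact Submodule.add_mem _ hx hy

/-- Group-like classes belong to the system of Tate classes. -/
theorem conn_TG (h : PowerAction W X χ ρ) : Conn (extSys (powSys_TG h)) X := by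
  rintro Y ⟨m, ⟨θ⟩⟩ Δ hΔ b hb hb0 hΔb
  -- the transport to the power
  let θθ : (pw X m).prod (pw X m) ⟶ Y.prod Y := lift (fst _ _ ≫ θ.inv) (snd _ _ ≫ θ.inv)
  have hxp : ∀ x y : W.H Y, W.map θθ (xp W x y) = xp W (W.map θ.inv x) (W.map θ.inv y) := by
    intro x y
    rw [xp_def, xp_def, map_mul, ← W.map_comp, ← W.map_comp, ← W.map_comp, ← W.map_comp,
      lift_fst, lift_snd]
  have hback : W.map θ.hom (W.map θ.inv b) = b := by
    rw [← W.map_comp, θ.hom_inv_id, W.map_id]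
  have hΔ' : (W.map θθ).toLinearMap ∘ₗ Δ ∘ₗ (W.map θ.hom).toLinearMap ∈
      (algSys W).Op (pw X m) ((pw X m).prod (pw X m)) :=
    Sys.Op.comp (op_map _) (Sys.Op.comp hΔ (op_map _))
  have h1 : W.map θ.inv b ∈ TG W X χ ρ m := by
    refine grouplike_TG h hΔ' (PH.map _ hb) (fun h0 => hb0 ?_) ?_
    · rw [← hback, h0, map_zero]
    · change W.map θθ (Δ (W.map θ.hom (W.map θ.inv b))) = _
      rw [hback, hΔb, hxp]
  rw [← extSys_pw (powSys_TG h) m] at h1
  have h2 := (extSys (powSys_TG h)).map θ.hom h1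
  rwa [hback] at h2

end Pool.Agent.V7H5.TI
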