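import Pool.Agent.V7H5.TI.Dim

/-!
# A single generator
-/

open CategoryTheory AlgebraicGeometry

universe u v

namespace Pool.Agent.V7H5.TI

open Module
open Pool.Agent.H914 Pool.Agent.H914.VarClass Pool.Agent.H914.VarClass.Obj
  Pool.Agent.H914.WeilCohomology Pool.Agent.H281R3.HT
open Pool.Agent.Y133.Half hiding pw
open Pool.Agent.Y129 (pw)

variable {k : Type u} [Field k] {𝒱 : VarClass k} {ops : CycleOps 𝒱}
  {W : WeilCohomology.{u, v} ops} {X Y Z Q A B : 𝒱.Obj}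

lemma IsPw.nontrivial [Nontrivial (W.H X)] (hZ : IsPw X Z) : Nontrivial (W.H Z) := by
  obtain ⟨n, ⟨θ⟩⟩ := hZ
  have h1 := Pool.Agent.Y129.nontrivial_pw (W := W) (X := X) n
  exact (map_inj_of_iso θ).nontrivial

/-- A homogeneous algebraic class of trace one. -/
lemma exists_point [Nontrivial (W.H Z)] (h : HomEqNum W Z) :
    ∃ z ∈ algSpan W Z, z ∈ W.gr Z (2 * Z.dim) ∧ W.tr Z z = 1 := by
  by_cases hall : ∀ j (w : Z.Cycles), Z.IsCyc j w → W.tr Z (W.cl Z w) = 0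
  · exfalso
    have h1 : ∀ d ∈ algSpan W Z, W.tr Z d = 0 := by
      intro d hd
      induction hd using Submodule.span_induction with
      | mem x hx =>
        obtain ⟨j, w, hw, rfl⟩ := Set.mem_iUnion.1 hx
        exact hall j w hw
      | zero => exact map_zero _
      | add x y _ _ hx hy => rw [map_add, hx, hy, add_zero]
      | smul r x _ hx => rw [map_smul, hx, smul_zero]
    have h2 : (1 : W.H Z) = 0 := eq_zero_of_orth h ((algSys W).one Z) fun d hd => by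
      rw [mul_one]; exact h1 d hd
    exact one_ne_zero h2
  · push Not at hall
    obtain ⟨j, w, hw, h1⟩ := hall
    have hj : j = Z.dim := by
      by_contra hj
      exact h1 (W.tr_eq_zero (W.cl_mem hw) (by omega))
    subst hj
    refine ⟨(W.tr Z (W.cl Z w))⁻¹ • W.cl Z w, Submodule.smul_mem _ _ (Submodule.subset_span
      (Set.mem_iUnion.2 ⟨Z.dim, w, hw, rfl⟩)), Submodule.smul_mem _ _ (W.cl_mem hw), ?_⟩
    rw [map_smul, smul_eq_mul, inv_mul_cancel₀ h1]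

lemma push_fst_even (a : W.H X) {b : W.H Y} (hb : b ∈ PH W Y 0) :
    W.push (fst X Y) (xp W a b) = W.tr Y b • a := by
  apply W.tr_ext
  intro c
  rw [W.tr_push, xp, mul_assoc, PH.even_comm (PH.map _ hb), ← mul_assoc, ← map_mul, W.tr_prod,
    smul_mul_assoc, map_smul, smul_eq_mul, mul_comm]

lemma xp_alg {a : W.H X} (ha : a ∈ algSpan W X) {b : W.H Y} (hb : b ∈ algSpan W Y) :
    xp W a b ∈ algSpan W (X.prod Y) :=
  (algSys W).mul ((algSys W).map _ ha) ((algSys W).map _ hb)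

lemma xp_one (X Y : 𝒱.Obj) : xp W (1 : W.H X) (1 : W.H Y) = 1 := by
  rw [xp, map_one, map_one, one_mul]

lemma fst_mul_xp (q a : W.H X) (b : W.H Y) : W.map (fst X Y) q * xp W a b = xp W (q * a) b := by
  rw [xp_def, xp_def, ← mul_assoc, ← map_mul]

lemma snd_mul_xp {q : W.H Y} (hq : q ∈ PH W Y 0) (a : W.H X) (b : W.H Y) :
    W.map (snd X Y) q * xp W a b = xp W a (q * b) := by
  rw [xp_def, xp_def, ← mul_assoc, PH.even_comm (PH.map _ hq), mul_assoc, ← map_mul]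

lemma push_snd_xp (a : W.H X) (b : W.H Y) : W.push (snd X Y) (xp W a b) = W.tr X a • b :=
  W.push_snd a b

lemma xp_zero_right (a : W.H X) : xp W a (0 : W.H Y) = 0 := by
  rw [xp_def, map_zero, mul_zero]

/-- The operator `h ↦ pr_1_* (h * pr_2^* p)`. -/
noncomputable def exL (W : WeilCohomology.{u, v} ops) {A B : 𝒱.Obj} (p : W.H B) :
    W.H (A.prod B) →ₗ[W.K] W.H A :=
  W.push (fst A B) ∘ₗ LinearMap.mulLeft W.K (W.map (snd A B) p)

lemma op_exL {p : W.H B} (hp : p ∈ algSpan W B) :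
    exL W (A := A) p ∈ (algSys W).Op (A.prod B) A :=
  Sys.Op.comp (op_push _) (op_mulL ((algSys W).map _ hp))

lemma exL_xp {p : W.H B} (hp : p ∈ PH W B 0) (a : W.H A) {b : W.H B} (hb : b ∈ PH W B 0) :
    exL W p (xp W a b) = W.tr B (p * b) • a := by
  change W.push (fst A B) (W.map (snd A B) p * xp W a b) = _
  rw [snd_mul_xp hp, push_fst_even]
  have := PH.mul hp hb
  rwa [zero_add] at this

/-- The operator `h ↦ pr_2_* (h * pr_1^* q)`. -/
lemma conL_xp {q : W.H A} (a : W.H A) (b : W.H B) :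
    conL W q (xp W a b) = W.tr A (q * a) • b := by
  change W.push (snd A B) (W.map (fst A B) q * xp W a b) = _
  rw [fst_mul_xp, push_snd_xp]

lemma one_even : (1 : W.H Z) ∈ PH W Z 0 := PH.of (W.one_mem Z)

/-- Two classes are images of one class. -/
lemma combine {T : Sys W} (hT : ∀ Z, algSpan W Z ≤ T.C Z) [Nontrivial (W.H X)]
    (hW : ∀ n, HomEqNum W (pw X n)) (hdim : 0 < X.dim) (hA : IsPw X A) (hB : IsPw X B)
    {a : W.H A} (ha : a ∈ T.C A) {b : W.H B} (hb : b ∈ T.C B) :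
    ∃ τ ∈ T.C (A.prod (B.prod X)), (∃ u ∈ (algSys W).Op (A.prod (B.prod X)) A, u τ = a) ∧
      ∃ w ∈ (algSys W).Op (A.prod (B.prod X)) B, w τ = b := by
  have hnA := hA.nontrivial (W := W)
  have hnB := hB.nontrivial (W := W)
  obtain ⟨z, hz, hzg, hz1⟩ := exists_point (W := W) (Z := X) (hW 0)
  obtain ⟨q, hq, -, hq1⟩ := exists_point (W := W) (Z := A) (hA.hom hW)
  obtain ⟨p, hp, -, hp1⟩ := exists_point (W := W) (Z := B) (hB.hom hW)
  have hzz : z * z = 0 := by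
    have h1 := W.mul_mem hzg hzg
    rw [W.gr_eq_bot X _ (by omega)] at h1
    exact (Submodule.mem_bot _).1 h1
  have htr1 : W.tr X 1 = 0 := W.tr_eq_zero (W.one_mem X) (by omega)
  have hze : z ∈ PH W X 0 := (algSys W).even hz
  have hbe : b ∈ PH W B 0 := T.even hb
  have hpz : xp W p z ∈ algSpan W (B.prod X) := xp_alg hp hz
  have hpze : xp W p z ∈ PH W (B.prod X) 0 := (algSys W).even hpz
  have hbz : xp W b z ∈ T.C (B.prod X) := T.mul (T.map _ hb) (T.map _ (hT _ hz))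
  have hbze : xp W b z ∈ PH W (B.prod X) 0 := T.even hbz
  have h1T : xp W a 1 ∈ T.C (A.prod (B.prod X)) := T.mul (T.map _ ha) (T.map _ (T.one _))
  have h2T : xp W 1 (xp W b z) ∈ T.C (A.prod (B.prod X)) :=
    T.mul (T.map _ (T.one _)) (T.map _ hbz)
  have e3 : xp W p z * xp W b z = 0 := by
    rw [xp_mul p b z z hze hbe, hzz, xp_zero_right, smul_zero]
  have e4 : W.tr (B.prod X) (xp W p z * 1) = 1 := by
    rw [mul_one, tr_xp, hp1, hz1, one_mul]
  have e5 : exL W (A := B) (1 : W.H X) (1 : W.H (B.prod X)) = 0 := by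
    rw [← xp_one B X, exL_xp one_even 1 one_even, mul_one, htr1, zero_smul]
  have e6 : exL W (A := B) (1 : W.H X) (xp W b z) = b := by
    rw [exL_xp one_even b hze, one_mul, hz1, one_smul]
  refine ⟨xp W a 1 + xp W 1 (xp W b z), Submodule.add_mem _ h1T h2T,
    ⟨exL W (xp W p z), op_exL hpz, ?_⟩,
    ⟨exL W (A := B) (1 : W.H X) ∘ₗ conL W q, Sys.Op.comp (op_exL ((algSys W).one X))
      (op_conL hq), ?_⟩⟩
  · rw [map_add, exL_xp hpze a one_even, exL_xp hpze 1 hbze, e3, map_zero, zero_smul, add_zero,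
      e4, one_smul]
  · rw [LinearMap.comp_apply, map_add, conL_xp, conL_xp, mul_one, hq1, one_smul, map_add,
      map_smul, e5, smul_zero, zero_add, e6]

lemma eq_smul_one (h : Z.dim = 0) (x : W.H Z) : ∃ r : W.K, x = r • 1 := by
  refine gr_induction (W.isInternal Z) (p := fun x => ∃ r : W.K, x = r • 1) ?_ ?_ x
  · intro i a ha
    rcases Nat.eq_zero_or_pos i with hi | hi
    · subst hi
      rw [W.gr_zero, Submodule.mem_span_singleton] at ha
      obtain ⟨r, hr⟩ := ha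
      exact ⟨r, hr.symm⟩
    · rw [W.gr_eq_bot Z i (by omega)] at ha
      exact ⟨0, by rw [(Submodule.mem_bot _).1 ha, zero_smul]⟩
  · rintro a b ⟨r, rfl⟩ ⟨s, rfl⟩
    exact ⟨r + s, (add_smul _ _ _).symm⟩

/-- Finitely many classes are images of one class. -/
lemma exists_common {T : Sys W} (hT : ∀ Z, algSpan W Z ≤ T.C Z) [Nontrivial (W.H X)]
    (hW : ∀ n, HomEqNum W (pw X n)) (r : ℕ) (c : Fin r → Σ m, W.H (pw X m))
    (hc : ∀ i, (c i).2 ∈ T.C (pw X (c i).1)) :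
    ∃ Y, IsPw X Y ∧ ∃ τ ∈ T.C Y, (∃ u ∈ (algSys W).Op Y X, u τ = 1) ∧
      ∀ i, ∃ u ∈ (algSys W).Op Y (pw X (c i).1), u τ = (c i).2 := by
  rcases Nat.eq_zero_or_pos X.dim with hdim | hdim
  · refine ⟨X, IsPw.self X, 1, T.one X, ⟨LinearMap.id, Sys.Op.id, rfl⟩, fun i => ?_⟩
    obtain ⟨s, hs⟩ := eq_smul_one (W := W) (Z := pw X (c i).1) (by
      rw [Pool.Agent.Y129.dim_pw, hdim, mul_zero]) (c i).2
    refine ⟨s • (W.map (Pool.Agent.Y129.pj X (c i).1 0)).toLinearMap,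
      Submodule.smul_mem _ _ (op_map _), ?_⟩
    rw [LinearMap.smul_apply, hs]
    congr 1
    exact map_one (W.map (Pool.Agent.Y129.pj X (c i).1 0))
  · induction r with
    | zero =>
      exact ⟨X, IsPw.self X, 1, T.one X, ⟨LinearMap.id, Sys.Op.id, rfl⟩, fun i => i.elim0⟩
    | succ r ih =>
      obtain ⟨Y, hY, τ, hτ, ⟨u₀, hu₀, hu₀'⟩, h⟩ := ih (fun i => c i.castSucc)
        (fun i => hc _)
      obtain ⟨τ', hτ', ⟨u, hu, hu'⟩, ⟨w, hw, hw'⟩⟩ := combine hT hW hdim hY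
        (IsPw.of X (c (Fin.last r)).1) hτ (hc (Fin.last r))
      refine ⟨_, hY.prod ((IsPw.of X _).prod (IsPw.self X)), τ', hτ',
        ⟨u₀ ∘ₗ u, Sys.Op.comp hu₀ hu, by rw [LinearMap.comp_apply, hu', hu₀']⟩, fun i => ?_⟩
      refine Fin.lastCases ?_ (fun i => ?_) i
      · exact ⟨w, hw, hw'⟩
      · obtain ⟨u₁, hu₁, hu₁'⟩ := h i
        exact ⟨u₁ ∘ₗ u, Sys.Op.comp hu₁ hu, by rw [LinearMap.comp_apply, hu', hu₁']⟩

/-- **A single generator.** -/
theorem exists_cyclic {T : Sys W} (hT : ∀ Z, algSpan W Z ≤ T.C Z) [Nontrivial (W.H X)]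
    (hW : ∀ n, HomEqNum W (pw X n)) (r : ℕ) (c : Fin r → Σ m, W.H (pw X m))
    (hc : ∀ i, (c i).2 ∈ T.C (pw X (c i).1))
    (hgen : ∀ n, T.C (pw X n) ≤ Pool.Agent.Y129.genBy W X c n) :
    ∃ Y, IsPw X Y ∧ ∃ τ ∈ T.C Y,
      ∀ Z, IsPw X Z → ∀ t ∈ T.C Z, ∃ x ∈ (algSys W).Op Y Z, x τ = t := by
  obtain ⟨Y, hY, τ, hτ, ⟨u₀, hu₀, hu₀'⟩, h⟩ := exists_common hT hW r c hc
  refine ⟨Y, hY, τ, hτ, ?_⟩
  obtain ⟨z, hz, -, hz1⟩ := exists_point (W := W) (Z := X) (hW 0)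
  have key : ∀ n, ∀ t ∈ T.C (pw X n), ∃ x ∈ (algSys W).Op Y (pw X n), x τ = t := by
    intro n t ht
    set S : Submodule W.K (W.H (pw X n)) :=
      ((algSys W).Op Y (pw X n)).map (LinearMap.applyₗ τ) with hS
    have hmem : ∀ t, t ∈ S ↔ ∃ x ∈ (algSys W).Op Y (pw X n), x τ = t := fun t =>
      Submodule.mem_map
    rw [← hmem]
    refine (le_trans (hgen n) ?_) ht
    refine sup_le ?_ ?_
    · intro a ha
      rw [hmem]
      refine ⟨W.corr (xp W z a) ∘ₗ u₀, Sys.Op.comp (Sys.Op.corr (xp_alg hz ha)) hu₀, ?_⟩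
      rw [LinearMap.comp_apply, hu₀', corr_xp0 z ((algSys W).even ha), mul_one, hz1, one_smul]
    · rw [Submodule.span_le]
      intro a ha
      obtain ⟨i, hi⟩ := Set.mem_iUnion.1 ha
      obtain ⟨j, w, hw, rfl⟩ := hi
      obtain ⟨u, hu, hu'⟩ := h i
      refine (hmem _).2 ⟨W.corr w ∘ₗ u, Sys.Op.comp (Sys.Op.corr (Submodule.subset_span
        (Set.mem_iUnion.2 ⟨j, hw⟩))) hu, ?_⟩
      rw [LinearMap.comp_apply, hu']
      rfl
  rintro Z ⟨n, ⟨θ⟩⟩ t ht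
  obtain ⟨x, hx, hxt⟩ := key n (W.map θ.inv t) (T.map _ ht)
  refine ⟨(W.map θ.hom).toLinearMap ∘ₗ x, Sys.Op.comp (op_map _) hx, ?_⟩
  rw [LinearMap.comp_apply, hxt]
  change W.map θ.hom (W.map θ.inv t) = t
  rw [← W.map_comp, θ.hom_inv_id, W.map_id]

end Pool.Agent.V7H5.TI
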