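import Mathlib

/-!
# Common eigenvectors
-/

open Module

namespace Pool.Agent.V7H5.TI

variable {K : Type*} [Field K] {M : Type*} [AddCommGroup M] [Module K M]

/-- A commuting family of operators has a common eigenvector in every stable nonzero subspace. -/
theorem exists_common_eigenvector [IsAlgClosed K] [Module.Finite K M] (S : Set (Module.End K M))
    (hS : ∀ A ∈ S, ∀ B ∈ S, ∀ v, A (B v) = B (A v)) (V : Submodule K M) (hV : V ≠ ⊥)
    (hst : ∀ A ∈ S, ∀ v ∈ V, A v ∈ V) :
    ∃ v ∈ V, v ≠ 0 ∧ ∀ A ∈ S, ∃ c : K, A v = c • v := by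
  induction hn : finrank K V using Nat.strong_induction_on generalizing V with
  | _ n ih =>
    by_cases hs : ∀ A ∈ S, ∃ c : K, ∀ v ∈ V, A v = c • v
    · obtain ⟨v, hv, hv0⟩ := Submodule.exists_mem_ne_zero_of_ne_bot hV
      refine ⟨v, hv, hv0, fun A hA => ?_⟩
      obtain ⟨c, hc⟩ := hs A hA
      exact ⟨c, hc v hv⟩
    · push Not at hs
      obtain ⟨A, hA, hA'⟩ := hs
      have hnt : Nontrivial V := Submodule.nontrivial_iff_ne_bot.2 hV
      obtain ⟨c, hc⟩ := Module.End.exists_eigenvalue (A.restrict (hst A hA))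
      obtain ⟨w, hw⟩ := hc.exists_hasEigenvector
      have hw1 : A (w : M) = c • (w : M) := by
        have := congrArg Subtype.val hw.apply_eq_smul
        exact this
      set V' : Submodule K M := V ⊓ LinearMap.ker (A - c • (1 : Module.End K M)) with hV'
      have hmem : ∀ v, v ∈ V' ↔ v ∈ V ∧ A v = c • v := by
        intro v
        rw [hV', Submodule.mem_inf, LinearMap.mem_ker, LinearMap.sub_apply, LinearMap.smul_apply,
          Module.End.one_apply, sub_eq_zero]
      have hne : V' ≠ ⊥ := by
        intro h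
        have h1 : (w : M) ∈ V' := (hmem _).2 ⟨w.2, hw1⟩
        rw [h, Submodule.mem_bot] at h1
        exact hw.2 (Subtype.ext h1)
      have hlt : V' < V := by
        refine lt_of_le_of_ne inf_le_left ?_
        intro h
        obtain ⟨v, hv, hv'⟩ := hA' c
        rw [← h] at hv
        exact hv' ((hmem v).1 hv).2
      have hfin : finrank K V' < n := by
        rw [← hn]
        exact Submodule.finrank_lt_finrank_of_lt hlt
      obtain ⟨v, hv, hv0, h⟩ := ih _ hfin V' hne (fun B hB v hv => by
        rw [hmem] at hv ⊢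
        refine ⟨hst B hB v hv.1, ?_⟩
        rw [hS A hA B hB, hv.2, map_smul]) rfl
      exact ⟨v, ((hmem v).1 hv).1, hv0, h⟩

/-- Finitely many anticommuting operators with square zero have a common nonzero kernel in every
stable nonzero subspace. -/
theorem exists_common_kernel {ι : Type*} (s : Finset ι) (T : ι → Module.End K M)
    (h1 : ∀ i j v, T i (T j v) = - T j (T i v)) (h2 : ∀ i v, T i (T i v) = 0)
    (V : Submodule K M) (hV : V ≠ ⊥) (hst : ∀ i, ∀ v ∈ V, T i v ∈ V) :
    ∃ v ∈ V, v ≠ 0 ∧ ∀ i ∈ s, T i v = 0 := by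
  classical
  induction s using Finset.induction_on with
  | empty =>
    obtain ⟨v, hv, hv0⟩ := Submodule.exists_mem_ne_zero_of_ne_bot hV
    exact ⟨v, hv, hv0, by simp⟩
  | insert a s ha ih =>
    obtain ⟨v, hv, hv0, h⟩ := ih
    by_cases hav : T a v = 0
    · refine ⟨v, hv, hv0, fun i hi => ?_⟩
      rcases Finset.mem_insert.1 hi with rfl | hi
      · exact hav
      · exact h i hi
    · refine ⟨T a v, hst a v hv, hav, fun i hi => ?_⟩
      rcases Finset.mem_insert.1 hi with rfl | hi
      · exact h2 _ _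
      · rw [h1, h i hi, map_zero, neg_zero]

/-- Joint eigenvectors with different systems of eigenvalues are linearly independent. -/
theorem group_like_indep {ι : Type*} (T : ι → Module.End K M) (φ : ι → M → K) (F : Set M)
    (h0 : ∀ b ∈ F, b ≠ 0) (h : ∀ b ∈ F, ∀ a, T a b = φ a b • b)
    (hs : ∀ b ∈ F, ∀ b' ∈ F, (∀ a, φ a b = φ a b') → b = b') (s : Finset M)
    (hsF : ∀ b ∈ s, b ∈ F) (g : M → K) (hg : ∑ b ∈ s, g b • b = 0) : ∀ b ∈ s, g b = 0 := by
  classical
  induction s using Finset.induction_on generalizing g with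
  | empty => simp
  | insert b₀ s hb₀ ih =>
    have hsF' : ∀ b ∈ s, b ∈ F := fun b hb => hsF b (Finset.mem_insert_of_mem hb)
    have hb₀F : b₀ ∈ F := hsF b₀ (Finset.mem_insert_self _ _)
    rw [Finset.sum_insert hb₀] at hg
    have key : ∀ a, ∀ b ∈ s, g b * (φ a b - φ a b₀) = 0 := by
      intro a
      refine ih hsF' (fun b => g b * (φ a b - φ a b₀)) ?_
      have e1 := congrArg (T a) hg
      rw [map_add, map_smul, map_sum, map_zero, h b₀ hb₀F a] at e1
      have e2 := congrArg (fun x => φ a b₀ • x) hg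
      simp only [smul_add, smul_zero] at e2
      have e3 : ∑ b ∈ s, T a (g b • b) = ∑ b ∈ s, (g b * φ a b) • b := by
        refine Finset.sum_congr rfl fun b hb => ?_
        rw [map_smul, h b (hsF' b hb) a, smul_smul]
      have e4 : ∑ b ∈ s, (g b * (φ a b - φ a b₀)) • b =
          ∑ b ∈ s, (g b * φ a b) • b - φ a b₀ • ∑ b ∈ s, g b • b := by
        rw [Finset.smul_sum, ← Finset.sum_sub_distrib]
        refine Finset.sum_congr rfl fun b _ => ?_
        rw [smul_smul, ← sub_smul]
        congr 1
        ring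
      have e5 : g b₀ • φ a b₀ • b₀ = φ a b₀ • g b₀ • b₀ := smul_comm _ _ _
      rw [e4, ← e3]
      have e6 : ∑ x ∈ s, (T a) (g x • x) = - (φ a b₀ • g b₀ • b₀) := by
        rw [e5] at e1
        exact eq_neg_of_add_eq_zero_right e1
      have e7 : φ a b₀ • ∑ x ∈ s, g x • x = - (φ a b₀ • g b₀ • b₀) :=
        eq_neg_of_add_eq_zero_right e2
      rw [e6, e7, sub_self]
    have hz : ∀ b ∈ s, g b = 0 := by
      intro b hb
      by_contra hgb
      apply hb₀
      have h3 : b = b₀ := hs b (hsF' b hb) b₀ hb₀F fun a => by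
        have h4 := key a b hb
        rcases mul_eq_zero.1 h4 with h5 | h5
        · exact absurd h5 hgb
        · exact sub_eq_zero.1 h5
      exact h3 ▸ hb
    intro b hb
    rcases Finset.mem_insert.1 hb with rfl | hb
    · rw [Finset.sum_eq_zero (fun b' hb' => by rw [hz b' hb', zero_smul]), add_zero] at hg
      exact (smul_eq_zero.1 hg).resolve_right (h0 b hb₀F)
    · exact hz b hb

/-- There are only finitely many joint eigenvectors of this kind. -/
theorem group_like_finite [Module.Finite K M] {ι : Type*} (T : ι → Module.End K M) (φ : ι → M → K)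
    (F : Set M) (h0 : ∀ b ∈ F, b ≠ 0) (h : ∀ b ∈ F, ∀ a, T a b = φ a b • b)
    (hs : ∀ b ∈ F, ∀ b' ∈ F, (∀ a, φ a b = φ a b') → b = b') : F.Finite := by
  classical
  by_contra hF
  obtain ⟨s, hsF, hcard⟩ := Set.Infinite.exists_subset_card_eq hF (finrank K M + 1)
  have hli : LinearIndependent K (fun b : s => (b : M)) := by
    rw [linearIndependent_iff']
    intro t g hg i hi
    set g' : M → K := fun b => if hb : b ∈ s then (if (⟨b, hb⟩ : s) ∈ t then g ⟨b, hb⟩ else 0)
      else 0 with hg'
    have h3 := group_like_indep T φ F h0 h hs (t.map ⟨Subtype.val, Subtype.val_injective⟩)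
      (fun b hb => by
        obtain ⟨c, _, rfl⟩ := Finset.mem_map.1 hb
        exact hsF c.2) g' (by
        rw [Finset.sum_map]
        rw [← hg]
        refine Finset.sum_congr rfl fun c hc => ?_
        change g' c • (c : M) = _
        rw [hg']
        simp [hc])
    have h4 := h3 (i : M) (Finset.mem_map.2 ⟨i, hi, rfl⟩)
    rw [hg'] at h4
    simpa [hi] using h4
  have h5 := hli.fintype_card_le_finrank
  rw [Fintype.card_coe, hcard] at h5
  omega

end Pool.Agent.V7H5.TI
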