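import Pool.Agent.V7H5.TI.Rel
import Pool.Agent.V7H5.TI.Lin

/-!
# Group-like classes
-/

open CategoryTheory AlgebraicGeometry

universe u v

namespace Pool.Agent.V7H5.TI

open Module
open Pool.Agent.H914 Pool.Agent.H914.VarClass Pool.Agent.H914.VarClass.Obj
  Pool.Agent.H914.WeilCohomology Pool.Agent.H281R3.HT
open Pool.Agent.Y133.Half

variable {k : Type u} [Field k] {𝒱 : VarClass k} {ops : CycleOps 𝒱}
  {W : WeilCohomology.{u, v} ops} {X Y Z Q : 𝒱.Obj}

/-- The operator given by an external product with an even class. -/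
lemma corr_xp0 (x : W.H X) {y : W.H Y} (hy : y ∈ PH W Y 0) (z : W.H X) :
    W.corr (xp W x y) z = W.tr X (x * z) • y := by
  rw [corr_apply, xp, mul_assoc, PH.even_comm (PH.map (snd X Y) hy), ← mul_assoc, ← map_mul,
    push_snd]

lemma eq_of_corr {c d : W.H (X.prod Y)} (h : ∀ a, W.corr c a = W.corr d a) : c = d := by
  rw [← sub_eq_zero]
  apply corr_inj (W := W)
  apply LinearMap.ext
  intro a
  rw [sub_eq_add_neg, ← neg_one_smul W.K d, W.corr_add, W.corr_smul, LinearMap.add_apply,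
    LinearMap.smul_apply, h, neg_one_smul, LinearMap.zero_apply, add_neg_cancel]

/-- Composition with a correspondence in the second factor. -/
noncomputable def compL (W : WeilCohomology.{u, v} ops) (Q : 𝒱.Obj) (c : W.H (Y.prod Z)) :
    W.H (Q.prod Y) →ₗ[W.K] W.H (Q.prod Z) :=
  W.push (p13 Q Y Z) ∘ₗ LinearMap.mulLeft W.K (W.map (p23 Q Y Z) c) ∘ₗ
    (W.map (p12 Q Y Z)).toLinearMap

lemma corr_compL {c : W.H (Y.prod Z)} (hc : c ∈ PH W (Y.prod Z) 0) (w : W.H (Q.prod Y)) :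
    W.corr (compL W Q c w) = W.corr c ∘ₗ W.corr w := by
  rw [← corr_comp' w hc]
  congr 1
  change W.push _ (W.map (p23 Q Y Z) c * W.map (p12 Q Y Z) w) = _
  rw [PH.even_comm (PH.map _ hc)]

lemma RelOp.compL {W₁ W₂ : WeilCohomology.{u, v} ops} {σ : W₁.K ≃+* W₂.K} {c : W₁.H (Y.prod Z)}
    {c' : W₂.H (Y.prod Z)} (h : Rel σ (Y.prod Z) c c') :
    RelOp σ (Q.prod Y) (Q.prod Z) (compL W₁ Q c) (compL W₂ Q c') :=
  (RelOp.push _).comp ((RelOp.mulL (h.map _)).comp (RelOp.map _))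

/-- The exchange of the first two factors. -/
noncomputable def sw12 (Y Z : 𝒱.Obj) : Y.prod (Y.prod Z) ⟶ Y.prod (Y.prod Z) :=
  Obj.lift (snd Y (Y.prod Z) ≫ fst Y Z) (Obj.lift (fst Y (Y.prod Z)) (snd Y (Y.prod Z) ≫ snd Y Z))

lemma map_sw12 {i j : ℕ} {u : W.H Y} (hu : u ∈ PH W Y i) {w : W.H Y} (hw : w ∈ PH W Y j)
    (t : W.H Z) : W.map (sw12 Y Z) (xp W u (xp W w t)) =
      (-1 : W.K) ^ (i * j) • xp W w (xp W u t) := by
  have e1 : sw12 Y Z ≫ fst Y (Y.prod Z) = snd Y (Y.prod Z) ≫ fst Y Z := Obj.lift_fst _ _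
  have e2 : sw12 Y Z ≫ snd Y (Y.prod Z) =
      Obj.lift (fst Y (Y.prod Z)) (snd Y (Y.prod Z) ≫ snd Y Z) := Obj.lift_snd _ _
  rw [xp, xp, map_mul (W.map (snd Y (Y.prod Z))), map_mul (W.map (sw12 Y Z)),
    map_mul (W.map (sw12 Y Z)), ← W.map_comp, ← W.map_comp, ← W.map_comp, ← W.map_comp,
    ← W.map_comp, e1, e2, Obj.lift_fst, Obj.lift_snd,
    xp, xp, map_mul (W.map (snd Y (Y.prod Z))), ← W.map_comp, ← W.map_comp, ← mul_assoc,
    PH.comm (PH.map _ hu) (PH.map _ hw), smul_mul_assoc, mul_assoc]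

lemma sign_aux {K : Type*} [Field K] {i j l p q : ℕ} (hi : (i + p) % 2 = 0)
    (hj : (j + q) % 2 = 0) :
    (-1 : K) ^ (i * j) * ((-1 : K) ^ ((i + l) * q) * (-1 : K) ^ (l * p)) =
      (-1 : K) ^ (p * q) * ((-1 : K) ^ ((j + l) * p) * (-1 : K) ^ (l * q)) := by
  rw [← pow_add, ← pow_add, ← pow_add, ← pow_add]
  apply neg_pow_congr
  have hi' : i % 2 = p % 2 := by omega
  have hj' : j % 2 = q % 2 := by omega
  rcases Nat.mod_two_eq_zero_or_one p with hp | hp <;>
  rcases Nat.mod_two_eq_zero_or_one q with hq | hq <;>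
  rcases Nat.mod_two_eq_zero_or_one l with hl | hl <;>
  simp [Nat.add_mod, Nat.mul_mod, hi', hj', hp, hq, hl]

/-- The sign rule for the contraction of the first two factors. -/
lemma contract_sw12 {p q : ℕ} {a a' : W.H Y} (ha : a ∈ PH W Y p) (ha' : a' ∈ PH W Y q)
    (w : W.H (Y.prod (Y.prod Z))) :
    W.corr (W.corr (W.map (sw12 Y Z) w) a') a =
      (-1 : W.K) ^ (p * q) • W.corr (W.corr w a) a' := by
  refine xp_induction (p := fun w => W.corr (W.corr (W.map (sw12 Y Z) w) a') a =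
      (-1 : W.K) ^ (p * q) • W.corr (W.corr w a) a') ?_ ?_ w
  · intro c d hc hd
    rw [map_add, W.corr_add, LinearMap.add_apply, W.corr_add, LinearMap.add_apply, hc, hd,
      W.corr_add, LinearMap.add_apply, W.corr_add, LinearMap.add_apply, smul_add]
  intro i j₀ u hu y _
  refine xp_induction (p := fun y => W.corr (W.corr (W.map (sw12 Y Z) (xp W u y)) a') a =
      (-1 : W.K) ^ (p * q) • W.corr (W.corr (xp W u y) a) a') ?_ ?_ y
  · intro c d hc hd
    rw [xp_add_right, map_add, W.corr_add, LinearMap.add_apply, W.corr_add, LinearMap.add_apply,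
      hc, hd, W.corr_add, LinearMap.add_apply, W.corr_add, LinearMap.add_apply, smul_add]
  intro j l w hw t ht
  rw [map_sw12 hu hw, W.corr_smul, LinearMap.smul_apply, W.corr_smul, LinearMap.smul_apply,
    corr_xp w (xp_mem hu ht) ha', W.corr_smul, LinearMap.smul_apply, corr_xp u ht ha,
    corr_xp u (xp_mem hw ht) ha, W.corr_smul, LinearMap.smul_apply, corr_xp w ht ha',
    smul_smul, smul_smul, smul_smul, smul_smul]
  congr 1
  by_cases hi : (i + p) % 2 = 0
  · by_cases hj : (j + q) % 2 = 0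
    · have h1 := sign_aux (K := W.K) (l := l) hi hj
      linear_combination (W.tr Y (w * a') * W.tr Y (u * a)) * h1
    · have h1 : W.tr Y (w * a') = 0 := PH.tr_odd (PH.mul hw ha') (by omega)
      rw [h1]; ring
  · have h1 : W.tr Y (u * a) = 0 := PH.tr_odd (PH.mul hu ha) (by omega)
    rw [h1]; ring

lemma tr_map_swap (w : W.H (X.prod Y)) : W.tr (Y.prod X) (W.map (swap Y X) w) = W.tr _ w := by
  refine xp_induction (p := fun w => W.tr (Y.prod X) (W.map (swap Y X) w) = W.tr _ w) ?_ ?_ w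
  · intro c d hc hd; rw [map_add, map_add, map_add, hc, hd]
  intro i j a ha b hb
  rw [xp, map_mul (W.map (swap Y X)), ← W.map_comp, ← W.map_comp, swap_fst, swap_snd,
    PH.comm (PH.map (snd Y X) ha) (PH.map (fst Y X) hb), map_smul, W.tr_prod, W.tr_prod,
    smul_eq_mul]
  by_cases hi : i % 2 = 0
  · have h1 : (-1 : W.K) ^ (i * j) = (-1 : W.K) ^ 0 := by
      apply neg_pow_congr
      rw [Nat.mul_mod, hi]; simp
    rw [h1]; ring
  · rw [PH.tr_odd ha (by omega)]; ring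

/-- The sign rule for a symmetric class. -/
lemma tr_contract {p q : ℕ} {a a' : W.H Y} (ha : a ∈ PH W Y p) (ha' : a' ∈ PH W Y q)
    {w : W.H (Y.prod Y)} (hw : W.map (swap Y Y) w = w) :
    W.tr Y (W.corr w a * a') = (-1 : W.K) ^ (p * q) * W.tr Y (W.corr w a' * a) := by
  rw [corr_apply, W.tr_push, corr_apply, W.tr_push, ← tr_map_swap, map_mul (W.map (swap Y Y)),
    map_mul (W.map (swap Y Y)), hw, ← W.map_comp, ← W.map_comp, swap_fst, swap_snd, mul_assoc,
    PH.comm (PH.map (snd Y Y) ha) (PH.map (fst Y Y) ha'), mul_smul_comm, map_smul, smul_eq_mul,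
    mul_assoc]

lemma exists_even_odd (x : W.H X) : ∃ x₀ ∈ PH W X 0, ∃ x₁ ∈ PH W X 1, x = x₀ + x₁ := by
  refine gr_induction (W.isInternal X) (p := fun x => ∃ x₀ ∈ PH W X 0, ∃ x₁ ∈ PH W X 1,
    x = x₀ + x₁) ?_ ?_ x
  · intro i a ha
    rcases Nat.mod_two_eq_zero_or_one i with h | h
    · exact ⟨a, PH.of' (by omega) ha, 0, Submodule.zero_mem _, (add_zero _).symm⟩
    · exact ⟨0, Submodule.zero_mem _, a, PH.of' (by omega) ha, (zero_add _).symm⟩
  · rintro a b ⟨a₀, ha₀, a₁, ha₁, rfl⟩ ⟨b₀, hb₀, b₁, hb₁, rfl⟩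
    exact ⟨_, Submodule.add_mem _ ha₀ hb₀, _, Submodule.add_mem _ ha₁ hb₁, by abel⟩

/-- The contraction operators. -/
noncomputable def Tc (Δ : W.H Y →ₗ[W.K] W.H (Y.prod Y)) (a : W.H Y) : Module.End W.K (W.H Y) :=
  LinearMap.applyₗ a ∘ₗ corrL W Y Y ∘ₗ Δ

lemma Tc_apply (Δ : W.H Y →ₗ[W.K] W.H (Y.prod Y)) (a h : W.H Y) :
    Tc Δ a h = W.corr (Δ h) a := rfl

lemma corr_mem {p q : ℕ} {w : W.H (X.prod Y)} (hw : w ∈ PH W _ p) {a : W.H X}
    (ha : a ∈ PH W X q) : W.corr w a ∈ PH W Y (p + q) := by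
  rw [corr_apply]
  exact PH.push _ (PH.mul hw (PH.map _ ha))

section Group

variable {c : W.H (Y.prod (Y.prod Y))} {e : Module.End W.K (W.H Y)} {ε : W.H Y}

/-- The data of a commutative and associative comultiplication with a counit on the image of an
idempotent. -/
structure IsComult (W : WeilCohomology.{u, v} ops) (Y : 𝒱.Obj) (c : W.H (Y.prod (Y.prod Y)))
    (e : Module.End W.K (W.H Y)) (ε : W.H Y) : Prop where
  even : c ∈ PH W _ 0
  even' : ε ∈ PH W Y 0
  symm : ∀ h, W.map (swap Y Y) (W.corr c h) = W.corr c h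
  assoc : ∀ h, W.map (sw12 Y Y) (compL W Y c (W.corr c h)) = compL W Y c (W.corr c h)
  counit : ∀ h, W.corr (W.corr c h) ε = e h
  idem : ∀ h, e (e h) = e h
  ne : e ≠ 0

lemma IsComult.comm (H : IsComult W Y c e ε) {p q : ℕ} {a a' : W.H Y} (ha : a ∈ PH W Y p)
    (ha' : a' ∈ PH W Y q) (h : W.H Y) : Tc (W.corr c) a (Tc (W.corr c) a' h) =
      (-1 : W.K) ^ (p * q) • Tc (W.corr c) a' (Tc (W.corr c) a h) := by
  have key : ∀ a a' : W.H Y, Tc (W.corr c) a (Tc (W.corr c) a' h) =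
      W.corr (W.corr (compL W Y c (W.corr c h)) a') a := by
    intro a a'
    rw [corr_compL H.even]
    rfl
  rw [key, key, ← H.assoc, contract_sw12 ha ha', H.assoc]

lemma IsComult.tr_symm (H : IsComult W Y c e ε) {p q : ℕ} {a a' : W.H Y} (ha : a ∈ PH W Y p)
    (ha' : a' ∈ PH W Y q) (h : W.H Y) : W.tr Y (Tc (W.corr c) a h * a') =
      (-1 : W.K) ^ (p * q) * W.tr Y (Tc (W.corr c) a' h * a) :=
  tr_contract ha ha' (H.symm h)

lemma IsComult.parity (H : IsComult W Y c e ε) {p q : ℕ} {a h : W.H Y} (ha : a ∈ PH W Y p)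
    (hh : h ∈ PH W Y q) : Tc (W.corr c) a h ∈ PH W Y (q + p) :=
  corr_mem (Ev.corr H.even _ _ hh) ha

lemma Tc_add (Δ : W.H Y →ₗ[W.K] W.H (Y.prod Y)) (a b h : W.H Y) :
    Tc Δ (a + b) h = Tc Δ a h + Tc Δ b h := by
  rw [Tc_apply, map_add]; rfl

lemma Tc_smul (Δ : W.H Y →ₗ[W.K] W.H (Y.prod Y)) (s : W.K) (a h : W.H Y) :
    Tc Δ (s • a) h = s • Tc Δ a h := by
  rw [Tc_apply, map_smul]; rfl

/-- **Existence of group-like classes.** -/
theorem IsComult.exists_grouplike [IsAlgClosed W.K] (H : IsComult W Y c e ε) :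
    ∃ b ∈ PH W Y 0, b ≠ 0 ∧ W.corr c b = xp W b b ∧ e b = b ∧ W.tr Y (b * ε) = 1 := by
  set T := Tc (W := W) (Y := Y) (W.corr c) with hT
  have he : ∀ h, T ε h = e h := H.counit
  have hcomm : ∀ {p q : ℕ} {a a' : W.H Y}, a ∈ PH W Y p → a' ∈ PH W Y q → ∀ h,
      T a (T a' h) = (-1 : W.K) ^ (p * q) • T a' (T a h) := fun ha ha' h => H.comm ha ha' h
  have heT : ∀ {p : ℕ} {a : W.H Y}, a ∈ PH W Y p → ∀ h, e (T a h) = T a (e h) := by
    intro p a ha h
    rw [← he, ← he, hcomm H.even' ha, zero_mul, pow_zero, one_smul]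
  -- the image of `e`
  set V₀ : Submodule W.K (W.H Y) := LinearMap.range e with hV₀
  have hmem₀ : ∀ v, v ∈ V₀ ↔ e v = v := by
    intro v
    constructor
    · rintro ⟨w, rfl⟩; exact H.idem w
    · intro h; exact ⟨v, h⟩
  have hV₀ne : V₀ ≠ ⊥ := by
    intro h
    apply H.ne
    rw [hV₀, LinearMap.range_eq_bot] at h
    exact h
  -- the kernel of the odd contractions
  obtain ⟨s, hs⟩ : (PH W Y 1).FG := Submodule.FG.of_finite
  have hsmem : ∀ a ∈ s, a ∈ PH W Y 1 := fun a ha => by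
    rw [← hs]; exact Submodule.subset_span ha
  have hsq : ∀ a ∈ PH W Y 1, ∀ h, T a (T a h) = 0 := by
    intro a ha h
    have h1 := hcomm ha ha h
    rw [mul_one, pow_one, neg_one_smul] at h1
    have h2 : (2 : W.K) • T a (T a h) = 0 := by
      rw [two_smul]
      nth_rewrite 1 [h1]
      exact neg_add_cancel _
    exact (smul_eq_zero.1 h2).resolve_left two_ne_zero
  obtain ⟨v, hv, hv0, hvT⟩ := exists_common_kernel (M := W.H Y) (s.attach)
    (fun a : {a // a ∈ s} => T a.1)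
    (fun a b h => by
      have h1 := hcomm (hsmem a.1 a.2) (hsmem b.1 b.2) h
      rw [mul_one, pow_one, neg_one_smul] at h1
      exact h1) (fun a h => hsq a.1 (hsmem a.1 a.2) h) V₀ hV₀ne
    (fun a v hv => by
      rw [hmem₀] at hv ⊢
      rw [heT (hsmem a.1 a.2), hv])
  have hvT' : ∀ a ∈ PH W Y 1, T a v = 0 := by
    intro a ha
    rw [← hs] at ha
    induction ha using Submodule.span_induction with
    | mem x hx => exact hvT ⟨x, hx⟩ (Finset.mem_attach _ _)
    | zero =>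
      have h1 := Tc_smul (W.corr c) 0 0 v
      rw [zero_smul, zero_smul] at h1
      exact h1
    | add x y _ _ hx hy => rw [hT, Tc_add, ← hT, hx, hy, add_zero]
    | smul r x _ hx => rw [hT, Tc_smul, ← hT, hx, smul_zero]
  set K₀ : Submodule W.K (W.H Y) := V₀ ⊓ ⨅ a : PH W Y 1, LinearMap.ker (T (a : W.H Y)) with hK₀
  have hmem : ∀ x, x ∈ K₀ ↔ e x = x ∧ ∀ a ∈ PH W Y 1, T a x = 0 := by
    intro x
    rw [hK₀, Submodule.mem_inf, hmem₀, Submodule.mem_iInf]
    simp only [LinearMap.mem_ker, Subtype.forall]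
  have hK₀ne : K₀ ≠ ⊥ := by
    intro h
    have h1 : v ∈ K₀ := (hmem v).2 ⟨(hmem₀ v).1 hv, hvT'⟩
    rw [h, Submodule.mem_bot] at h1
    exact hv0 h1
  -- it is even
  have heven : ∀ x ∈ K₀, x ∈ PH W Y 0 := by
    intro x hx
    obtain ⟨x₀, hx₀, x₁, hx₁, rfl⟩ := exists_even_odd x
    rw [hmem] at hx
    -- the components
    have h1 : ∀ a ∈ PH W Y 1, T a x₁ = 0 := by
      intro a ha
      have h2 := hx.2 a ha
      rw [map_add] at h2
      have h3 : T a x₀ ∈ PH W Y 1 := by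
        have := H.parity ha hx₀
        rwa [zero_add] at this
      have h4 : T a x₁ ∈ PH W Y 0 := PH.congr (by norm_num) (H.parity ha hx₁)
      have h5 := congrArg (H914.par (W.isInternal Y)) h2
      rw [map_add, map_zero, PH.par h3, PH.par h4, pow_one, pow_zero, one_smul, neg_one_smul] at h5
      have h6 : (2 : W.K) • T a x₁ = 0 := by
        rw [two_smul]
        have h7 : T a x₁ = T a x₀ := by
          rw [neg_add_eq_zero] at h5
          exact h5.symm
        nth_rewrite 1 [h7]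
        exact h2
      exact (smul_eq_zero.1 h6).resolve_left two_ne_zero
    have h2 : e x₁ = x₁ := by
      have h3 := hx.1
      rw [map_add] at h3
      have h4 : e x₀ ∈ PH W Y 0 := by
        rw [← he]
        have := H.parity H.even' hx₀
        rwa [zero_add] at this
      have h5 : e x₁ ∈ PH W Y 1 := by
        rw [← he]
        have := H.parity H.even' hx₁
        rwa [add_zero] at this
      have h6 := congrArg (H914.par (W.isInternal Y)) h3
      rw [map_add, map_add, PH.par h4, PH.par h5, PH.par hx₀, PH.par hx₁, pow_one, pow_zero,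
        one_smul, one_smul, neg_one_smul, neg_one_smul] at h6
      have h7 : (2 : W.K) • (e x₁ - x₁) = 0 := by
        have h8 : (e x₀ + e x₁) - (e x₀ + - e x₁) = (x₀ + x₁) - (x₀ + - x₁) := by rw [h3, h6]
        rw [two_smul]
        have h9 : e x₁ + e x₁ = x₁ + x₁ := by
          have e1 : (e x₀ + e x₁) - (e x₀ + - e x₁) = e x₁ + e x₁ := by abel
          have e2 : (x₀ + x₁) - (x₀ + - x₁) = x₁ + x₁ := by abel
          rw [← e1, ← e2, h8]
        have e3 : e x₁ - x₁ + (e x₁ - x₁) = (e x₁ + e x₁) - (x₁ + x₁) := by abel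
        rw [e3, h9, sub_self]
      exact sub_eq_zero.1 ((smul_eq_zero.1 h7).resolve_left two_ne_zero)
    have h3 : x₁ = 0 := by
      rw [← h2, ← he]
      apply W.nondeg
      intro y
      obtain ⟨y₀, hy₀, y₁, hy₁, rfl⟩ := exists_even_odd y
      rw [mul_add, map_add]
      have h4 : W.tr Y (T ε x₁ * y₀) = 0 :=
        PH.tr_odd (PH.mul (H.parity H.even' hx₁) hy₀) (by norm_num)
      have h5 : W.tr Y (T ε x₁ * y₁) = 0 := by
        have h6 := H.tr_symm H.even' hy₁ x₁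
        rw [zero_mul, pow_zero, one_mul] at h6
        rw [hT, h6, ← hT, h1 y₁ hy₁, zero_mul, map_zero]
      rw [h4, h5, add_zero]
    rw [h3, add_zero]
    exact hx₀
  -- the common eigenvector
  obtain ⟨b, hb, hb0, hbT⟩ := exists_common_eigenvector (M := W.H Y)
    {A | ∃ a ∈ PH W Y 0, A = T a} (by
      rintro _ ⟨a, ha, rfl⟩ _ ⟨a', ha', rfl⟩ h
      rw [hcomm ha ha', zero_mul, pow_zero, one_smul]) K₀ hK₀ne (by
      rintro _ ⟨a, ha, rfl⟩ v hv
      rw [hmem] at hv ⊢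
      refine ⟨by rw [heT ha, hv.1], fun a' ha' => ?_⟩
      rw [hcomm ha' ha, hv.2 a' ha', map_zero, smul_zero])
  have hbe := heven b hb
  have hb' := (hmem b).1 hb
  have hodd : ∀ (x : W.H Y), x ∈ PH W Y 0 → ∀ a ∈ PH W Y 1, W.tr Y (x * a) = 0 := fun x hx a ha =>
    PH.tr_odd (PH.mul hx ha) (by norm_num)
  have hχ : ∀ a ∈ PH W Y 0, ∃ r : W.K, T a b = r • b := fun a ha => hbT _ ⟨a, ha, rfl⟩
  have hsym : ∀ a ∈ PH W Y 0, ∀ r : W.K, T a b = r • b →
      r * W.tr Y (b * ε) = W.tr Y (b * a) := by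
    intro a ha r hr
    have h1 := H.tr_symm ha H.even' b
    rw [zero_mul, pow_zero, one_mul, ← hT, hr, he, hb'.1, smul_mul_assoc, map_smul,
      smul_eq_mul] at h1
    exact h1
  have hne : W.tr Y (b * ε) ≠ 0 := by
    intro h0
    apply hb0
    apply W.nondeg
    intro y
    obtain ⟨y₀, hy₀, y₁, hy₁, rfl⟩ := exists_even_odd y
    obtain ⟨r, hr⟩ := hχ y₀ hy₀
    rw [mul_add, map_add, hodd b hbe y₁ hy₁, ← hsym y₀ hy₀ r hr, h0, mul_zero, add_zero]
  set t := W.tr Y (b * ε) with ht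
  refine ⟨t⁻¹ • b, Submodule.smul_mem _ _ hbe, smul_ne_zero (inv_ne_zero hne) hb0, ?_, ?_, ?_⟩
  · apply eq_of_corr
    intro y
    obtain ⟨y₀, hy₀, y₁, hy₁, rfl⟩ := exists_even_odd y
    obtain ⟨r, hr⟩ := hχ y₀ hy₀
    rw [corr_xp0 _ (Submodule.smul_mem _ _ hbe)]
    have h1 : W.corr (W.corr c (t⁻¹ • b)) (y₀ + y₁) = T (y₀ + y₁) (t⁻¹ • b) := rfl
    rw [h1, hT, Tc_add, ← hT, map_smul, map_smul, hr, hb'.2 y₁ hy₁, smul_zero, add_zero, mul_add,
      map_add, hodd _ (Submodule.smul_mem _ _ hbe) y₁ hy₁, add_zero, smul_mul_assoc, map_smul,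
      ← hsym y₀ hy₀ r hr, smul_eq_mul, smul_smul, smul_smul]
    congr 1
    field_simp
  · rw [map_smul, hb'.1]
  · rw [smul_mul_assoc, map_smul, smul_eq_mul, inv_mul_cancel₀ hne]

/-- **The group-like classes form a finite set.** -/
theorem grouplike_finite (Δ : W.H Y →ₗ[W.K] W.H (Y.prod Y)) :
    {b : W.H Y | b ∈ PH W Y 0 ∧ b ≠ 0 ∧ Δ b = xp W b b}.Finite := by
  refine group_like_finite (K := W.K) (M := W.H Y) (fun a : W.H Y => Tc Δ a)
    (fun a b => W.tr Y (b * a)) _ (fun b hb => hb.2.1) ?_ ?_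
  · rintro b ⟨h1, _, h2⟩ a
    change W.corr (Δ b) a = _
    rw [h2, corr_xp0 b h1]
  · rintro b _ b' _ h
    exact W.tr_ext h

end Group

end Pool.Agent.V7H5.TI
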