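import Pool.Agent.V7H5.TI.Fin

/-!
# The comparison of the classes of two theories
-/

open CategoryTheory AlgebraicGeometry TensorProduct Filter Topology

open scoped ENNReal

universe u v w

namespace Pool.Agent.V7H5.TI

open Module
open Pool.Agent.H914 Pool.Agent.H914.VarClass Pool.Agent.H914.VarClass.Obj
  Pool.Agent.H914.WeilCohomology Pool.Agent.H281R3.HT Pool.Agent.TH125.Gal
open Pool.Agent.Y133.Half hiding pw
open Pool.Agent.Y129 (pw TG PowerAction tateClasses tateDim)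

variable {k : Type u} [Field k] {𝒱 : VarClass k} {ops : CycleOps 𝒱}
  {W W₁ W₂ : WeilCohomology.{u, v} ops} {X Y Z A B : 𝒱.Obj} {σ : W₁.K ≃+* W₂.K}
  {τ : W₁.H Y} {b : W₂.H Y}

/-- The product of the images under two correspondences, as an operator. -/
noncomputable def mulOp (W : WeilCohomology.{u, v} ops) (A B : 𝒱.Obj) (c : W.H (A.prod Z))
    (d : W.H (B.prod Z)) : W.H (A.prod B) →ₗ[W.K] W.H Z :=
  (W.map (diag Z)).toLinearMap ∘ₗ compL W Z c ∘ₗ (W.map (swap Z A)).toLinearMap ∘ₗ compL W A d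

lemma mulOp_xp {c : W.H (A.prod Z)} (hc : c ∈ PH W _ 0) {d : W.H (B.prod Z)}
    (hd : d ∈ PH W _ 0) {a : W.H A} (ha : a ∈ PH W A 0) {b : W.H B} (hb : b ∈ PH W B 0) :
    mulOp W A B c d (xp W a b) = W.corr c a * W.corr d b := by
  change W.map (diag Z) (compL W Z c (W.map (swap Z A) (compL W A d (xp W a b)))) = _
  rw [compL_xp hd a hb, map_swap_xp ha, compL_xp hc _ ha, map_diag_xp,
    PH.even_comm (Ev.corr hd _ _ hb)]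

lemma RelOp.mulOp {c : W₁.H (A.prod Z)} {c' : W₂.H (A.prod Z)} (hc : Rel σ _ c c')
    {d : W₁.H (B.prod Z)} {d' : W₂.H (B.prod Z)} (hd : Rel σ _ d d') :
    RelOp σ (A.prod B) Z (mulOp W₁ A B c d) (mulOp W₂ A B c' d') :=
  (RelOp.map _).comp ((RelOp.compL hc).comp ((RelOp.map _).comp (RelOp.compL hd)))

lemma Img.rel (hb : IsTrans σ X Y τ b) {a : W₁.H Z} {a' : W₂.H Z}
    (h : Rel σ Z a a') : Img σ Y Z τ b a a' := by
  obtain ⟨ε, ε', hε, h1, h2⟩ := hb.counit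
  refine ⟨W₁.corr (xp W₁ ε a), W₂.corr (xp W₂ ε' a'),
    ⟨_, _, (hε.map (fst Y Z)).mul (h.map (snd Y Z)), rfl, rfl⟩, ?_, ?_⟩
  · rw [corr_xp0 _ ((algSys W₁).even h.mem_left), h1, one_smul]
  · rw [corr_xp0 _ ((algSys W₂).even h.mem_right), h2, one_smul]

lemma Img.mul (hτ : τ ∈ PH W₁ Y 0) (hb : IsTrans σ X Y τ b) {s t : W₁.H Z} {s' t' : W₂.H Z}
    (hs : Img σ Y Z τ b s s') (ht : Img σ Y Z τ b t t') : Img σ Y Z τ b (s * t) (s' * t') := by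
  obtain ⟨_, _, ⟨c, c', hc, rfl, rfl⟩, rfl, rfl⟩ := hs
  obtain ⟨_, _, ⟨d, d', hd, rfl, rfl⟩, rfl, rfl⟩ := ht
  obtain ⟨Δ, Δ', hΔ, hΔτ, hΔb⟩ := hb.comult
  refine ⟨mulOp W₁ Y Y c d ∘ₗ Δ, mulOp W₂ Y Y c' d' ∘ₗ Δ', (RelOp.mulOp hc hd).comp hΔ, ?_, ?_⟩
  · rw [LinearMap.comp_apply, hΔτ, mulOp_xp ((algSys W₁).even hc.mem_left)
      ((algSys W₁).even hd.mem_left) hτ hτ]
  · rw [LinearMap.comp_apply, hΔb, mulOp_xp ((algSys W₂).even hc.mem_right)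
      ((algSys W₂).even hd.mem_right) hb.even hb.even]

lemma Img.add {s t : W₁.H Z} {s' t' : W₂.H Z} (hs : Img σ Y Z τ b s s')
    (ht : Img σ Y Z τ b t t') : Img σ Y Z τ b (s + t) (s' + t') := by
  obtain ⟨x, x', hx, rfl, rfl⟩ := hs
  obtain ⟨y, y', hy, rfl, rfl⟩ := ht
  exact ⟨x + y, x' + y', hx.add hy, rfl, rfl⟩

lemma Img.tr (hb : IsTrans σ X Y τ b) {t : W₁.H Z} {t' : W₂.H Z}
    (ht : Img σ Y Z τ b t t') : W₂.tr Z t' = σ (W₁.tr Z t) := by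
  obtain ⟨x, x', hx, rfl, rfl⟩ := ht
  obtain ⟨g, g', hgg, hadj, hadj'⟩ := hx.exists_adj
  have hg1 : Rel σ Y (g 1) (g' 1) := hgg.apply Rel.one
  obtain ⟨y, y', hy, hyτ, hyb⟩ := Img.rel hb hg1
  have h1 := hb.iso y y' hy
  rw [hyτ, hyb] at h1
  have h2 : W₁.tr Z (x τ * 1) = W₁.tr Y (τ * g 1) := hadj τ 1
  have h3 : W₂.tr Z (x' b * 1) = W₂.tr Y (b * g' 1) := hadj' b 1
  rw [mul_one] at h2 h3
  rw [h2, h3, h1]

/-- The images of `b`. -/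
def imgSub (σ : W₁.K ≃+* W₂.K) (Y Z : 𝒱.Obj) (τ : W₁.H Y) (b : W₂.H Y) :
    Submodule W₂.K (W₂.H Z) where
  carrier := {t' | ∃ t, Img σ Y Z τ b t t'}
  add_mem' := by
    rintro s t ⟨s', hs⟩ ⟨t', ht⟩
    exact ⟨_, hs.add ht⟩
  zero_mem' := ⟨0, 0, 0, RelOp.zero, rfl, rfl⟩
  smul_mem' := by
    rintro r t ⟨t', ht⟩
    refine ⟨σ.symm r • t', ?_⟩
    have := ht.smul (σ.symm r)
    rwa [RingEquiv.apply_symm_apply] at this

/-- The images of `b` which correspond to classes of degree `2 * l`. -/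
def imgGr (σ : W₁.K ≃+* W₂.K) (Y Z : 𝒱.Obj) (τ : W₁.H Y) (b : W₂.H Y) (l : ℕ) :
    Submodule W₂.K (W₂.H Z) where
  carrier := {t' | ∃ t ∈ W₁.gr Z (2 * l), Img σ Y Z τ b t t'}
  add_mem' := by
    rintro s t ⟨s', hs', hs⟩ ⟨t', ht', ht⟩
    exact ⟨_, Submodule.add_mem _ hs' ht', hs.add ht⟩
  zero_mem' := ⟨0, Submodule.zero_mem _, 0, 0, RelOp.zero, rfl, rfl⟩
  smul_mem' := by
    rintro r t ⟨t', ht', ht⟩
    refine ⟨σ.symm r • t', Submodule.smul_mem _ _ ht', ?_⟩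
    have := ht.smul (σ.symm r)
    rwa [RingEquiv.apply_symm_apply] at this

/-- The transport is injective. -/
lemma Img.eq_zero (hb : IsTrans σ X Y τ b) {T₁ : Sys W₁} (hT : ∀ Z, algSpan W₁ Z ≤ T₁.C Z)
    (hT₁ : NonD T₁ X) {e : Module.End W₁.K (W₁.H Y)} (hu : IsUniv T₁ X Y e τ) (hZ : IsPw X Z)
    {t : W₁.H Z} (h : Img σ Y Z τ b t 0) : t = 0 := by
  obtain ⟨f, f', hf, rfl, hfb⟩ := h
  apply hT₁ Z hZ (f τ) (Sys.Op.apply hT hf.mem_left hu.mem)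
  intro s hs
  obtain ⟨y, hy, rfl⟩ := hu.surj Z hZ s hs
  obtain ⟨y', hy'⟩ := RelOp.exists_right σ hy
  obtain ⟨g, g', hgg, hadj, hadj'⟩ := hy'.exists_adj
  have h3 := hb.iso _ _ (hgg.comp hf)
  rw [LinearMap.comp_apply, LinearMap.comp_apply, ← hadj, ← hadj', hfb, mul_zero,
    map_zero] at h3
  have h4 : σ (W₁.tr Z (y τ * f τ)) = σ 0 := by rw [← h3, map_zero]
  exact σ.injective h4

/-- A relation between the classes of the systems `T₁` and `T₂` of two theories on the powers of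
`X`, which is an isomorphism compatible with all structures. -/
structure IsCmp (σ : W₁.K ≃+* W₂.K) (X : 𝒱.Obj) (T₁ : Sys W₁) (T₂ : Sys W₂)
    (I : ∀ Z : 𝒱.Obj, W₁.H Z → W₂.H Z → Prop) : Prop where
  left : ∀ Z, IsPw X Z → ∀ t t', I Z t t' → t ∈ T₁.C Z
  right : ∀ Z, IsPw X Z → ∀ t t', I Z t t' → t' ∈ T₂.C Z
  exists_right : ∀ Z, IsPw X Z → ∀ t ∈ T₁.C Z, ∃ t', I Z t t'
  exists_left : ∀ Z, IsPw X Z → ∀ t' ∈ T₂.C Z, ∃ t, I Z t t'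
  unique_right : ∀ Z, IsPw X Z → ∀ t t' t'', I Z t t' → I Z t t'' → t' = t''
  unique_left : ∀ Z, IsPw X Z → ∀ t t₁ t', I Z t t' → I Z t₁ t' → t = t₁
  add : ∀ Z, IsPw X Z → ∀ t t' s s', I Z t t' → I Z s s' → I Z (t + s) (t' + s')
  smul : ∀ Z, IsPw X Z → ∀ t t' r, I Z t t' → I Z (r • t) (σ r • t')
  mul : ∀ Z, IsPw X Z → ∀ t t' s s', I Z t t' → I Z s s' → I Z (t * s) (t' * s')
  map : ∀ Z Z' (f : Z' ⟶ Z), IsPw X Z → IsPw X Z' → ∀ t t', I Z t t' →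
    I Z' (W₁.map f t) (W₂.map f t')
  push : ∀ Z Z' (f : Z ⟶ Z'), IsPw X Z → IsPw X Z' → ∀ t t', I Z t t' →
    I Z' (W₁.push f t) (W₂.push f t')
  cyc : ∀ Z, IsPw X Z → ∀ j (z : Z.Cycles), Z.IsCyc j z → I Z (W₁.cl Z z) (W₂.cl Z z)
  tr : ∀ Z, IsPw X Z → ∀ t t', I Z t t' → W₂.tr Z t' = σ (W₁.tr Z t)
  deg : ∀ Z, IsPw X Z → ∀ t t' l, I Z t t' → t ∈ W₁.gr Z (2 * l) → t' ∈ W₂.gr Z (2 * l)
  deg' : ∀ Z, IsPw X Z → ∀ t t' l, I Z t t' → t' ∈ W₂.gr Z (2 * l) → t ∈ W₁.gr Z (2 * l)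

/-- A system of finite index has a universal class. -/
theorem exists_universal [Nontrivial (W₁.H X)] {T₁ : Sys W₁}
    (hT₁ : ∀ Z, algSpan W₁ Z ≤ T₁.C Z) {N : ℕ}
    (hN : Tendsto (fun n => (finrank W₁.K (T₁.C (pw X n)) : ℝ≥0∞) / cycRank ops (pw X n)) atTop
      (𝓝 (N : ℝ≥0∞))) :
    (∀ n, HomEqNum W₁ (pw X n)) ∧ NonD T₁ X ∧ ∃ (Y : 𝒱.Obj) (τ : W₁.H Y)
      (e : Module.End W₁.K (W₁.H Y)), IsUniv T₁ X Y e τ := by
  obtain ⟨N', -, h3, -, -, h5⟩ := T₁.full_index hT₁ X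
  have h4 : ((N' : ℕ∞) : ℝ≥0∞) = (N : ℝ≥0∞) := tendsto_nhds_unique h3 hN
  have h6 : N' ≠ ⊤ := by
    rintro rfl
    rw [ENat.toENNReal_top] at h4
    exact ENNReal.natCast_ne_top _ h4.symm
  obtain ⟨h1, h7⟩ := h5 h6
  obtain ⟨r, c, -, hc, hgen⟩ := h7 (fun n => (T₁.C (pw X n) : Set (W₁.H (pw X n))))
    (fun n => (Submodule.span_eq _).symm)
  obtain ⟨Y, hY, τ, hτ, hs⟩ := exists_cyclic hT₁ h1 r c hc hgen
  obtain ⟨e, hu⟩ := exists_univ h1 hY hτ hs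
  exact ⟨h1, nonD_of_index hT₁ h1 hN, Y, τ, e, hu⟩

/-- The comparison of two systems of finite index. -/
theorem exists_cmp (σ : W₁.K ≃+* W₂.K) [IsAlgClosed W₁.K] [IsAlgClosed W₂.K]
    [Nontrivial (W₁.H X)] [Nontrivial (W₂.H X)] {T₁ : Sys W₁} {T₂ : Sys W₂}
    (hT₁ : ∀ Z, algSpan W₁ Z ≤ T₁.C Z) (hT₂ : ∀ Z, algSpan W₂ Z ≤ T₂.C Z) (hg : Grd T₁ X)
    (hg₂ : Grd T₂ X) (hconn₁ : Conn T₁ X) (hconn : Conn T₂ X) {N M : ℕ}
    (hN : Tendsto (fun n => (finrank W₁.K (T₁.C (pw X n)) : ℝ≥0∞) / cycRank ops (pw X n)) atTop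
      (𝓝 (N : ℝ≥0∞)))
    (hM : Tendsto (fun n => (finrank W₂.K (T₂.C (pw X n)) : ℝ≥0∞) / cycRank ops (pw X n)) atTop
      (𝓝 (M : ℝ≥0∞))) :
    ∃ I, IsCmp σ X T₁ T₂ I := by
  obtain ⟨h1, hnd, Y, τ, e, hu⟩ := exists_universal hT₁ hN
  obtain ⟨h2, hnd₂, Y₂, τ₂, e₂, hu₂⟩ := exists_universal hT₂ hM
  obtain ⟨z, hz, -, hz1⟩ := exists_point (W := W₁) (Z := X) (h1 0)
  obtain ⟨b, hb⟩ := exists_transport σ h1 h2 hu hz hz1
  obtain ⟨z₂, hz₂, -, hz₂1⟩ := exists_point (W := W₂) (Z := X) (h2 0)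
  obtain ⟨b₂, hb₂⟩ := exists_transport σ.symm h2 h1 hu₂ hz₂ hz₂1
  have hτ : τ ∈ PH W₁ Y 0 := T₁.even hu.mem
  have hbT : b ∈ T₂.C Y := hb.mem hconn hu.pw
  have hbT₂ : b₂ ∈ T₁.C Y₂ := hb₂.mem hconn₁ hu₂.pw
  have hleft : ∀ Z, IsPw X Z → ∀ t t', Img σ Y Z τ b t t' → t ∈ T₁.C Z := by
    rintro Z - t t' ⟨x, x', hx, rfl, rfl⟩
    exact Sys.Op.apply hT₁ hx.mem_left hu.mem
  have hright : ∀ Z, IsPw X Z → ∀ t t', Img σ Y Z τ b t t' → t' ∈ T₂.C Z := by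
    rintro Z - t t' ⟨x, x', hx, rfl, rfl⟩
    exact Sys.Op.apply hT₂ hx.mem_right hbT
  have huniq : ∀ Z, IsPw X Z → ∀ t t₁ t', Img σ Y Z τ b t t' → Img σ Y Z τ b t₁ t' →
      t = t₁ := by
    intro Z hZ t t₁ t' h h'
    have h3 := h.add (h'.smul (-1))
    have h4 : t' + σ (-1) • t' = 0 := by
      rw [map_neg, map_one, neg_one_smul, add_neg_cancel]
    rw [h4] at h3
    have h5 := Img.eq_zero hb hT₁ hnd hu hZ h3
    rw [neg_one_smul, ← sub_eq_add_neg, sub_eq_zero] at h5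
    exact h5
  refine ⟨fun Z t t' => Img σ Y Z τ b t t', ?_⟩
  constructor
  · exact hleft
  · exact hright
  · intro Z hZ t ht
    obtain ⟨x, hx, rfl⟩ := hu.surj Z hZ t ht
    obtain ⟨x', hx'⟩ := RelOp.exists_right σ hx
    exact ⟨_, x, x', hx', rfl, rfl⟩
  · intro Z hZ t' ht'
    have h3 : finrank W₁.K (T₁.C Z) ≤ finrank W₂.K (imgSub σ Y Z τ b) :=
      finrank_le_aux hb hnd hu hZ le_rfl fun x x' hx _ => ⟨_, x, x', hx, rfl, rfl⟩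
    have h4 : finrank W₂.K (T₂.C Z) ≤ finrank W₁.K (T₁.C Z) :=
      finrank_le_aux hb₂ hnd₂ hu₂ hZ le_rfl fun x x' hx _ =>
        Sys.Op.apply hT₁ hx.mem_right hbT₂
    have h5 : imgSub σ Y Z τ b ≤ T₂.C Z := by
      rintro s ⟨t, ht⟩
      exact hright Z hZ t s ht
    have h6 := Submodule.eq_of_le_of_finrank_le h5 (h4.trans h3)
    rw [← h6] at ht'
    exact ht'
  · intro Z hZ t t' t'' h h'
    exact hb.unique hZ h h'
  · exact huniq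
  · intro Z _ t t' s s' h h'
    exact h.add h'
  · intro Z _ t t' r h
    exact h.smul r
  · intro Z _ t t' s s' h h'
    exact Img.mul hτ hb h h'
  · intro Z Z' f _ _ t t' h
    exact h.op (RelOp.map f)
  · intro Z Z' f _ _ t t' h
    exact h.op (RelOp.push f)
  · intro Z _ j z hz
    refine Img.rel hb ?_
    have h3 := Rel.cyc (σ := σ) 1 hz
    rwa [map_one, one_smul, one_smul] at h3
  · intro Z _ t t' h
    exact Img.tr hb h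
  · intro Z hZ t t' l h ht
    exact hb.deg hT₁ hg hu hZ h ht
  · intro Z hZ t t' l h ht'
    have h3 : finrank W₁.K (T₁.C Z ⊓ W₁.gr Z (2 * l) : Submodule W₁.K _) ≤
        finrank W₂.K (imgGr σ Y Z τ b l) :=
      finrank_le_aux hb hnd hu hZ inf_le_left fun x x' hx hxP =>
        ⟨_, hxP.2, x, x', hx, rfl, rfl⟩
    have h4 : finrank W₂.K (T₂.C Z ⊓ W₂.gr Z (2 * l) : Submodule W₂.K _) ≤
        finrank W₁.K (T₁.C Z ⊓ W₁.gr Z (2 * l) : Submodule W₁.K _) :=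
      finrank_le_aux hb₂ hnd₂ hu₂ hZ inf_le_left fun x x' hx hxP =>
        ⟨Sys.Op.apply hT₁ hx.mem_right hbT₂,
          hb₂.deg hT₂ hg₂ hu₂ hZ ⟨x, x', hx, rfl, rfl⟩ hxP.2⟩
    have h5 : imgGr σ Y Z τ b l ≤ T₂.C Z ⊓ W₂.gr Z (2 * l) := by
      rintro s ⟨t, ht, hts⟩
      exact ⟨hright Z hZ t s hts, hb.deg hT₁ hg hu hZ hts ht⟩
    have h6 := Submodule.eq_of_le_of_finrank_le h5 (h4.trans h3)
    have h7 : t' ∈ imgGr σ Y Z τ b l := by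
      rw [h6]
      exact ⟨hright Z hZ t t' h, ht'⟩
    obtain ⟨t₁, ht₁, h8⟩ := h7
    rw [huniq Z hZ t t₁ t' h h8]
    exact ht₁

end Pool.Agent.V7H5.TI
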