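import Pool.Agent.V7H5.TI.Defs
import Pool.Agent.V7H5.TI.Iso

/-!
# The comparison of the Tate classes of two theories
-/

open CategoryTheory AlgebraicGeometry TensorProduct Filter Topology

open scoped ENNReal

universe u v w

namespace Pool.Agent.V7H5.TI

open Module
open Pool.Agent.H914 Pool.Agent.H914.VarClass Pool.Agent.H914.VarClass.Obj
  Pool.Agent.H914.WeilCohomology Pool.Agent.H281R3.HT Pool.Agent.TH125.Gal
open Pool.Agent.Y133.Half hiding pw cycRank tateDim
open Pool.Agent.Y129 (pw TG PowerAction tateClasses tateDim cycRank)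
open Pool.Agent.R936 (GaloisPowers)

section Alg

variable {L : Type*} [Field L] {H₁ H₂ : Type*} [AddCommGroup H₁] [Module L H₁] [AddCommGroup H₂]
  [Module L H₂]

/-- A relation which is the graph of a linear map. -/
lemma exists_map {A₁ : Submodule L H₁} (I : H₁ → H₂ → Prop)
    (er : ∀ t ∈ A₁, ∃ t', I t t') (ur : ∀ t t' t'', I t t' → I t t'' → t' = t'')
    (ha : ∀ t t' s s', I t t' → I s s' → I (t + s) (t' + s'))
    (hs : ∀ t t' (r : L), I t t' → I (r • t) (r • t')) :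
    ∃ g : H₁ →ₗ[L] H₂, ∀ t ∈ A₁, I t (g t) := by
  choose g hg using fun x : A₁ => er x x.2
  let f : A₁ →ₗ[L] H₂ :=
    { toFun := g
      map_add' := fun x y => ur _ _ _ (hg (x + y)) (ha _ _ _ _ (hg x) (hg y))
      map_smul' := fun r x => ur _ _ _ (hg (r • x)) (hs _ _ r (hg x)) }
  obtain ⟨h, hh⟩ := LinearMap.exists_extend f
  refine ⟨h, fun t ht => ?_⟩
  have h1 : h t = g ⟨t, ht⟩ := LinearMap.congr_fun hh ⟨t, ht⟩
  rw [h1]
  exact hg ⟨t, ht⟩

end Alg

variable {k : Type u} [Field k] {𝒱 : VarClass k} {ops : CycleOps 𝒱}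
  {W W₁ W₂ : WeilCohomology.{u, v} ops} {X : 𝒱.Obj}

section One

variable (L : Type v) [Field L] [Algebra W.K L] (G : GaloisPowers.{u, v, w} W X)

/-- The system of Tate classes with extended coefficients. -/
noncomputable def sysL : Sys (baseW W L) := extSys (powSys_TG (powerAction_base L G.isAction))

lemma sysL_alg (Z : 𝒱.Obj) : algSpan (baseW W L) Z ≤ (sysL L G).C Z := extSys_alg _ _

lemma sysL_grd : Grd (sysL L G) X := grd_TG (powerAction_base L G.isAction)

lemma sysL_conn : Conn (sysL L G) X := conn_TG (powerAction_base L G.isAction)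

lemma sysL_finrank (n : ℕ) : finrank (baseW W L).K ((sysL L G).C (pw X n)) =
    tateDim W X G.χ G.ρ n := by
  rw [sysL, extSys_pw, Pool.Agent.Y129.finrank_TG, tateDim_base]

/-- The classes of the system, as a space over `L`. -/
noncomputable def cL (n : ℕ) : Submodule L (HL L W (pw X n)) := (sysL L G).C (pw X n)

/-- The homogeneous part. -/
noncomputable def grL (W : WeilCohomology.{u, v} ops) [Algebra W.K L] (Y : 𝒱.Obj) (j : ℕ) :
    Submodule L (HL L W Y) := (baseW W L).gr Y (2 * j)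

lemma mem_tateL (n j : ℕ) (x : HL L W (pw X n)) :
    x ∈ tateL L G n j ↔ x ∈ cL L G n ∧ x ∈ grL L W (pw X n) j := by
  have h1 : cL L G n ⊓ grL L W (pw X n) j =
      tateClasses (chiB L G.χ) ((baseW W L).gr (pw X n)) (rhoBase L G.ρ n) j := by
    rw [← TG_inf, cL, sysL, extSys_pw]
    rfl
  have h2 : tateClasses (chiB L G.χ) ((baseW W L).gr (pw X n)) (rhoBase L G.ρ n) j =
      (tateClasses G.χ (W.gr (pw X n)) (G.ρ n) j).baseChange L :=
    tateClasses_base (L := L) G.χ (W.gr (pw X n)) (G.ρ n) j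
  have h3 : (Submodule.span L {x | ∃ c, TateClass G n j c ∧ toL W L c = x} :
      Submodule L (HL L W (pw X n))) =
      (tateClasses G.χ (W.gr (pw X n)) (G.ρ n) j).baseChange L := by
    rw [Submodule.baseChange_eq_span]
    rfl
  have h4 : x ∈ tateL L G n j ↔ x ∈ (Submodule.span L
    {x | ∃ c, TateClass G n j c ∧ toL W L c = x} : Submodule L (HL L W (pw X n))) := Iff.rfl
  rw [h4, h3, ← Submodule.mem_inf, h1, h2]

end One

lemma span_tate (G : GaloisPowers.{u, v, w} W X) (n : ℕ) :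
    Submodule.span W.K {c | ∃ j, TateClass G n j c} = TG W X G.χ G.ρ n := by
  apply le_antisymm
  · rw [Submodule.span_le]
    rintro c ⟨j, hc⟩
    exact Submodule.mem_iSup_of_mem j hc
  · refine iSup_le fun j c hc => Submodule.subset_span ⟨j, hc⟩

lemma tateRatio_def (G : GaloisPowers.{u, v, w} W X) (n : ℕ) :
    tateRatio G n = (tateDim W X G.χ G.ρ n : ℝ≥0∞) / cycRank ops (pw X n) := by
  have h1 : Set.finrank W.K {c | ∃ j, TateClass G n j c} = tateDim W X G.χ G.ρ n := by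
    rw [Set.finrank, span_tate, Pool.Agent.Y129.finrank_TG]
  rw [tateRatio, h1]

lemma finrank_tate (G : GaloisPowers.{u, v, w} W X) (n j : ℕ) :
    Set.finrank W.K {c | TateClass G n j c} =
      finrank W.K (tateClasses G.χ (W.gr (pw X n)) (G.ρ n) j) := by
  have h1 : {c | TateClass G n j c} =
      (tateClasses G.χ (W.gr (pw X n)) (G.ρ n) j : Set (W.H (pw X n))) := rfl
  rw [Set.finrank, h1, Submodule.span_eq]

/-- The index of the Tate classes is a positive integer or infinite. -/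
lemma exists_tateIndex [Nontrivial (W.H X)] (G : GaloisPowers.{u, v, w} W X) :
    (∃ N : ℕ, 1 ≤ N ∧ Tendsto (tateRatio G) atTop (𝓝 (N : ℝ≥0∞)) ∧
      ∀ n, HomEqNum W (pw X n)) ∨ DensityZero G := by
  have e0 : tateRatio G = fun n => (tateDim W X G.χ G.ρ n : ℝ≥0∞) / cycRank ops (pw X n) :=
    funext fun n => tateRatio_def G n
  obtain ⟨N, h1, h2, -, -, h5⟩ := (extSys (powSys_TG G.isAction)).full_index
    (extSys_alg (powSys_TG G.isAction)) X
  have e1 : ∀ n, finrank W.K ((extSys (powSys_TG G.isAction)).C (pw X n)) =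
      tateDim W X G.χ G.ρ n := by
    intro n
    rw [extSys_pw, Pool.Agent.Y129.finrank_TG]
  simp only [e1] at h2
  rcases eq_or_ne N ⊤ with hN | hN
  · subst hN
    right
    rw [DensityZero, e0]
    exact h2
  · left
    obtain ⟨h6, -⟩ := h5 hN
    lift N to ℕ using hN
    refine ⟨N, by exact_mod_cast h1, ?_, h6⟩
    rw [e0]
    exact h2

lemma exists_tateIndex' [Nontrivial (W.H X)] {G : GaloisPowers.{u, v, w} W X}
    (hG : ¬ DensityZero G) : ∃ N : ℕ, 1 ≤ N ∧ Tendsto (tateRatio G) atTop (𝓝 (N : ℝ≥0∞)) ∧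
      ∀ n, HomEqNum W (pw X n) :=
  (exists_tateIndex G).resolve_right hG

lemma strongTate_iff [Nontrivial (W.H X)] (G : GaloisPowers.{u, v, w} W X) :
    StrongTate G ↔ Tendsto (tateRatio G) atTop (𝓝 1) := by
  obtain ⟨N, h1, h2, h3, h4⟩ := Pool.Agent.Y129.tate_index G.isAction
  have h5 : StrongTate G ↔ N = 1 := by
    rw [h4]
    constructor
    · intro h n
      exact ⟨fun j c hc hc' => (h n).1 j c ⟨hc, hc'⟩, (h n).2⟩
    · intro h n
      exact ⟨fun j c hc => (h n).1 j c hc.1 hc.2, (h n).2⟩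
  rw [h5]
  have e0 : tateRatio G = fun n => (tateDim W X G.χ G.ρ n : ℝ≥0∞) / cycRank ops (pw X n) :=
    funext fun n => tateRatio_def G n
  have h2' : Tendsto (tateRatio G) atTop (𝓝 (N : ℝ≥0∞)) := by rw [e0]; exact h2
  constructor
  · intro hN
    rw [hN] at h2'
    simpa using h2'
  · intro h6
    have h7 := tendsto_nhds_unique h2' h6
    have h8 : ((N : ℕ∞) : ℝ≥0∞) = ((1 : ℕ∞) : ℝ≥0∞) := by rw [h7]; simp
    exact ENat.toENNReal_inj.1 h8

/-- **The comparison of the Tate classes of two theories.** -/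
theorem exists_tateIso [Nontrivial (W₁.H X)] [Nontrivial (W₂.H X)]
    {G₁ : GaloisPowers.{u, v, w} W₁ X} {G₂ : GaloisPowers.{u, v, w} W₂ X}
    (h₁ : ¬ DensityZero G₁) (h₂ : ¬ DensityZero G₂) :
    ∃ (L : Type v) (_ : Field L) (_ : Algebra W₁.K L) (_ : Algebra W₂.K L)
      (φ : ∀ n, HL L W₁ (pw X n) → HL L W₂ (pw X n)), IsTateIso L G₁ G₂ φ := by
  obtain ⟨N₁, -, hN₁, -⟩ := exists_tateIndex' h₁
  obtain ⟨N₂, -, hN₂, -⟩ := exists_tateIndex' h₂
  obtain ⟨L, hL, hLc, ⟨hL₁⟩, ⟨hL₂⟩⟩ := exists_common_field W₁.K W₂.K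
  have hnt₁ : Nontrivial ((baseW W₁ L).H X) := nontrivial_base L
  have hnt₂ : Nontrivial ((baseW W₂ L).H X) := nontrivial_base L
  have hc₁ : IsAlgClosed (baseW W₁ L).K := hLc
  have hc₂ : IsAlgClosed (baseW W₂ L).K := hLc
  let σ : (baseW W₁ L).K ≃+* (baseW W₂ L).K := RingEquiv.refl L
  have hM₁ : Tendsto (fun n => (finrank (baseW W₁ L).K ((sysL L G₁).C (pw X n)) : ℝ≥0∞) /
      cycRank ops (pw X n)) atTop (𝓝 (N₁ : ℝ≥0∞)) := by
    simp only [sysL_finrank, ← tateRatio_def]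
    exact hN₁
  have hM₂ : Tendsto (fun n => (finrank (baseW W₂ L).K ((sysL L G₂).C (pw X n)) : ℝ≥0∞) /
      cycRank ops (pw X n)) atTop (𝓝 (N₂ : ℝ≥0∞)) := by
    simp only [sysL_finrank, ← tateRatio_def]
    exact hN₂
  obtain ⟨I, hI⟩ := exists_cmp σ (sysL_alg L G₁) (sysL_alg L G₂) (sysL_grd L G₁)
    (sysL_grd L G₂) (sysL_conn L G₁) (sysL_conn L G₂) hM₁ hM₂
  have key : ∀ n, ∃ φ : HL L W₁ (pw X n) →ₗ[L] HL L W₂ (pw X n),
      ∀ x ∈ cL L G₁ n, I (pw X n) x (φ x) := by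
    intro n
    have hpw := IsPw.of X n
    exact exists_map (H₁ := HL L W₁ (pw X n)) (H₂ := HL L W₂ (pw X n)) (A₁ := cL L G₁ n)
      (fun t t' => I (pw X n) t t')
      (fun t ht => hI.exists_right _ hpw t ht)
      (fun t t' t'' h h' => hI.unique_right _ hpw t t' t'' h h')
      (fun t t' s s' h h' => hI.add _ hpw t t' s s' h h')
      (fun t t' r h => hI.smul _ hpw t t' r h)
  choose φ hφ using key
  have hmem : ∀ n j (x : HL L W₁ (pw X n)), x ∈ tateL L G₁ n j → I (pw X n) x (φ n x) :=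
    fun n j x hx => hφ n x ((mem_tateL L G₁ n j x).1 hx).1
  refine ⟨L, hL, hL₁, hL₂, fun n => φ n, ?_⟩
  constructor
  · intro n
    exact ⟨fun x y => map_add (φ n) x y, fun r x => map_smul (φ n) r x⟩
  · intro n j
    have hpw := IsPw.of X n
    refine ⟨?_, ?_, ?_⟩
    · intro x hx
      have h1 := (mem_tateL L G₁ n j x).1 hx
      exact (mem_tateL L G₂ n j _).2 ⟨hI.right _ hpw _ _ (hφ n x h1.1),
        hI.deg _ hpw _ _ j (hφ n x h1.1) h1.2⟩
    · intro x hx y hy hxy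
      have h1 := hmem n j x hx
      have h2 := hmem n j y hy
      have h3 : φ n x = φ n y := hxy
      rw [h3] at h1
      exact hI.unique_left _ hpw _ _ _ h1 h2
    · intro y hy
      have h1 := (mem_tateL L G₂ n j y).1 hy
      obtain ⟨x, hx⟩ := hI.exists_left _ hpw y h1.1
      have h2 : x ∈ cL L G₁ n := hI.left _ hpw _ _ hx
      refine ⟨x, (mem_tateL L G₁ n j x).2 ⟨h2, hI.deg' _ hpw _ _ j hx h1.2⟩, ?_⟩
      exact hI.unique_right _ hpw _ _ _ (hφ n x h2) hx
  · intro n j z hz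
    have h1 := hI.cyc _ (IsPw.of X n) j z hz
    exact hI.unique_right _ (IsPw.of X n) _ _ _
      (hφ n _ (hI.left _ (IsPw.of X n) _ _ h1)) h1
  · intro n i j x hx y hy
    have h1 := hI.mul _ (IsPw.of X n) _ _ _ _ (hmem n i x hx) (hmem n j y hy)
    exact hI.unique_right _ (IsPw.of X n) _ _ _
      (hφ n _ (hI.left _ (IsPw.of X n) _ _ h1)) h1
  · intro m n f j x hx
    have h1 := hI.map _ _ f (IsPw.of X n) (IsPw.of X m) _ _ (hmem n j x hx)
    exact hI.unique_right _ (IsPw.of X m) _ _ _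
      (hφ m _ (hI.left _ (IsPw.of X m) _ _ h1)) h1
  · intro m n f j x hx
    have h1 := hI.push _ _ f (IsPw.of X m) (IsPw.of X n) _ _ (hmem m j x hx)
    exact hI.unique_right _ (IsPw.of X n) _ _ _
      (hφ n _ (hI.left _ (IsPw.of X n) _ _ h1)) h1

/-- One inequality. -/
theorem finrank_tate_le [Nontrivial (W₁.H X)] [Nontrivial (W₂.H X)]
    {G₁ : GaloisPowers.{u, v, w} W₁ X} {G₂ : GaloisPowers.{u, v, w} W₂ X}
    (h₁ : ¬ DensityZero G₁) (h₂ : ∀ n, HomEqNum W₂ (pw X n)) (n j : ℕ) :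
    Set.finrank W₁.K {c | TateClass G₁ n j c} ≤ Set.finrank W₂.K {c | TateClass G₂ n j c} := by
  obtain ⟨N₁, -, hN₁, -⟩ := exists_tateIndex' h₁
  have e0 : tateRatio G₁ = fun n => (tateDim W₁ X G₁.χ G₁.ρ n : ℝ≥0∞) / cycRank ops (pw X n) :=
    funext fun n => tateRatio_def G₁ n
  rw [e0] at hN₁
  rw [finrank_tate, finrank_tate]
  exact tate_le G₁.isAction G₂.isAction hN₁ h₂ n j

/-- Equality of the dimensions. -/
theorem tateRatio_eq [Nontrivial (W₁.H X)] [Nontrivial (W₂.H X)]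
    {G₁ : GaloisPowers.{u, v, w} W₁ X} {G₂ : GaloisPowers.{u, v, w} W₂ X}
    (h₁ : ¬ DensityZero G₁) (h₂ : ¬ DensityZero G₂) : tateRatio G₁ = tateRatio G₂ := by
  obtain ⟨-, -, -, hD₁⟩ := exists_tateIndex' h₁
  obtain ⟨-, -, -, hD₂⟩ := exists_tateIndex' h₂
  funext n
  have h3 : tateDim W₁ X G₁.χ G₁.ρ n = tateDim W₂ X G₂.χ G₂.ρ n := by
    rw [tateDim, tateDim]
    refine Finset.sum_congr rfl fun j _ => ?_
    rw [← finrank_tate, ← finrank_tate]
    exact le_antisymm (finrank_tate_le h₁ hD₂ n j) (finrank_tate_le h₂ hD₁ n j)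
  rw [tateRatio_def, tateRatio_def, h3]

/-- **The index of the Tate classes is independent of the theory.** -/
theorem tate_uniform {ι : Type*} (W : ι → WeilCohomology.{u, v} ops) (X : 𝒱.Obj)
    [∀ i, Nontrivial ((W i).H X)] (G : ∀ i, GaloisPowers.{u, v, w} (W i) X) :
    ∃ N₀ : ℕ, 1 ≤ N₀ ∧
      (∀ i, (Tendsto (tateRatio (G i)) atTop (𝓝 (N₀ : ℝ≥0∞)) ∧
        ∀ n, HomEqNum (W i) (pw X n)) ∨ DensityZero (G i)) ∧
      (∀ i j, ¬ DensityZero (G i) → ¬ DensityZero (G j) →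
        ∃ (L : Type v) (_ : Field L) (_ : Algebra (W i).K L) (_ : Algebra (W j).K L)
          (φ : ∀ n, HL L (W i) (pw X n) → HL L (W j) (pw X n)),
          IsTateIso L (G i) (G j) φ) ∧
      (∀ i j, ¬ DensityZero (G i) → (∀ n, HomEqNum (W j) (pw X n)) → ∀ n l,
        Set.finrank (W i).K {c | TateClass (G i) n l c} ≤
          Set.finrank (W j).K {c | TateClass (G j) n l c}) ∧
      (∀ i, StrongTate (G i) → ∀ j, StrongTate (G j) ∨ DensityZero (G j)) := by
  classical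
  have h5 : ∀ i, StrongTate (G i) → ∀ j, StrongTate (G j) ∨ DensityZero (G j) := by
    intro i hi j
    by_cases hj : DensityZero (G j)
    · exact Or.inr hj
    · left
      rw [strongTate_iff] at hi ⊢
      have h1 : ¬ DensityZero (G i) := by
        intro h2
        have h3 := tendsto_nhds_unique hi h2
        exact ENNReal.one_ne_top h3
      rw [← tateRatio_eq h1 hj]
      exact hi
  by_cases hex : ∃ i₀, ¬ DensityZero (G i₀)
  · obtain ⟨i₀, hi₀⟩ := hex
    obtain ⟨N₀, h1, h2, -⟩ := exists_tateIndex' hi₀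
    refine ⟨N₀, h1, fun i => ?_, fun i j hi hj => exists_tateIso hi hj,
      fun i j hi hj n l => finrank_tate_le hi hj n l, h5⟩
    by_cases hi : DensityZero (G i)
    · exact Or.inr hi
    · left
      obtain ⟨-, -, -, hD⟩ := exists_tateIndex' hi
      rw [← tateRatio_eq hi₀ hi]
      exact ⟨h2, hD⟩
  · push Not at hex
    exact ⟨1, le_rfl, fun i => Or.inr (hex i), fun i j hi hj => exists_tateIso hi hj,
      fun i j hi hj n l => finrank_tate_le hi hj n l, h5⟩

end Pool.Agent.V7H5.TI
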