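import Pool.Agent.V7H5.TI.Uni

/-!
# The comultiplication of a universal class
-/

open CategoryTheory AlgebraicGeometry

universe u v

namespace Pool.Agent.V7H5.TI

open Module
open Pool.Agent.H914 Pool.Agent.H914.VarClass Pool.Agent.H914.VarClass.Obj
  Pool.Agent.H914.WeilCohomology Pool.Agent.H281R3.HT
open Pool.Agent.Y133.Half hiding pw
open Pool.Agent.Y129 (pw)

variable {k : Type u} [Field k] {𝒱 : VarClass k} {ops : CycleOps 𝒱}
  {W : WeilCohomology.{u, v} ops} {X Y Z Q : 𝒱.Obj}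

lemma op_map (f : X ⟶ Y) : (W.map f).toLinearMap ∈ (algSys W).Op Y X := by
  rw [← corr_graph]
  exact Sys.Op.corr ((algSys W).push _ ((algSys W).one _))

lemma op_push (f : X ⟶ Y) : W.push f ∈ (algSys W).Op X Y := by
  rw [← corr_graph']
  exact Sys.Op.corr ((algSys W).push _ ((algSys W).one _))

lemma op_mulL {c : W.H X} (hc : c ∈ algSpan W X) :
    LinearMap.mulLeft W.K c ∈ (algSys W).Op X X := by
  have h1 : W.corr (W.push (diag X) c) = LinearMap.mulLeft W.K c := by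
    apply LinearMap.ext
    intro a
    rw [W.corr_diag, LinearMap.mulLeft_apply]
  rw [← h1]
  exact Sys.Op.corr ((algSys W).push _ hc)

lemma op_compL {c : W.H (Y.prod Z)} (hc : c ∈ algSpan W (Y.prod Z)) :
    compL W Q c ∈ (algSys W).Op (Q.prod Y) (Q.prod Z) :=
  Sys.Op.comp (op_push _) (Sys.Op.comp (op_mulL ((algSys W).map _ hc)) (op_map _))

/-- The contraction with `ε` of the first factor. -/
noncomputable def conL (W : WeilCohomology.{u, v} ops) {Y Z : 𝒱.Obj} (ε : W.H Y) :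
    W.H (Y.prod Z) →ₗ[W.K] W.H Z :=
  W.push (snd Y Z) ∘ₗ LinearMap.mulLeft W.K (W.map (fst Y Z) ε)

lemma conL_apply {ε : W.H Y} (hε : ε ∈ PH W Y 0) (w : W.H (Y.prod Z)) :
    conL W ε w = W.corr w ε := by
  change W.push (snd Y Z) (W.map (fst Y Z) ε * w) = _
  rw [corr_apply, PH.even_comm (PH.map _ hε)]

lemma op_conL {ε : W.H Y} (hε : ε ∈ algSpan W Y) :
    conL W (Z := Z) ε ∈ (algSys W).Op (Y.prod Z) Z :=
  Sys.Op.comp (op_push _) (op_mulL ((algSys W).map _ hε))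

/-- The operator `h ↦ tr h • 1`. -/
noncomputable def trL (W : WeilCohomology.{u, v} ops) (Y X : 𝒱.Obj) : W.H Y →ₗ[W.K] W.H X :=
  W.push (snd Y X) ∘ₗ (W.map (fst Y X)).toLinearMap

lemma trL_apply (h : W.H Y) : trL W Y X h = W.tr Y h • (1 : W.H X) := W.push_snd' h

lemma op_trL : trL W Y X ∈ (algSys W).Op Y X := Sys.Op.comp (op_push _) (op_map _)

lemma compL_xp {c : W.H (Y.prod Z)} (hc : c ∈ PH W _ 0) (a : W.H Q) {b : W.H Y}
    (hb : b ∈ PH W Y 0) : compL W Q c (xp W a b) = xp W a (W.corr c b) := by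
  apply eq_of_corr
  intro h
  have h1 : W.corr c b ∈ PH W Z 0 := Ev.corr hc _ _ hb
  rw [corr_compL hc, LinearMap.comp_apply, corr_xp0 a hb, corr_xp0 a h1, map_smul]

lemma map_diag_xp (a b : W.H X) : W.map (diag X) (xp W a b) = a * b := by
  have e1 : diag X ≫ snd X X = 𝟙 X := Obj.lift_snd _ _
  have e2 : diag X ≫ fst X X = 𝟙 X := Obj.lift_fst _ _
  rw [xp, map_mul (W.map (diag X)), ← W.map_comp, ← W.map_comp, e1, e2, W.map_id, W.map_id]

lemma map_swap_xp {a : W.H X} (ha : a ∈ PH W X 0) (b : W.H Y) :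
    W.map (swap Y X) (xp W a b) = xp W b a := by
  rw [xp, map_mul (W.map (swap Y X)), ← W.map_comp, ← W.map_comp, swap_fst, swap_snd,
    PH.even_comm (PH.map _ ha)]
  rfl

/-- The operator `h ↦ ∑ a * (g b)` for `Δ h = ∑ a ⊗ b`. -/
noncomputable def Dg (W : WeilCohomology.{u, v} ops) (Y : 𝒱.Obj) (c : W.H (Y.prod (Y.prod Y)))
    (d : W.H (Y.prod Y)) : Module.End W.K (W.H Y) :=
  (W.map (diag Y)).toLinearMap ∘ₗ compL W Y d ∘ₗ W.corr c

lemma op_Dg {c : W.H (Y.prod (Y.prod Y))} (hc : c ∈ algSpan W _) {d : W.H (Y.prod Y)}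
    (hd : d ∈ algSpan W _) : Dg W Y c d ∈ (algSys W).Op Y Y :=
  Sys.Op.comp (op_map _) (Sys.Op.comp (op_compL hd) (Sys.Op.corr hc))

lemma Dg_apply {c : W.H (Y.prod (Y.prod Y))} {d : W.H (Y.prod Y)} (hd : d ∈ PH W _ 0)
    {b : W.H Y} (hb : b ∈ PH W Y 0) (hcb : W.corr c b = xp W b b) :
    Dg W Y c d b = b * W.corr d b := by
  change W.map (diag Y) (compL W Y d (W.corr c b)) = _
  rw [hcb, compL_xp hd b hb, map_diag_xp]

variable {T : Sys W} {e : Module.End W.K (W.H Y)} {τ : W.H Y}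

theorem IsUniv.exists_comult (hu : IsUniv T X Y e τ) {z : W.H X} (hz : z ∈ algSpan W X)
    (hz1 : W.tr X z = 1) : ∃ c ∈ algSpan W (Y.prod (Y.prod Y)), ∃ ε ∈ algSpan W Y,
      W.corr c ∘ₗ e = W.corr c ∧ IsComult W Y c e ε ∧ W.corr c τ = xp W τ τ ∧
        W.tr Y (ε * τ) = 1 := by
  have hY := hu.pw
  have hτe : τ ∈ PH W Y 0 := T.even hu.mem
  -- the comultiplication
  have hττ : xp W τ τ ∈ T.C (Y.prod Y) := T.mul (T.map _ hu.mem) (T.map _ hu.mem)
  obtain ⟨x, hx, hxτ⟩ := hu.surj _ (hY.prod hY) _ hττ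
  obtain ⟨c, hc, hcx⟩ := Sys.mem_Op.1 (Sys.Op.comp hx hu.eOp)
  have hcτ : W.corr c τ = xp W τ τ := by
    rw [hcx, LinearMap.comp_apply, hu.fix, hxτ]
  have hce : W.corr c ∘ₗ e = W.corr c := by
    rw [hcx]
    apply LinearMap.ext
    intro a
    simp only [LinearMap.comp_apply, hu.idem]
  have hcev : c ∈ PH W _ 0 := (algSys W).even hc
  -- the counit
  obtain ⟨u, hu1, hu2⟩ := hu.surj X (IsPw.self X) 1 (T.one X)
  obtain ⟨u', hu', hadj⟩ := Sys.Op.exists_adj hu1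
  obtain ⟨e', he', hadje⟩ := Sys.Op.exists_adj hu.eOp
  set ε := e' (u' z) with hε
  have hεa : ε ∈ algSpan W Y := Sys.Op.apply (T := algSys W) (fun _ => le_rfl) he'
    (Sys.Op.apply (T := algSys W) (fun _ => le_rfl) hu' hz)
  have hεe : ε ∈ PH W Y 0 := (algSys W).even hεa
  have hετ : W.tr Y (τ * ε) = 1 := by
    rw [hε, ← hadje, hu.fix, ← hadj, hu2, one_mul, hz1]
  have hτ0 : τ ≠ 0 := by
    intro h
    rw [h, zero_mul, map_zero] at hετ
    exact zero_ne_one hετ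
  refine ⟨c, hc, ε, hεa, hce, ?_, hcτ, by rw [PH.even_comm hεe, hετ]⟩
  have key : ∀ Z, IsPw X Z → ∀ f ∈ (algSys W).Op Y Z, ∀ g ∈ (algSys W).Op Y Z, f τ = g τ →
      f ∘ₗ e = g ∘ₗ e := by
    intro Z hZ f hf g hg hfg
    have h1 := hu.inj Z hZ (f - g) (Submodule.sub_mem _ hf hg) (by
      rw [LinearMap.sub_apply, hfg, sub_self])
    rw [LinearMap.sub_comp, sub_eq_zero] at h1
    exact h1
  have hcop : W.corr c ∈ (algSys W).Op Y (Y.prod Y) := Sys.Op.corr hc
  refine ⟨hcev, hεe, ?_, ?_, ?_, hu.idem, ?_⟩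
  · have h1 := key _ (hY.prod hY) ((W.map (swap Y Y)).toLinearMap ∘ₗ W.corr c)
      (Sys.Op.comp (op_map _) hcop) (W.corr c) hcop (by
        rw [LinearMap.comp_apply, hcτ]
        exact map_swap_xp hτe τ)
    rw [LinearMap.comp_assoc, hce] at h1
    intro h
    exact congrArg (fun f => f h) h1
  · have h2 : compL W Y c (xp W τ τ) = xp W τ (xp W τ τ) := by
      rw [compL_xp hcev τ hτe, hcτ]
    have h1 := key _ (hY.prod (hY.prod hY))
      ((W.map (sw12 Y Y)).toLinearMap ∘ₗ compL W Y c ∘ₗ W.corr c)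
      (Sys.Op.comp (op_map _) (Sys.Op.comp (op_compL hc) hcop)) (compL W Y c ∘ₗ W.corr c)
      (Sys.Op.comp (op_compL hc) hcop) (by
        rw [LinearMap.comp_apply, LinearMap.comp_apply, hcτ, h2]
        have h3 := map_sw12 (Z := Y) hτe hτe τ
        rw [zero_mul, pow_zero, one_smul] at h3
        exact h3)
    rw [LinearMap.comp_assoc, LinearMap.comp_assoc, hce] at h1
    intro h
    exact congrArg (fun f => f h) h1
  · have h1 := key _ hY (conL W ε ∘ₗ W.corr c) (Sys.Op.comp (op_conL hεa) hcop) LinearMap.id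
      Sys.Op.id (by
        rw [LinearMap.comp_apply, hcτ, conL_apply hεe, corr_xp0 τ hτe, hετ, one_smul]
        rfl)
    rw [LinearMap.comp_assoc, hce, LinearMap.id_comp] at h1
    intro h
    have h2 := congrArg (fun f => f h) h1
    change conL W ε (W.corr c h) = e h at h2
    rw [conL_apply hεe] at h2
    exact h2
  · intro h
    apply hτ0
    rw [← hu.fix, h, LinearMap.zero_apply]

/-- The identity which gives the intersection form on the classes `x τ`. -/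
theorem IsUniv.isometry (hu : IsUniv T X Y e τ) {c : W.H (Y.prod (Y.prod Y))}
    (hc : c ∈ algSpan W _) (hcτ : W.corr c τ = xp W τ τ) {ε : W.H Y} (hε : ε ∈ algSpan W Y)
    (hε1 : W.tr Y (ε * τ) = 1) {d : W.H (Y.prod Y)} (hd : d ∈ algSpan W _) :
    (trL W Y X ∘ₗ Dg W Y c d) ∘ₗ e =
      (W.tr Y (τ * W.corr d τ) • (trL W Y X ∘ₗ LinearMap.mulLeft W.K ε)) ∘ₗ e := by
  have hτe : τ ∈ PH W Y 0 := T.even hu.mem
  have h1 := hu.inj X (IsPw.self X) (trL W Y X ∘ₗ Dg W Y c d -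
    W.tr Y (τ * W.corr d τ) • (trL W Y X ∘ₗ LinearMap.mulLeft W.K ε))
    (Submodule.sub_mem _ (Sys.Op.comp op_trL (op_Dg hc hd))
      (Submodule.smul_mem _ _ (Sys.Op.comp op_trL (op_mulL hε)))) (by
      rw [LinearMap.sub_apply, LinearMap.comp_apply, Dg_apply ((algSys W).even hd) hτe hcτ,
        LinearMap.smul_apply, LinearMap.comp_apply, LinearMap.mulLeft_apply, trL_apply, trL_apply,
        hε1, one_smul, sub_self])
  rw [LinearMap.sub_comp, sub_eq_zero] at h1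
  exact h1

end Pool.Agent.V7H5.TI
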