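import Pool.Agent.Y133.Half.Index2

/-!
# Algebraic classes in two Weil cohomology theories
-/

open CategoryTheory AlgebraicGeometry

universe u v

namespace Pool.Agent.V7H5.TI

open Module
open Pool.Agent.H914 Pool.Agent.H914.VarClass Pool.Agent.H914.VarClass.Obj
  Pool.Agent.H914.WeilCohomology Pool.Agent.H281R3.HT
open Pool.Agent.Y133.Half

variable {k : Type u} [Field k] {𝒱 : VarClass k} {ops : CycleOps 𝒱}
  {W₁ W₂ : WeilCohomology.{u, v} ops} (σ : W₁.K ≃+* W₂.K) {X Y Z Q : 𝒱.Obj}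

/-- The pairs `(∑ r i • cl (z i), ∑ σ (r i) • cl (z i))` of algebraic classes in two theories. -/
inductive Rel (Z : 𝒱.Obj) : W₁.H Z → W₂.H Z → Prop
  | zero : Rel Z 0 0
  | add {a b : W₁.H Z} {a' b' : W₂.H Z} : Rel Z a a' → Rel Z b b' → Rel Z (a + b) (a' + b')
  | cyc (r : W₁.K) {j : ℕ} {z : Z.Cycles} (hz : Z.IsCyc j z) :
      Rel Z (r • W₁.cl Z z) (σ r • W₂.cl Z z)

variable {σ}

lemma Rel.smul (s : W₁.K) {a : W₁.H Z} {a' : W₂.H Z} (h : Rel σ Z a a') :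
    Rel σ Z (s • a) (σ s • a') := by
  induction h with
  | zero => rw [smul_zero, smul_zero]; exact Rel.zero
  | add _ _ h1 h2 => rw [smul_add, smul_add]; exact Rel.add h1 h2
  | cyc r hz =>
    rw [smul_smul, smul_smul, ← map_mul]
    exact Rel.cyc _ hz

lemma Rel.sub {a b : W₁.H Z} {a' b' : W₂.H Z} (h : Rel σ Z a a') (h' : Rel σ Z b b') :
    Rel σ Z (a - b) (a' - b') := by
  have h1 := Rel.add h (h'.smul (-1))
  rw [map_neg, map_one, neg_smul, one_smul, neg_smul, one_smul, ← sub_eq_add_neg,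
    ← sub_eq_add_neg] at h1
  exact h1

lemma Rel.mul {a b : W₁.H Z} {a' b' : W₂.H Z} (h : Rel σ Z a a') (h' : Rel σ Z b b') :
    Rel σ Z (a * b) (a' * b') := by
  induction h with
  | zero => rw [zero_mul, zero_mul]; exact Rel.zero
  | add _ _ h1 h2 => rw [add_mul, add_mul]; exact Rel.add h1 h2
  | cyc r hz =>
    induction h' with
    | zero => rw [mul_zero, mul_zero]; exact Rel.zero
    | add _ _ h1 h2 => rw [mul_add, mul_add]; exact Rel.add h1 h2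
    | cyc s hw =>
      rw [smul_mul_smul_comm, smul_mul_smul_comm, ← map_mul σ, ← W₁.cl_mul, ← W₂.cl_mul]
      exact Rel.cyc _ (ops.mul_mem hz hw)

lemma Rel.map (f : X ⟶ Y) {a : W₁.H Y} {a' : W₂.H Y} (h : Rel σ Y a a') :
    Rel σ X (W₁.map f a) (W₂.map f a') := by
  induction h with
  | zero => rw [map_zero, map_zero]; exact Rel.zero
  | add _ _ h1 h2 => rw [map_add, map_add]; exact Rel.add h1 h2
  | cyc r hz =>
    rw [map_smul, map_smul, ← W₁.cl_pull, ← W₂.cl_pull]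
    exact Rel.cyc _ (ops.pull_mem _ hz)

lemma push_cl_eq_zero {W : WeilCohomology.{u, v} ops} (f : X ⟶ Y) {j : ℕ} {z : X.Cycles}
    (hz : X.IsCyc j z) (h : j + Y.dim < X.dim) : W.push f (W.cl X z) = 0 := by
  have h1 := W.push_mem f (W.cl_mem hz)
  rw [grZ_of_neg (by push_cast; omega)] at h1
  exact (Submodule.mem_bot _).1 h1

lemma Rel.push (f : X ⟶ Y) {a : W₁.H X} {a' : W₂.H X} (h : Rel σ X a a') :
    Rel σ Y (W₁.push f a) (W₂.push f a') := by
  induction h with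
  | zero => rw [map_zero, map_zero]; exact Rel.zero
  | add _ _ h1 h2 => rw [map_add, map_add]; exact Rel.add h1 h2
  | @cyc r j z hz =>
    rw [map_smul, map_smul]
    by_cases hj : X.dim ≤ j + Y.dim
    · rw [← W₁.cl_push, ← W₂.cl_push]
      exact Rel.cyc (j := j + Y.dim - X.dim) _ (ops.push_mem f hz (by omega))
    · rw [push_cl_eq_zero f hz (by omega), push_cl_eq_zero f hz (by omega), smul_zero, smul_zero]
      exact Rel.zero

lemma Rel.tr {a : W₁.H Z} {a' : W₂.H Z} (h : Rel σ Z a a') : W₂.tr Z a' = σ (W₁.tr Z a) := by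
  induction h with
  | zero => rw [map_zero, map_zero, map_zero]
  | add _ _ h1 h2 => rw [map_add, map_add, map_add, h1, h2]
  | @cyc r j z hz =>
    rw [map_smul, map_smul, smul_eq_mul, smul_eq_mul, map_mul]
    by_cases hj : j = Z.dim
    · subst hj
      rw [W₁.tr_cl hz, W₂.tr_cl hz, map_ratCast]
    · rw [W₁.tr_eq_zero (W₁.cl_mem hz) (by omega), W₂.tr_eq_zero (W₂.cl_mem hz) (by omega),
        map_zero]

lemma Rel.one : Rel σ Z 1 1 := by
  have h1 := Rel.cyc (σ := σ) (Z := Z) 1 Z.V.fundCycle_mem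
  rw [map_one, one_smul, one_smul, W₁.cl_fund, W₂.cl_fund] at h1
  exact h1

lemma Rel.mem_left {a : W₁.H Z} {a' : W₂.H Z} (h : Rel σ Z a a') : a ∈ algSpan W₁ Z := by
  induction h with
  | zero => exact Submodule.zero_mem _
  | add _ _ h1 h2 => exact Submodule.add_mem _ h1 h2
  | @cyc r j z hz =>
    exact Submodule.smul_mem _ _ (Submodule.subset_span (Set.mem_iUnion.2 ⟨j, z, hz, rfl⟩))

lemma Rel.mem_right {a : W₁.H Z} {a' : W₂.H Z} (h : Rel σ Z a a') : a' ∈ algSpan W₂ Z := by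
  induction h with
  | zero => exact Submodule.zero_mem _
  | add _ _ h1 h2 => exact Submodule.add_mem _ h1 h2
  | @cyc r j z hz =>
    exact Submodule.smul_mem _ _ (Submodule.subset_span (Set.mem_iUnion.2 ⟨j, z, hz, rfl⟩))

variable (σ) in
lemma Rel.exists_right {a : W₁.H Z} (ha : a ∈ algSpan W₁ Z) : ∃ a' : W₂.H Z, Rel σ Z a a' := by
  induction ha using Submodule.span_induction with
  | mem x hx =>
    obtain ⟨j, z, hz, rfl⟩ := Set.mem_iUnion.1 hx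
    have h1 := Rel.cyc (σ := σ) 1 hz
    rw [one_smul] at h1
    exact ⟨_, h1⟩
  | zero => exact ⟨0, Rel.zero⟩
  | add x y _ _ hx hy =>
    obtain ⟨x', hx⟩ := hx
    obtain ⟨y', hy⟩ := hy
    exact ⟨_, hx.add hy⟩
  | smul r x _ hx =>
    obtain ⟨x', hx⟩ := hx
    exact ⟨_, hx.smul r⟩

variable (σ) in
lemma Rel.exists_left {a' : W₂.H Z} (ha : a' ∈ algSpan W₂ Z) : ∃ a : W₁.H Z, Rel σ Z a a' := by
  induction ha using Submodule.span_induction with
  | mem x hx =>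
    obtain ⟨j, z, hz, rfl⟩ := Set.mem_iUnion.1 hx
    have h1 := Rel.cyc (σ := σ) 1 hz
    rw [map_one, one_smul, one_smul] at h1
    exact ⟨_, h1⟩
  | zero => exact ⟨0, Rel.zero⟩
  | add x y _ _ hx hy =>
    obtain ⟨x', hx⟩ := hx
    obtain ⟨y', hy⟩ := hy
    exact ⟨_, hx.add hy⟩
  | smul r x _ hx =>
    obtain ⟨x', hx⟩ := hx
    have h1 := hx.smul (σ.symm r)
    rw [RingEquiv.apply_symm_apply] at h1
    exact ⟨_, h1⟩

/-- An algebraic class which is orthogonal to all algebraic classes vanishes if homological and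
numerical equivalence coincide. -/
lemma eq_zero_of_orth {W : WeilCohomology.{u, v} ops} (h : HomEqNum W Z) {a : W.H Z}
    (ha : a ∈ algSpan W Z) (h' : ∀ d ∈ algSpan W Z, W.tr Z (d * a) = 0) : a = 0 :=
  Pool.Agent.Y129.homEqNum_algSpan h ha (Pool.Agent.Y129.mem_transcendental.2 h')

lemma Rel.eq_zero (h2 : HomEqNum W₂ Z) {a' : W₂.H Z} (h : Rel σ Z 0 a') : a' = 0 := by
  refine eq_zero_of_orth h2 h.mem_right fun d' hd' => ?_
  obtain ⟨d, hd⟩ := Rel.exists_left σ hd'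
  have h3 := (hd.mul h).tr
  rw [h3, mul_zero, map_zero, map_zero]

lemma Rel.unique (h2 : HomEqNum W₂ Z) {a : W₁.H Z} {a' a'' : W₂.H Z} (h : Rel σ Z a a')
    (h' : Rel σ Z a a'') : a' = a'' := by
  have h3 := h.sub h'
  rw [sub_self] at h3
  exact sub_eq_zero.1 (h3.eq_zero h2)

/-! ### Operators -/

variable (σ) in
/-- The pairs of operators given by pairs of algebraic classes. -/
def RelOp (X Y : 𝒱.Obj) (f : W₁.H X →ₗ[W₁.K] W₁.H Y) (f' : W₂.H X →ₗ[W₂.K] W₂.H Y) : Prop :=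
  ∃ c c', Rel σ (X.prod Y) c c' ∧ W₁.corr c = f ∧ W₂.corr c' = f'

section Op

variable {f g : W₁.H X →ₗ[W₁.K] W₁.H Y} {f' g' : W₂.H X →ₗ[W₂.K] W₂.H Y}

lemma RelOp.mem_left (h : RelOp σ X Y f f') : f ∈ (algSys W₁).Op X Y := by
  obtain ⟨c, c', hc, rfl, rfl⟩ := h
  exact Sys.Op.corr hc.mem_left

lemma RelOp.mem_right (h : RelOp σ X Y f f') : f' ∈ (algSys W₂).Op X Y := by
  obtain ⟨c, c', hc, rfl, rfl⟩ := h
  exact Sys.Op.corr hc.mem_right

variable (σ) in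
lemma RelOp.exists_right (h : f ∈ (algSys W₁).Op X Y) :
    ∃ f' : W₂.H X →ₗ[W₂.K] W₂.H Y, RelOp σ X Y f f' := by
  obtain ⟨c, hc, rfl⟩ := Sys.mem_Op.1 h
  obtain ⟨c', hc'⟩ := Rel.exists_right σ hc
  exact ⟨_, c, c', hc', rfl, rfl⟩

variable (σ) in
lemma RelOp.exists_left (h : f' ∈ (algSys W₂).Op X Y) :
    ∃ f : W₁.H X →ₗ[W₁.K] W₁.H Y, RelOp σ X Y f f' := by
  obtain ⟨c', hc', rfl⟩ := Sys.mem_Op.1 h
  obtain ⟨c, hc⟩ := Rel.exists_left σ hc'
  exact ⟨_, c, c', hc, rfl, rfl⟩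

lemma RelOp.add (h : RelOp σ X Y f f') (h' : RelOp σ X Y g g') :
    RelOp σ X Y (f + g) (f' + g') := by
  obtain ⟨c, c', hc, rfl, rfl⟩ := h
  obtain ⟨d, d', hd, rfl, rfl⟩ := h'
  exact ⟨_, _, hc.add hd, W₁.corr_add _ _, W₂.corr_add _ _⟩

lemma RelOp.smul (s : W₁.K) (h : RelOp σ X Y f f') : RelOp σ X Y (s • f) (σ s • f') := by
  obtain ⟨c, c', hc, rfl, rfl⟩ := h
  exact ⟨_, _, hc.smul s, W₁.corr_smul _ _, W₂.corr_smul _ _⟩

lemma RelOp.zero : RelOp σ X Y (0 : W₁.H X →ₗ[W₁.K] W₁.H Y) 0 :=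
  ⟨0, 0, Rel.zero, W₁.corr_zero, W₂.corr_zero⟩

lemma RelOp.sub (h : RelOp σ X Y f f') (h' : RelOp σ X Y g g') :
    RelOp σ X Y (f - g) (f' - g') := by
  have h1 := RelOp.add h (h'.smul (-1))
  have e1 : f + (-1 : W₁.K) • g = f - g := by rw [sub_eq_add_neg, ← neg_one_smul W₁.K g]
  have e2 : f' + σ (-1) • g' = f' - g' := by
    rw [sub_eq_add_neg, ← neg_one_smul W₂.K g', map_neg, map_one]
  rw [e1, e2] at h1
  exact h1

lemma RelOp.unique (h2 : HomEqNum W₂ (X.prod Y)) (h : RelOp σ X Y f f')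
    (h' : RelOp σ X Y f g') : f' = g' := by
  obtain ⟨c, c', hc, rfl, rfl⟩ := h
  obtain ⟨d, d', hd, h3, rfl⟩ := h'
  have h4 : d = c := by
    rw [← sub_eq_zero]
    apply corr_inj (W := W₁)
    rw [sub_eq_add_neg, ← neg_one_smul W₁.K c, W₁.corr_add, W₁.corr_smul, h3]
    apply LinearMap.ext
    intro a
    rw [LinearMap.add_apply, LinearMap.smul_apply, neg_one_smul, add_neg_cancel,
      LinearMap.zero_apply]
  rw [h4] at hd
  rw [hc.unique h2 hd]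

lemma RelOp.comp {f : W₁.H Y →ₗ[W₁.K] W₁.H Z} {f' : W₂.H Y →ₗ[W₂.K] W₂.H Z}
    (h : RelOp σ Y Z f f') (h' : RelOp σ X Y g g') : RelOp σ X Z (f ∘ₗ g) (f' ∘ₗ g') := by
  obtain ⟨c, c', hc, rfl, rfl⟩ := h
  obtain ⟨d, d', hd, rfl, rfl⟩ := h'
  refine ⟨_, _, ((hd.map (p12 X Y Z)).mul (hc.map (p23 X Y Z))).push (p13 X Y Z), ?_, ?_⟩
  · exact corr_comp' d ((algSys W₁).even hc.mem_left)
  · exact corr_comp' d' ((algSys W₂).even hc.mem_right)

lemma RelOp.apply (h : RelOp σ X Y f f') {a : W₁.H X} {a' : W₂.H X} (ha : Rel σ X a a') :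
    Rel σ Y (f a) (f' a') := by
  obtain ⟨c, c', hc, rfl, rfl⟩ := h
  exact (hc.mul (ha.map (fst X Y))).push (snd X Y)

lemma RelOp.id : RelOp σ X X (LinearMap.id : W₁.H X →ₗ[W₁.K] W₁.H X)
    (LinearMap.id : W₂.H X →ₗ[W₂.K] W₂.H X) :=
  ⟨_, _, Rel.one.push (diag X), Sys.corr_diag_one, Sys.corr_diag_one⟩

lemma corr_graph (W : WeilCohomology.{u, v} ops) (f : X ⟶ Y) :
    W.corr (W.push (Obj.lift f (𝟙 X)) (1 : W.H X)) = (W.map f).toLinearMap := by
  apply LinearMap.ext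
  intro a
  rw [corr_apply, ← W.push_mul, one_mul, ← W.push_comp, ← W.map_comp, Obj.lift_fst, Obj.lift_snd,
    W.push_id]
  rfl

lemma corr_graph' (W : WeilCohomology.{u, v} ops) (f : X ⟶ Y) :
    W.corr (W.push (Obj.lift (𝟙 X) f) (1 : W.H X)) = W.push f := by
  apply LinearMap.ext
  intro a
  rw [corr_apply, ← W.push_mul, one_mul, ← W.push_comp, ← W.map_comp, Obj.lift_fst, Obj.lift_snd,
    W.map_id]

lemma RelOp.map (f : X ⟶ Y) : RelOp σ Y X (W₁.map f).toLinearMap (W₂.map f).toLinearMap :=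
  ⟨_, _, Rel.one.push (Obj.lift f (𝟙 X)), corr_graph W₁ f, corr_graph W₂ f⟩

lemma RelOp.push (f : X ⟶ Y) : RelOp σ X Y (W₁.push f) (W₂.push f) :=
  ⟨_, _, Rel.one.push (Obj.lift (𝟙 X) f), corr_graph' W₁ f, corr_graph' W₂ f⟩

lemma RelOp.mulL {c : W₁.H X} {c' : W₂.H X} (h : Rel σ X c c') :
    RelOp σ X X (LinearMap.mulLeft W₁.K c) (LinearMap.mulLeft W₂.K c') := by
  refine ⟨_, _, h.push (diag X), ?_, ?_⟩
  · apply LinearMap.ext
    intro a
    rw [W₁.corr_diag, LinearMap.mulLeft_apply]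
  · apply LinearMap.ext
    intro a
    rw [W₂.corr_diag, LinearMap.mulLeft_apply]

/-- Adjoints. -/
lemma RelOp.exists_adj (h : RelOp σ X Y f f') : ∃ g g', RelOp σ Y X g g' ∧
    Pool.Agent.Y133.Half.Adj W₁ f g ∧ Pool.Agent.Y133.Half.Adj W₂ f' g' := by
  obtain ⟨c, c', hc, rfl, rfl⟩ := h
  exact ⟨_, _, ⟨_, _, hc.map (swap Y X), rfl, rfl⟩, tr_corr' ((algSys W₁).even hc.mem_left),
    tr_corr' ((algSys W₂).even hc.mem_right)⟩

end Op

end Pool.Agent.V7H5.TI
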