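import Pool.Agent.V7H5.TI.Mul

/-!
# Transport of universal classes to another theory
-/

open CategoryTheory AlgebraicGeometry

universe u v

namespace Pool.Agent.V7H5.TI

open Module
open Pool.Agent.H914 Pool.Agent.H914.VarClass Pool.Agent.H914.VarClass.Obj
  Pool.Agent.H914.WeilCohomology Pool.Agent.H281R3.HT
open Pool.Agent.Y133.Half hiding pw
open Pool.Agent.Y129 (pw)

variable {k : Type u} [Field k] {𝒱 : VarClass k} {ops : CycleOps 𝒱}
  {W₁ W₂ : WeilCohomology.{u, v} ops} (σ : W₁.K ≃+* W₂.K) {X Y Z Q : 𝒱.Obj}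

variable {σ} in
lemma RelOp.conL {ε : W₁.H Y} {ε' : W₂.H Y} (h : Rel σ Y ε ε') :
    RelOp σ (Y.prod Z) Z (conL W₁ ε) (conL W₂ ε') :=
  (RelOp.push _).comp (RelOp.mulL (h.map _))

variable {σ} in
lemma RelOp.trL : RelOp σ Y X (trL W₁ Y X) (trL W₂ Y X) :=
  (RelOp.push _).comp (RelOp.map _)

variable {σ} in
lemma RelOp.Dg {c : W₁.H (Y.prod (Y.prod Y))} {c' : W₂.H (Y.prod (Y.prod Y))}
    (hc : Rel σ _ c c') {d : W₁.H (Y.prod Y)} {d' : W₂.H (Y.prod Y)} (hd : Rel σ _ d d') :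
    RelOp σ Y Y (Dg W₁ Y c d) (Dg W₂ Y c' d') :=
  (RelOp.map _).comp ((RelOp.compL hd).comp ⟨c, c', hc, rfl, rfl⟩)

/-- The class `b` of the second theory behaves like the class `τ` of the first theory. -/
structure IsTrans (X Y : 𝒱.Obj) (τ : W₁.H Y) (b : W₂.H Y) : Prop where
  even : b ∈ PH W₂ Y 0
  ne : b ≠ 0
  zero : ∀ Z, IsPw X Z → ∀ x x', RelOp σ Y Z x x' → x τ = 0 → x' b = 0
  comult : ∃ Δ Δ', RelOp σ Y (Y.prod Y) Δ Δ' ∧ Δ τ = xp W₁ τ τ ∧ Δ' b = xp W₂ b b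
  counit : ∃ ε ε', Rel σ Y ε ε' ∧ W₁.tr Y (ε * τ) = 1 ∧ W₂.tr Y (ε' * b) = 1
  iso : ∀ g g', RelOp σ Y Y g g' → W₂.tr Y (b * g' b) = σ (W₁.tr Y (τ * g τ))

/-- The existence of the corresponding class of the second theory. -/
theorem exists_transport [IsAlgClosed W₂.K] (h1 : ∀ n, HomEqNum W₁ (pw X n))
    (h2 : ∀ n, HomEqNum W₂ (pw X n)) {T : Sys W₁} {e : Module.End W₁.K (W₁.H Y)} {τ : W₁.H Y}
    (hu : IsUniv T X Y e τ) {z : W₁.H X} (hz : z ∈ algSpan W₁ X) (hz1 : W₁.tr X z = 1) :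
    ∃ b, IsTrans σ X Y τ b := by
  obtain ⟨c, hc, ε, hε, hce, hcom, hcτ, hετ⟩ := hu.exists_comult hz hz1
  have hY := hu.pw
  obtain ⟨c', hc'⟩ := Rel.exists_right σ hc
  obtain ⟨ε', hε'⟩ := Rel.exists_right σ hε
  obtain ⟨e', he'⟩ := RelOp.exists_right σ hu.eOp
  have hΔ : RelOp σ Y (Y.prod Y) (W₁.corr c) (W₂.corr c') := ⟨c, c', hc', rfl, rfl⟩
  -- the relations in the second theory
  have hom2 : ∀ {Z}, IsPw X Z → HomEqNum W₂ Z := fun hZ => hZ.hom h2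
  have hce' : W₂.corr c' ∘ₗ e' = W₂.corr c' :=
    RelOp.unique (hom2 (hY.prod (hY.prod hY))) (hΔ.comp he') (hce.symm ▸ hΔ)
  have hee : e ∘ₗ e = e := LinearMap.ext hu.idem
  have hee' : e' ∘ₗ e' = e' :=
    RelOp.unique (hom2 (hY.prod hY)) (he'.comp he') (hee.symm ▸ he')
  have hev : c' ∈ PH W₂ _ 0 := (algSys W₂).even hc'.mem_right
  have hεe : ε' ∈ PH W₂ Y 0 := (algSys W₂).even hε'.mem_right
  have hH : IsComult W₂ Y c' e' ε' := by
    refine ⟨hev, hεe, ?_, ?_, ?_, ?_, ?_⟩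
    · have e1 : (W₁.map (swap Y Y)).toLinearMap ∘ₗ W₁.corr c = W₁.corr c :=
        LinearMap.ext hcom.symm
      have e2 : (W₂.map (swap Y Y)).toLinearMap ∘ₗ W₂.corr c' = W₂.corr c' :=
        RelOp.unique (hom2 (hY.prod (hY.prod hY))) ((RelOp.map _).comp hΔ) (e1.symm ▸ hΔ)
      intro h
      exact congrArg (fun f => f h) e2
    · have e1 : (W₁.map (sw12 Y Y)).toLinearMap ∘ₗ compL W₁ Y c ∘ₗ W₁.corr c =
          compL W₁ Y c ∘ₗ W₁.corr c := LinearMap.ext hcom.assoc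
      have hA : RelOp σ Y (Y.prod (Y.prod Y)) (compL W₁ Y c ∘ₗ W₁.corr c)
          (compL W₂ Y c' ∘ₗ W₂.corr c') := (RelOp.compL hc').comp hΔ
      have e2 : (W₂.map (sw12 Y Y)).toLinearMap ∘ₗ compL W₂ Y c' ∘ₗ W₂.corr c' =
          compL W₂ Y c' ∘ₗ W₂.corr c' :=
        RelOp.unique (hom2 (hY.prod (hY.prod (hY.prod hY)))) ((RelOp.map _).comp hA)
          (e1.symm ▸ hA)
      intro h
      exact congrArg (fun f => f h) e2
    · have e1 : conL W₁ ε ∘ₗ W₁.corr c = e := by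
        apply LinearMap.ext
        intro h
        rw [LinearMap.comp_apply, conL_apply hcom.even', hcom.counit]
      have e2 : conL W₂ ε' ∘ₗ W₂.corr c' = e' :=
        RelOp.unique (hom2 (hY.prod hY)) ((RelOp.conL hε').comp hΔ) (e1.symm ▸ he')
      intro h
      have e3 := congrArg (fun f => f h) e2
      change conL W₂ ε' (W₂.corr c' h) = e' h at e3
      rw [conL_apply hεe] at e3
      exact e3
    · intro h
      exact congrArg (fun f => f h) hee'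
    · intro h0
      rw [h0] at he'
      obtain ⟨d, d', hd, hde, hd0⟩ := he'
      have hd1 : d' = 0 := corr_inj (W := W₂) hd0
      rw [hd1] at hd
      have hd2 : d = 0 := by
        refine eq_zero_of_orth ((hY.prod hY).hom h1) hd.mem_left fun x hx => ?_
        obtain ⟨x', hx'⟩ := Rel.exists_right σ hx
        have h3 := (hx'.mul hd).tr
        rw [mul_zero, map_zero] at h3
        have h4 : σ (W₁.tr _ (x * d)) = σ 0 := by rw [← h3, map_zero]
        exact σ.injective h4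
      apply hcom.ne
      rw [← hde, hd2, W₁.corr_zero]
  obtain ⟨b, hb, hb0, hbb, heb, hbε⟩ := hH.exists_grouplike
  refine ⟨b, hb, hb0, ?_, ⟨_, _, hΔ, hcτ, hbb⟩, ⟨ε, ε', hε', hετ, ?_⟩, ?_⟩
  · intro Z hZ x x' hx hxτ
    have h3 := hx.comp he'
    rw [hu.inj Z hZ x hx.mem_left hxτ] at h3
    have h4 : x' ∘ₗ e' = 0 := RelOp.unique (hom2 (hY.prod hZ)) h3 RelOp.zero
    have h5 := congrArg (fun f => f b) h4
    rw [LinearMap.comp_apply, heb] at h5
    exact h5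
  · rw [PH.even_comm hεe, hbε]
  rintro g g' ⟨d, d', hd, rfl, rfl⟩
  have hiso := hu.isometry hc hcτ hε hετ hd.mem_left
  have hL : RelOp σ Y X ((trL W₁ Y X ∘ₗ Dg W₁ Y c d) ∘ₗ e)
      ((trL W₂ Y X ∘ₗ Dg W₂ Y c' d') ∘ₗ e') :=
    ((RelOp.trL (X := X)).comp (RelOp.Dg hc' hd)).comp he'
  have hR : RelOp σ Y X
      ((W₁.tr Y (τ * W₁.corr d τ) • (trL W₁ Y X ∘ₗ LinearMap.mulLeft W₁.K ε)) ∘ₗ e)
      ((σ (W₁.tr Y (τ * W₁.corr d τ)) • (trL W₂ Y X ∘ₗ LinearMap.mulLeft W₂.K ε')) ∘ₗ e') :=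
    (((RelOp.trL (X := X)).comp (RelOp.mulL hε')).smul _).comp he'
  rw [hiso] at hL
  have h3 := RelOp.unique (hom2 (hY.prod (IsPw.self X))) hL hR
  have h4 := congrArg (fun f => f b) h3
  simp only [LinearMap.comp_apply, LinearMap.smul_apply] at h4
  rw [heb, Dg_apply ((algSys W₂).even hd.mem_right) hb hbb, trL_apply, LinearMap.mulLeft_apply,
    trL_apply, PH.even_comm hεe, hbε, one_smul] at h4
  -- the unit of the cohomology of `X` is not zero
  have hone : (1 : W₂.H X) ≠ 0 := by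
    obtain ⟨z', hz'⟩ := Rel.exists_right σ hz
    intro h0
    have h5 := hz'.tr
    rw [hz1, map_one] at h5
    have h6 : z' = 0 := by rw [← mul_one z', h0, mul_zero]
    rw [h6, map_zero] at h5
    exact zero_ne_one h5
  have h5 : (W₂.tr Y (b * W₂.corr d' b) - σ (W₁.tr Y (τ * W₁.corr d τ))) • (1 : W₂.H X) = 0 := by
    rw [sub_smul, h4, sub_self]
  exact sub_eq_zero.1 ((smul_eq_zero.1 h5).resolve_right hone)

end Pool.Agent.V7H5.TI
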