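import Pool.Agent.V7H5.TI.Grp

/-!
# Universal classes
-/

open CategoryTheory AlgebraicGeometry

universe u v

namespace Pool.Agent.V7H5.TI

open Module
open Pool.Agent.H914 Pool.Agent.H914.VarClass Pool.Agent.H914.VarClass.Obj
  Pool.Agent.H914.WeilCohomology Pool.Agent.H281R3.HT
open Pool.Agent.Y133.Half hiding pw
open Pool.Agent.Y129 (pw)

variable {k : Type u} [Field k] {𝒱 : VarClass k} {ops : CycleOps 𝒱}
  {W : WeilCohomology.{u, v} ops} {X Y Z Q : 𝒱.Obj}

/-- The varieties which are isomorphic to powers of `X`. -/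
def IsPw (X Z : 𝒱.Obj) : Prop := ∃ n, Nonempty (Z ≅ pw X n)

lemma IsPw.of (X : 𝒱.Obj) (n : ℕ) : IsPw X (pw X n) := ⟨n, ⟨Iso.refl _⟩⟩

lemma IsPw.self (X : 𝒱.Obj) : IsPw X X := IsPw.of X 0

lemma IsPw.prod (hY : IsPw X Y) (hZ : IsPw X Z) : IsPw X (Y.prod Z) := by
  obtain ⟨m, ⟨i⟩⟩ := hY
  obtain ⟨n, ⟨j⟩⟩ := hZ
  exact ⟨_, Pool.Agent.Y129.prod_iso_pw i j⟩

lemma IsPw.hom (hW : ∀ n, HomEqNum W (pw X n)) (hZ : IsPw X Z) : HomEqNum W Z := by
  obtain ⟨n, ⟨θ⟩⟩ := hZ
  exact (homEqNum_iso θ).2 (hW n)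

/-- An algebraic operator whose products with all algebraic operators have supertrace zero
vanishes. -/
lemma op_eq_zero (h : HomEqNum W (Z.prod Y)) {x : W.H Y →ₗ[W.K] W.H Z}
    (hx : x ∈ (algSys W).Op Y Z)
    (h0 : ∀ y ∈ (algSys W).Op Z Y, LinearMap.trace W.K (W.H Y)
      (H914.par (W.isInternal Y) ∘ₗ y ∘ₗ x) = 0) : x = 0 := by
  obtain ⟨d, hd, rfl⟩ := Sys.mem_Op.1 hx
  have h1 : W.map (swap Z Y) d = 0 := by
    refine eq_zero_of_orth h ((algSys W).map _ hd) fun c hc => ?_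
    rw [← trace_corr_corr]
    exact h0 _ (Sys.Op.corr hc)
  have h2 : d = 0 := by
    rw [← Pool.Agent.Y133.Half.swap_swap d, h1, map_zero]
  rw [h2, W.corr_zero]

/-- The algebra of algebraic operators on the cohomology of `Y`. -/
noncomputable def EAlg (W : WeilCohomology.{u, v} ops) (Y : 𝒱.Obj) :
    Subalgebra W.K (Module.End W.K (W.H Y)) where
  carrier := (algSys W).Op Y Y
  mul_mem' := fun ha hb => Sys.Op.comp ha hb
  add_mem' := fun ha hb => Submodule.add_mem _ ha hb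
  algebraMap_mem' := by
    intro r
    have h1 : algebraMap W.K (Module.End W.K (W.H Y)) r = r • LinearMap.id := by
      apply LinearMap.ext
      intro x
      rw [Module.algebraMap_end_apply, LinearMap.smul_apply, LinearMap.id_apply]
    rw [h1]
    exact Submodule.smul_mem _ _ Sys.Op.id

lemma mem_EAlg {x : Module.End W.K (W.H Y)} : x ∈ EAlg W Y ↔ x ∈ (algSys W).Op Y Y := Iff.rfl

/-- Left ideals of semisimple algebras are generated by idempotents. -/
theorem ideal_idem {K B : Type*} [Field K] [Ring B] [Algebra K B] [Module.Finite K B]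
    (h : ∀ x : B, (∀ y : B, IsNilpotent (y * x)) → x = 0) (I : Submodule B B) :
    ∃ e : B, e * e = e ∧ (1 - e) ∈ I ∧ ∀ x ∈ I, x * e = 0 := by
  have hA : IsArtinianRing B := IsArtinianRing.of_finite K B
  have hss : IsSemisimpleRing B := by
    rw [IsArtinianRing.isSemisimpleRing_iff_jacobson, eq_bot_iff]
    intro x hx
    rw [Submodule.mem_bot]
    refine h x fun y => ?_
    have h1 : y * x ∈ Ring.jacobson B := Ideal.mul_mem_left _ _ hx
    obtain ⟨m, hm⟩ := IsSemiprimaryRing.isNilpotent (R := B)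
    have h3 : (y * x) ^ m ∈ (Ring.jacobson B) ^ m := Ideal.pow_mem_pow h1 m
    rw [hm] at h3
    exact ⟨m, h3⟩
  obtain ⟨J, hJ⟩ := exists_isCompl I
  obtain ⟨i, hi, j, hj, hij⟩ := Submodule.mem_sup.1
    (show (1 : B) ∈ I ⊔ J by rw [hJ.sup_eq_top]; exact Submodule.mem_top)
  have hdis : ∀ x, x ∈ I → x ∈ J → x = 0 := fun x h1 h2 => by
    have h3 : x ∈ I ⊓ J := ⟨h1, h2⟩
    rw [hJ.inf_eq_bot, Submodule.mem_bot] at h3
    exact h3
  have key : ∀ x ∈ I, x * j = 0 := by
    intro x hx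
    have h1 : x * j = x - x * i := by
      have h2 : x * (i + j) = x := by rw [hij, mul_one]
      rw [mul_add] at h2
      exact eq_sub_of_add_eq' h2
    apply hdis
    · rw [h1]
      exact Submodule.sub_mem _ hx (Submodule.smul_mem I x hi)
    · exact Submodule.smul_mem J x hj
  have hjj : j * j = j := by
    have h2 : j * (i + j) = j := by rw [hij, mul_one]
    rw [mul_add] at h2
    have h3 : j * i = j - j * j := eq_sub_of_add_eq h2
    have h4 : j * i = 0 := by
      apply hdis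
      · exact Submodule.smul_mem I j hi
      · rw [h3]
        exact Submodule.sub_mem _ hj (Submodule.smul_mem J j hj)
    rw [h4] at h3
    exact (sub_eq_zero.1 h3.symm).symm
  refine ⟨j, hjj, ?_, key⟩
  have h1 : 1 - j = i := by rw [← hij, add_sub_cancel_right]
  rw [h1]
  exact hi

theorem EAlg_nil (h : HomEqNum W (Y.prod Y)) (x : EAlg W Y)
    (hx : ∀ y : EAlg W Y, IsNilpotent (y * x)) : x = 0 := by
  apply Subtype.ext
  refine op_eq_zero h x.2 fun y hy => ?_
  obtain ⟨m, h2⟩ := hx ⟨y, hy⟩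
  have h3 : (y * (x : Module.End W.K (W.H Y))) ^ m = 0 := congrArg Subtype.val h2
  have hEv : Ev W (y * (x : Module.End W.K (W.H Y))) := (Sys.Op.ev hy).comp (Sys.Op.ev x.2)
  have h4 : Commute (H914.par (W.isInternal Y)) (y * (x : Module.End W.K (W.H Y))) :=
    hEv.par_comm
  have h5 : IsNilpotent (H914.par (W.isInternal Y) * (y * (x : Module.End W.K (W.H Y)))) := by
    refine ⟨m, ?_⟩
    rw [h4.mul_pow, h3, mul_zero]
  exact Pool.Agent.Y129.trace_nil h5

/-- The annihilator of an element is generated by an idempotent. -/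
theorem exists_idem (h : HomEqNum W (Y.prod Y)) (τ : W.H Y) :
    ∃ e ∈ (algSys W).Op Y Y, (∀ a, e (e a) = e a) ∧ e τ = τ ∧
      ∀ x ∈ (algSys W).Op Y Y, x τ = 0 → x ∘ₗ e = 0 := by
  let I : Submodule (EAlg W Y) (EAlg W Y) :=
    { carrier := {x | (x : Module.End W.K (W.H Y)) τ = 0}
      zero_mem' := rfl
      add_mem' := by
        intro a b ha hb
        change ((a : Module.End W.K (W.H Y)) + (b : Module.End W.K (W.H Y))) τ = 0
        rw [LinearMap.add_apply]
        change (a : Module.End W.K (W.H Y)) τ = 0 at ha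
        change (b : Module.End W.K (W.H Y)) τ = 0 at hb
        rw [ha, hb, add_zero]
      smul_mem' := by
        intro c a ha
        change ((c : Module.End W.K (W.H Y)) * (a : Module.End W.K (W.H Y))) τ = 0
        change (a : Module.End W.K (W.H Y)) τ = 0 at ha
        rw [Module.End.mul_apply, ha, map_zero] }
  obtain ⟨j, hjj, h1j, key⟩ := ideal_idem (K := W.K) (B := EAlg W Y) (EAlg_nil h) I
  refine ⟨j, j.2, fun a => ?_, ?_, fun x hx hx0 => ?_⟩
  · exact congrArg (fun f : EAlg W Y => (f : Module.End W.K (W.H Y)) a) hjj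
  · have h2 : τ - (j : Module.End W.K (W.H Y)) τ = 0 := h1j
    exact (sub_eq_zero.1 h2).symm
  · exact congrArg Subtype.val (key ⟨x, hx⟩ hx0)

/-- A class `τ` on a power `Y` of `X` such that the classes of `T` on all powers of `X` are the
`x τ` for the elements `x` of the form `x e`, which are unique. -/
structure IsUniv (T : Sys W) (X Y : 𝒱.Obj) (e : Module.End W.K (W.H Y)) (τ : W.H Y) : Prop where
  pw : IsPw X Y
  mem : τ ∈ T.C Y
  eOp : e ∈ (algSys W).Op Y Y
  idem : ∀ a, e (e a) = e a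
  fix : e τ = τ
  surj : ∀ Z, IsPw X Z → ∀ t ∈ T.C Z, ∃ x ∈ (algSys W).Op Y Z, x τ = t
  inj : ∀ Z, IsPw X Z → ∀ x ∈ (algSys W).Op Y Z, x τ = 0 → x ∘ₗ e = 0

theorem exists_univ {T : Sys W} (hW : ∀ n, HomEqNum W (pw X n)) (hY : IsPw X Y) {τ : W.H Y}
    (hτ : τ ∈ T.C Y)
    (hs : ∀ Z, IsPw X Z → ∀ t ∈ T.C Z, ∃ x ∈ (algSys W).Op Y Z, x τ = t) :
    ∃ e, IsUniv T X Y e τ := by
  obtain ⟨e, he, hee, heτ, hann⟩ := exists_idem ((hY.prod hY).hom hW) τ
  refine ⟨e, hY, hτ, he, hee, heτ, hs, fun Z hZ x hx hxτ => ?_⟩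
  refine op_eq_zero ((hZ.prod hY).hom hW) (Sys.Op.comp hx he) fun y hy => ?_
  have h1 : (y ∘ₗ x) ∘ₗ e = 0 := by
    apply hann _ (Sys.Op.comp hy hx)
    rw [LinearMap.comp_apply, hxτ, map_zero]
  have h2 : y ∘ₗ (x ∘ₗ e) = 0 := h1
  rw [h2, LinearMap.comp_zero, map_zero]

end Pool.Agent.V7H5.TI
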